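import Pool.Agent.H792.KG.Defs

/-!
DESC. pks L f is homogeneous of degree 1 - L.length and smooth off 0. Downward induction on k: if all pks L f with L.length = k+1 vanish off 0 and k ≥ 2 (k ≥ 2 so degree 1 - k ≤ -1 ≠ 0) then each g = pks L f, L.length = k, has all partial derivatives 0 on the connected
open set {y ≠ 0} (n ≥ 2: isConnected_compl_singleton_of_one_lt_rank), so it is constant there (IsOpen.is_const_of_fderiv_eq_zero), and g(2y) = 2^(1-k) g(y) gives g = 0. End at k = 2: L = [a, b].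
-/

set_option autoImplicit false

open scoped BigOperators ContDiff Topology Matrix
open MeasureTheory

noncomputable section

namespace Pool.Agent.H792.KG

theorem DESC_smo_pk {n : ℕ} {f : (Fin n → ℝ) → ℝ} (hf : Smo f) (k : Fin n) : Smo (pk k f) := by
  intro y hy
  have h1 : ContDiffAt ℝ ∞ (fderiv ℝ f) y := (hf y hy).fderiv_right (by simp)
  exact h1.clm_apply contDiffAt_const

theorem DESC_hom_pk {n : ℕ} {f : (Fin n → ℝ) → ℝ} {m : ℤ} (hf : Smo f) (hm : HomD m f)
    (k : Fin n) : HomD (m - 1) (pk k f) := by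
  intro y hy t ht
  have hty : t • y ≠ 0 := smul_ne_zero ht.ne' hy
  have h1 : HasFDerivAt (fun x : Fin n → ℝ => f (t • x))
      ((fderiv ℝ f (t • y)).comp (t • ContinuousLinearMap.id ℝ (Fin n → ℝ))) y := by
    have h2 : HasFDerivAt (fun x : Fin n → ℝ => t • x)
        (t • ContinuousLinearMap.id ℝ (Fin n → ℝ)) y := (hasFDerivAt_id y).const_smul t
    exact HasFDerivAt.comp y ((hf (t • y) hty).differentiableAt (by simp)).hasFDerivAt h2
  have h3 : HasFDerivAt (fun x : Fin n → ℝ => t ^ m * f x) (t ^ m • fderiv ℝ f y) y :=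
    ((hf y hy).differentiableAt (by simp)).hasFDerivAt.const_mul (t ^ m)
  have h4 : (fun x : Fin n → ℝ => f (t • x)) =ᶠ[𝓝 y] fun x => t ^ m * f x := by
    filter_upwards [isOpen_compl_singleton.mem_nhds hy] with x hx
    exact hm x hx t ht
  have h5 := (h3.congr_of_eventuallyEq h4).unique h1
  have h6 : t ^ m * fderiv ℝ f y (Pi.single k (1 : ℝ)) =
      t * fderiv ℝ f (t • y) (Pi.single k (1 : ℝ)) := by
    have h7 := congrArg (fun A : (Fin n → ℝ) →L[ℝ] ℝ => A (Pi.single k (1 : ℝ))) h5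
    have h8 : ((fderiv ℝ f (t • y)).comp (t • ContinuousLinearMap.id ℝ (Fin n → ℝ)))
        (Pi.single k (1 : ℝ)) = t * fderiv ℝ f (t • y) (Pi.single k (1 : ℝ)) := by
      show fderiv ℝ f (t • y) (t • (Pi.single k (1 : ℝ) : Fin n → ℝ)) = _
      rw [map_smul, smul_eq_mul]
    rw [← h8]
    exact h7
  show fderiv ℝ f (t • y) (Pi.single k (1 : ℝ)) = t ^ (m - 1) * fderiv ℝ f y (Pi.single k (1 : ℝ))
  rw [zpow_sub_one₀ ht.ne']
  field_simp
  linarith

theorem DESC_pks {n : ℕ} {f : (Fin n → ℝ) → ℝ} (hf : Smo f) (h1 : HomD 1 f) :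
    ∀ L : List (Fin n), Smo (pks L f) ∧ HomD (1 - (L.length : ℤ)) (pks L f) := by
  intro L
  induction L with
  | nil =>
    refine ⟨hf, ?_⟩
    have e : (1 - (([] : List (Fin n)).length : ℤ)) = 1 := by simp
    rw [e]
    exact h1
  | cons k L ih =>
    refine ⟨DESC_smo_pk ih.1 k, ?_⟩
    have h := DESC_hom_pk ih.1 ih.2 k
    have e : (1 - (L.length : ℤ)) - 1 = 1 - ((k :: L).length : ℤ) := by
      rw [List.length_cons]
      push_cast
      ring
    rw [e] at h
    exact h

theorem DESC_euler {n : ℕ} {g : (Fin n → ℝ) → ℝ} {m : ℤ} (hg : Smo g) (hm : HomD m g)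
    (hm0 : m ≠ 0) (h0 : ∀ j, ∀ y, y ≠ 0 → pk j g y = 0) : ∀ y, y ≠ 0 → g y = 0 := by
  intro y hy
  have h1 : fderiv ℝ g y y = 0 := by
    have h2 : y = ∑ j, y j • (Pi.single j (1 : ℝ) : Fin n → ℝ) := by
      funext i
      rw [Finset.sum_apply]
      simp [Pi.single_apply]
    have h3 : fderiv ℝ g y (∑ j, y j • (Pi.single j (1 : ℝ) : Fin n → ℝ)) = 0 := by
      rw [map_sum]
      refine Finset.sum_eq_zero fun j _ => ?_
      rw [map_smul, show fderiv ℝ g y (Pi.single j (1 : ℝ)) = 0 from h0 j y hy, smul_zero]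
    rw [← h2] at h3
    exact h3
  have h4 : HasDerivAt (fun t : ℝ => g (t • y)) (fderiv ℝ g y y) 1 := by
    have h5 : HasDerivAt (fun t : ℝ => t • y) y 1 := by
      simpa using (hasDerivAt_id (1 : ℝ)).smul_const y
    have h6 : HasFDerivAt g (fderiv ℝ g y) ((1 : ℝ) • y) := by
      rw [one_smul]
      exact ((hg y hy).differentiableAt (by simp)).hasFDerivAt
    exact HasFDerivAt.comp_hasDerivAt (1 : ℝ) h6 h5
  have h7 : HasDerivAt (fun t : ℝ => t ^ m * g y) ((m : ℝ) * 1 ^ (m - 1) * g y) 1 :=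
    (hasDerivAt_zpow m (1 : ℝ) (Or.inl one_ne_zero)).mul_const (g y)
  have h8 : (fun t : ℝ => g (t • y)) =ᶠ[𝓝 1] fun t => t ^ m * g y := by
    filter_upwards [lt_mem_nhds (zero_lt_one' ℝ)] with t ht
    exact hm y hy t ht
  have h9 := (h7.congr_of_eventuallyEq h8).unique h4
  rw [h1, one_zpow, mul_one] at h9
  rcases mul_eq_zero.1 h9 with h | h
  · exact absurd (by exact_mod_cast h) hm0
  · exact h

theorem t_DESC  : S_DESC := by
  intro n _ f hf h1 k hk
  induction k, hk using Nat.le_induction with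
  | base =>
    intro hP a b y hy
    exact hP [a, b] rfl y hy
  | succ k hk ih =>
    intro hP
    apply ih
    intro L hL
    obtain ⟨h2, h3⟩ := DESC_pks hf h1 L
    refine DESC_euler h2 h3 ?_ ?_
    · rw [hL]
      intro h
      have : (k : ℤ) = 1 := by linarith
      have : k = 1 := by exact_mod_cast this
      omega
    · intro j y hy
      exact hP (j :: L) (by rw [List.length_cons, hL]) y hy

end Pool.Agent.H792.KG
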