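import Pool.Agent.H792.KG.Defs

/-!
FOUR. Take Fourier transforms (transport to EuclideanSpace ℝ (Fin n), or VectorFourier): H_a(ξ) = 𝓕 h_a (ξ) is continuous (Riemann-Lebesgue part: continuity of the Fourier transform of
an integrable function) and 𝓕 (∂_j h_a)(ξ) = 2πi ξ_j H_a(ξ) (Real.fourier_fderiv or similar, needs h_a, fderiv h_a integrable; fderiv h_a integrable since all partial
derivatives are). So Σ_a H_a(ξ)(Om a k l ξ_j + Om a l j ξ_k + Om a j k ξ_l) = 0 for all ξ, j, k, l. Real and imaginary parts: at good ξ all H_a(ξ) = 0. Good ξ are dense and H_a is continuous: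
H_a = 0, hence h_a = 0 (Fourier inversion: MeasureTheory.Integrable.fourierInv_fourier_eq / Continuous.fourierInv_fourier_eq, h_a continuous).
-/

set_option autoImplicit false

open scoped BigOperators ContDiff Topology Matrix
open MeasureTheory

noncomputable section

namespace Pool.Agent.H792.KG

/-- the character -/
def FOUR_E {n : ℕ} (w x : Fin n → ℝ) : ℂ :=
  Complex.exp (((-2 * Real.pi * ∑ i, x i * w i : ℝ) : ℂ) * Complex.I)

lemma FOUR_E_norm {n : ℕ} (w x : Fin n → ℝ) : ‖FOUR_E w x‖ = 1 := Complex.norm_exp_ofReal_mul_I _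

lemma FOUR_E_cont {n : ℕ} : Continuous (fun p : (Fin n → ℝ) × (Fin n → ℝ) => FOUR_E p.1 p.2) := by
  unfold FOUR_E
  fun_prop

lemma FOUR_E_fderiv {n : ℕ} (w x : Fin n → ℝ) :
    DifferentiableAt ℝ (FOUR_E w) x ∧ ∀ j : Fin n, fderiv ℝ (FOUR_E w) x (Pi.single j (1 : ℝ)) =
      -(2 * Real.pi * Complex.I * w j) * FOUR_E w x := by
  set L : (Fin n → ℝ) →L[ℝ] ℝ :=
    (-2 * Real.pi) • ∑ i, w i • (ContinuousLinearMap.proj i : (Fin n → ℝ) →L[ℝ] ℝ) with hL
  have hLx : ∀ x : Fin n → ℝ, L x = -2 * Real.pi * ∑ i, x i * w i := by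
    intro x
    simp only [hL, ContinuousLinearMap.smul_apply, ContinuousLinearMap.sum_apply,
      ContinuousLinearMap.proj_apply, smul_eq_mul]
    congr 1
    exact Finset.sum_congr rfl fun i _ => mul_comm _ _
  have h1 : HasFDerivAt (fun y : Fin n → ℝ => ((L y : ℝ) : ℂ) * Complex.I)
      ((Complex.ofRealCLM.comp L).smulRight Complex.I) x :=
    ((Complex.ofRealCLM.comp L).smulRight Complex.I).hasFDerivAt
  have h2 := (Complex.hasDerivAt_exp (((L x : ℝ) : ℂ) * Complex.I)).comp_hasFDerivAt x h1
  have h3 : (Complex.exp ∘ fun y : Fin n → ℝ => ((L y : ℝ) : ℂ) * Complex.I) = FOUR_E w := by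
    funext y
    simp only [Function.comp, FOUR_E, hLx]
  rw [h3] at h2
  refine ⟨h2.differentiableAt, fun j => ?_⟩
  rw [h2.fderiv]
  have h4 : L (Pi.single j (1 : ℝ)) = -2 * Real.pi * w j := by
    rw [hLx]
    congr 1
    rw [Finset.sum_eq_single j]
    · simp
    · intro i _ hi
      simp [Pi.single_eq_of_ne hi]
    · simp
  have h5 : FOUR_E w x = Complex.exp (((L x : ℝ) : ℂ) * Complex.I) := by
    simp only [FOUR_E, hLx]
  rw [h5]
  simp only [ContinuousLinearMap.smul_apply, ContinuousLinearMap.smulRight_apply,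
    ContinuousLinearMap.comp_apply, Complex.ofRealCLM_apply, h4, smul_eq_mul]
  push_cast
  ring

/-- the Fourier transform -/
def FOUR_FT {n : ℕ} (h : (Fin n → ℝ) → ℝ) (w : Fin n → ℝ) : ℂ := ∫ x, FOUR_E w x * (h x : ℂ)

lemma FOUR_int {n : ℕ} {h : (Fin n → ℝ) → ℝ} (hc : Continuous h) (hi : Integrable h)
    (w : Fin n → ℝ) : Integrable (fun x => FOUR_E w x * (h x : ℂ)) := by
  refine hi.norm.mono' ?_ (Filter.Eventually.of_forall fun x => ?_)
  · apply Continuous.aestronglyMeasurable
    exact (FOUR_E_cont.comp (Continuous.prodMk_right w)).mul (Complex.continuous_ofReal.comp hc)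
  · rw [norm_mul, FOUR_E_norm, one_mul, Complex.norm_real]

lemma FOUR_FT_cont {n : ℕ} {h : (Fin n → ℝ) → ℝ} (hc : Continuous h) (hi : Integrable h) :
    Continuous (FOUR_FT h) := by
  unfold FOUR_FT
  apply continuous_of_dominated (bound := fun x => ‖h x‖)
  · exact fun w => (FOUR_int hc hi w).1
  · exact fun w => Filter.Eventually.of_forall fun x => by
      rw [norm_mul, FOUR_E_norm, one_mul, Complex.norm_real]
  · exact hi.norm
  · refine Filter.Eventually.of_forall fun x => ?_
    exact (FOUR_E_cont.comp (Continuous.prodMk_left x)).mul continuous_const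

lemma FOUR_FT_pk {n : ℕ} {h : (Fin n → ℝ) → ℝ} (hc : ContDiff ℝ 1 h) (hi : Integrable h)
    (j : Fin n) (hj : Integrable (pk j h)) (w : Fin n → ℝ) :
    FOUR_FT (pk j h) w = 2 * Real.pi * Complex.I * w j * FOUR_FT h w := by
  have hd : Differentiable ℝ h := hc.differentiable (by simp)
  have hpc : Continuous (pk j h) := by
    unfold pk
    exact (hc.continuous_fderiv (by simp)).clm_apply continuous_const
  have h1 : ∀ x, HasFDerivAt (fun y => ((h y : ℝ) : ℂ)) (Complex.ofRealCLM.comp (fderiv ℝ h x)) x :=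
    fun x => Complex.ofRealCLM.hasFDerivAt.comp x (hd x).hasFDerivAt
  have h2 : ∀ x, fderiv ℝ (fun y => ((h y : ℝ) : ℂ)) x (Pi.single j (1 : ℝ)) = ((pk j h x : ℝ) : ℂ) := by
    intro x
    rw [(h1 x).fderiv]
    rfl
  have h3 := integral_mul_fderiv_eq_neg_fderiv_mul_of_integrable (μ := (volume : Measure (Fin n → ℝ)))
    (f := FOUR_E w) (g := fun y => ((h y : ℝ) : ℂ)) (v := Pi.single j (1 : ℝ))
    (by
      simp only [(FOUR_E_fderiv w _).2 j]
      have := (FOUR_int hc.continuous hi w).const_mul (-(2 * Real.pi * Complex.I * w j))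
      refine this.congr (Filter.Eventually.of_forall fun x => ?_)
      simp only
      ring)
    (by
      simp only [h2]
      exact FOUR_int hpc hj w)
    (FOUR_int hc.continuous hi w)
    (fun x _ => (FOUR_E_fderiv w x).1)
    (fun x _ => (h1 x).differentiableAt)
  simp only [h2, (FOUR_E_fderiv w _).2 j] at h3
  unfold FOUR_FT
  rw [h3, ← integral_neg, ← integral_const_mul]
  congr 1
  funext x
  ring

lemma FOUR_inj {n : ℕ} {h : (Fin n → ℝ) → ℝ} (hc : Continuous h) (hi : Integrable h)
    (h0 : ∀ w, FOUR_FT h w = 0) (y : Fin n → ℝ) : h y = 0 := by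
  set g : EuclideanSpace ℝ (Fin n) → ℂ := fun x => ((h (WithLp.ofLp x) : ℝ) : ℂ) with hg
  have hmp := PiLp.volume_preserving_ofLp (Fin n)
  have hme : MeasurableEmbedding (WithLp.ofLp : EuclideanSpace ℝ (Fin n) → Fin n → ℝ) :=
    (MeasurableEquiv.toLp 2 (Fin n → ℝ)).symm.measurableEmbedding
  have hgc : Continuous g :=
    Complex.continuous_ofReal.comp (hc.comp (PiLp.continuous_ofLp 2 _))
  have hgi : Integrable g := by
    have h1 : Integrable (fun x => ((h x : ℝ) : ℂ)) := hi.ofReal
    exact (hmp.integrable_comp_emb hme).2 h1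
  have hF : FourierTransform.fourier g = fun _ => (0 : ℂ) := by
    funext w
    rw [Real.fourier_eq']
    have h1 := h0 (WithLp.ofLp w)
    unfold FOUR_FT at h1
    rw [← h1, ← hmp.integral_comp hme]
    congr 1
    funext v
    have h2 : inner ℝ v w = ∑ i, (WithLp.ofLp v) i * (WithLp.ofLp w) i := by
      rw [PiLp.inner_apply]
      refine Finset.sum_congr rfl fun i _ => ?_
      simp [mul_comm]
    simp only [FOUR_E, h2, hg, smul_eq_mul]
  have h3 := hgc.fourierInv_fourier_eq hgi (by rw [hF]; exact integrable_zero _ _ _)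
  rw [hF] at h3
  have h4 := congrFun h3 (WithLp.toLp 2 y)
  rw [Real.fourierInv_eq'] at h4
  simp only [smul_zero, integral_zero, hg] at h4
  exact_mod_cast h4.symm

theorem t_FOUR  : S_FOUR := by
  intro n r Om hgood h hC hI hP hsys
  have hc : ∀ a, Continuous (h a) := fun a => (hC a).continuous
  have hpc : ∀ a j, Continuous (pk j (h a)) := by
    intro a j
    unfold pk
    exact ((hC a).continuous_fderiv (by simp)).clm_apply continuous_const
  have hft : ∀ (w : Fin n → ℝ) (j k l : Fin n), ∑ a, FOUR_FT (h a) w *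
      ((Om a k l * w j + Om a l j * w k + Om a j k * w l : ℝ) : ℂ) = 0 := by
    intro w j k l
    have h1 : ∫ x, FOUR_E w x * ((∑ a, (Om a k l * pk j (h a) x + Om a l j * pk k (h a) x +
        Om a j k * pk l (h a) x) : ℝ) : ℂ) = 0 := by
      simp only [hsys]
      simp
    have h2 : ∀ x, FOUR_E w x * ((∑ a, (Om a k l * pk j (h a) x + Om a l j * pk k (h a) x +
        Om a j k * pk l (h a) x) : ℝ) : ℂ) = ∑ a, ((Om a k l : ℂ) * (FOUR_E w x * (pk j (h a) x : ℂ)) +
        (Om a l j : ℂ) * (FOUR_E w x * (pk k (h a) x : ℂ)) +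
        (Om a j k : ℂ) * (FOUR_E w x * (pk l (h a) x : ℂ))) := by
      intro x
      push_cast
      rw [Finset.mul_sum]
      exact Finset.sum_congr rfl fun a _ => by ring
    simp only [h2] at h1
    rw [integral_finset_sum] at h1
    · have h3 : ∀ a, ∫ x, ((Om a k l : ℂ) * (FOUR_E w x * (pk j (h a) x : ℂ)) +
        (Om a l j : ℂ) * (FOUR_E w x * (pk k (h a) x : ℂ)) +
        (Om a j k : ℂ) * (FOUR_E w x * (pk l (h a) x : ℂ))) = (2 * Real.pi * Complex.I) *
          (FOUR_FT (h a) w * ((Om a k l * w j + Om a l j * w k + Om a j k * w l : ℝ) : ℂ)) := by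
        intro a
        rw [integral_add, integral_add, integral_const_mul, integral_const_mul, integral_const_mul]
        · have e1 := FOUR_FT_pk (hC a) (hI a) j (hP a j) w
          have e2 := FOUR_FT_pk (hC a) (hI a) k (hP a k) w
          have e3 := FOUR_FT_pk (hC a) (hI a) l (hP a l) w
          rw [FOUR_FT] at e1 e2 e3
          rw [e1, e2, e3]
          push_cast
          ring
        · exact (FOUR_int (hpc a j) (hP a j) w).const_mul _
        · exact (FOUR_int (hpc a k) (hP a k) w).const_mul _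
        · exact ((FOUR_int (hpc a j) (hP a j) w).const_mul _).add
            ((FOUR_int (hpc a k) (hP a k) w).const_mul _)
        · exact (FOUR_int (hpc a l) (hP a l) w).const_mul _
      simp only [h3] at h1
      rw [← Finset.mul_sum] at h1
      rcases mul_eq_zero.1 h1 with h4 | h4
      · exfalso
        have : (2 * Real.pi * Complex.I : ℂ) ≠ 0 := by
          simp [Real.pi_ne_zero]
        exact this h4
      · exact h4
    · intro a _
      exact (((FOUR_int (hpc a j) (hP a j) w).const_mul _).add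
            ((FOUR_int (hpc a k) (hP a k) w).const_mul _)).add
            ((FOUR_int (hpc a l) (hP a l) w).const_mul _)
  have hg0 : ∀ w, Good Om w → ∀ a, FOUR_FT (h a) w = 0 := by
    intro w hw a
    have hre : (fun a => (FOUR_FT (h a) w).re) = 0 := by
      apply hw
      intro j k l
      have h1 := congrArg Complex.re (hft w j k l)
      rw [Complex.re_sum] at h1
      simp only [Complex.re_mul_ofReal, Complex.zero_re] at h1
      exact h1
    have him : (fun a => (FOUR_FT (h a) w).im) = 0 := by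
      apply hw
      intro j k l
      have h1 := congrArg Complex.im (hft w j k l)
      rw [Complex.im_sum] at h1
      simp only [Complex.im_mul_ofReal, Complex.zero_im] at h1
      exact h1
    apply Complex.ext
    · exact congrFun hre a
    · exact congrFun him a
  have hdense : Dense {w : Fin n → ℝ | Good Om w} := by
    rw [dense_iff_inter_open]
    intro U hU hne
    obtain ⟨ξ, hξ, hg⟩ := hgood U hU hne
    exact ⟨ξ, hξ, hg⟩
  intro a y
  apply FOUR_inj (hc a) (hI a)
  intro w
  have h5 : FOUR_FT (h a) = fun _ => (0 : ℂ) := by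
    apply Continuous.ext_on hdense (FOUR_FT_cont (hc a) (hI a)) continuous_const
    intro w hw
    exact hg0 w hw a
  rw [h5]

end Pool.Agent.H792.KG
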