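import Pool.Agent.H792.KG.Defs

/-!
GOOD. Density of good covectors.
-/

set_option autoImplicit false

open scoped BigOperators ContDiff Topology Matrix
open MeasureTheory

noncomputable section

namespace Pool.Agent.H792.KG

/-- EXG with a nonzero covector. -/
def S_EXG' : Prop := ∀ (V : Type) [AddCommGroup V] [Module ℝ V] [FiniteDimensional ℝ V]
  (O : Submodule ℝ (V →ₗ[ℝ] V →ₗ[ℝ] ℝ)), (∀ Ω ∈ O, ∀ v, Ω v v = 0) →
  Module.finrank ℝ O + 2 ≤ Module.finrank ℝ V →
  ∃ ξ : V →ₗ[ℝ] ℝ, ξ ≠ 0 ∧ ∀ Ω ∈ O, (∀ u v, ξ u = 0 → ξ v = 0 → Ω u v = 0) → Ω = 0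

/-- the bilinear form of a matrix -/
def GOOD_B {n : ℕ} (c : Fin n → Fin n → ℝ) : (Fin n → ℝ) →ₗ[ℝ] (Fin n → ℝ) →ₗ[ℝ] ℝ :=
  LinearMap.mk₂ ℝ (fun u v => ∑ k, ∑ l, c k l * (u k * v l))
    (by
      intro u u' v
      rw [← Finset.sum_add_distrib]
      refine Finset.sum_congr rfl fun k _ => ?_
      rw [← Finset.sum_add_distrib]
      refine Finset.sum_congr rfl fun l _ => ?_
      simp only [Pi.add_apply]; ring)
    (by
      intro t u v
      rw [Finset.smul_sum]
      refine Finset.sum_congr rfl fun k _ => ?_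
      rw [Finset.smul_sum]
      refine Finset.sum_congr rfl fun l _ => ?_
      simp only [Pi.smul_apply, smul_eq_mul]; ring)
    (by
      intro u v v'
      rw [← Finset.sum_add_distrib]
      refine Finset.sum_congr rfl fun k _ => ?_
      rw [← Finset.sum_add_distrib]
      refine Finset.sum_congr rfl fun l _ => ?_
      simp only [Pi.add_apply]; ring)
    (by
      intro t u v
      rw [Finset.smul_sum]
      refine Finset.sum_congr rfl fun k _ => ?_
      rw [Finset.smul_sum]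
      refine Finset.sum_congr rfl fun l _ => ?_
      simp only [Pi.smul_apply, smul_eq_mul]; ring)

theorem GOOD_B_apply {n : ℕ} (c : Fin n → Fin n → ℝ) (u v : Fin n → ℝ) :
    GOOD_B c u v = ∑ k, ∑ l, c k l * (u k * v l) := rfl

theorem GOOD_B_single {n : ℕ} (c : Fin n → Fin n → ℝ) (p q : Fin n) :
    GOOD_B c (Pi.single p 1) (Pi.single q 1) = c p q := by
  rw [GOOD_B_apply, Finset.sum_eq_single p, Finset.sum_eq_single q]
  · simp
  · intro l _ hl; simp [Pi.single_eq_of_ne hl]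
  · intro h; exact absurd (Finset.mem_univ q) h
  · intro k _ hk
    refine Finset.sum_eq_zero fun l _ => ?_
    simp [Pi.single_eq_of_ne hk]
  · intro h; exact absurd (Finset.mem_univ p) h

theorem GOOD_B_alt {n : ℕ} (c : Fin n → Fin n → ℝ) (hc : ∀ k l, c k l = - c l k) (v : Fin n → ℝ) :
    GOOD_B c v v = 0 := by
  have h1 : GOOD_B c v v = - GOOD_B c v v := by
    conv_lhs => rw [GOOD_B_apply, Finset.sum_comm]
    rw [GOOD_B_apply, ← Finset.sum_neg_distrib]
    refine Finset.sum_congr rfl fun l _ => ?_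
    rw [← Finset.sum_neg_distrib]
    refine Finset.sum_congr rfl fun k _ => ?_
    rw [hc k l]; ring
  linarith

theorem GOOD_B_sum {n r : ℕ} (Om : Fin r → Fin n → Fin n → ℝ) (z : Fin r → ℝ) :
    ∑ a, z a • GOOD_B (Om a) = GOOD_B (fun k l => ∑ a, z a * Om a k l) := by
  apply LinearMap.ext
  intro u
  apply LinearMap.ext
  intro v
  rw [LinearMap.sum_apply, LinearMap.sum_apply, GOOD_B_apply]
  simp only [LinearMap.smul_apply, GOOD_B_apply, smul_eq_mul]
  simp only [Finset.mul_sum, Finset.sum_mul]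
  rw [Finset.sum_comm]
  refine Finset.sum_congr rfl fun k _ => ?_
  rw [Finset.sum_comm]
  refine Finset.sum_congr rfl fun l _ => ?_
  refine Finset.sum_congr rfl fun a _ => ?_
  ring

theorem GOOD_lin {n : ℕ} (ξ : (Fin n → ℝ) →ₗ[ℝ] ℝ) (u : Fin n → ℝ) :
    ξ u = ∑ k, ξ (Pi.single k 1) * u k := by
  have h : u = ∑ k, u k • (Pi.single k (1 : ℝ) : Fin n → ℝ) := by
    funext i
    rw [Finset.sum_apply, Finset.sum_eq_single i]
    · simp
    · intro k _ hk
      simp [Pi.single_eq_of_ne (Ne.symm hk)]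
    · intro h; exact absurd (Finset.mem_univ i) h
  conv_lhs => rw [h]
  rw [map_sum]
  refine Finset.sum_congr rfl fun k _ => ?_
  rw [map_smul, smul_eq_mul, mul_comm]

/-- a good covector exists -/
theorem GOOD_exists (h_EXG : S_EXG') (n r : ℕ) (hr : r + 2 ≤ n) (Om : Fin r → Fin n → Fin n → ℝ)
    (hOm : ∀ a k l, Om a k l = - Om a l k) (hli : LinearIndependent ℝ Om) :
    ∃ ξ : Fin n → ℝ, Good Om ξ := by
  set O : Submodule ℝ ((Fin n → ℝ) →ₗ[ℝ] (Fin n → ℝ) →ₗ[ℝ] ℝ) :=
    Submodule.span ℝ (Set.range (fun a => GOOD_B (Om a))) with hO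
  have halt : ∀ Ω ∈ O, ∀ v, Ω v v = 0 := by
    intro Ω hΩ v
    induction hΩ using Submodule.span_induction with
    | mem x hx =>
      obtain ⟨a, rfl⟩ := hx
      exact GOOD_B_alt _ (hOm a) v
    | zero => simp
    | add x y _ _ hx hy => simp [hx, hy]
    | smul t x _ hx => simp [hx]
  have hdim : Module.finrank ℝ O + 2 ≤ Module.finrank ℝ (Fin n → ℝ) := by
    have h1 : (Set.range (fun a => GOOD_B (Om a))).finrank ℝ ≤ Fintype.card (Fin r) :=
      finrank_range_le_card _
    have h2 : Module.finrank ℝ O ≤ r := by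
      simpa [Set.finrank, hO] using h1
    rw [Module.finrank_fin_fun]
    omega
  obtain ⟨ξ, hξ0, hξ⟩ := h_EXG (Fin n → ℝ) O halt hdim
  refine ⟨fun j => ξ (Pi.single j 1), ?_⟩
  intro z hz
  set c : Fin n → Fin n → ℝ := fun k l => ∑ a, z a * Om a k l with hc
  have hcz : ∀ j k l, c k l * ξ (Pi.single j 1) + c l j * ξ (Pi.single k 1)
      + c j k * ξ (Pi.single l 1) = 0 := by
    intro j k l
    rw [← hz j k l]
    simp only [hc, Finset.sum_mul]
    rw [← Finset.sum_add_distrib, ← Finset.sum_add_distrib]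
    refine Finset.sum_congr rfl fun a _ => ?_
    ring
  have hmem : GOOD_B c ∈ O := by
    rw [hc, ← GOOD_B_sum]
    refine Submodule.sum_mem _ fun a _ => Submodule.smul_mem _ _ ?_
    exact Submodule.subset_span ⟨a, rfl⟩
  obtain ⟨j0, hj0⟩ : ∃ j, ξ (Pi.single j 1) ≠ 0 := by
    by_contra hcon
    push Not at hcon
    apply hξ0
    apply LinearMap.ext
    intro u
    rw [GOOD_lin ξ u]
    simp [hcon]
  have hΩ : GOOD_B c = 0 := by
    apply hξ _ hmem
    intro u v hu hv
    rw [GOOD_lin] at hu hv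
    have h1 : ξ (Pi.single j0 1) * GOOD_B c u v
        = - ((∑ k, ξ (Pi.single k 1) * u k) * (∑ l, c l j0 * v l)
          + (∑ k, c j0 k * u k) * (∑ l, ξ (Pi.single l 1) * v l)) := by
      rw [GOOD_B_apply, Finset.sum_mul_sum, Finset.sum_mul_sum, ← Finset.sum_add_distrib,
        ← Finset.sum_neg_distrib, Finset.mul_sum]
      refine Finset.sum_congr rfl fun k _ => ?_
      rw [← Finset.sum_add_distrib, ← Finset.sum_neg_distrib, Finset.mul_sum]
      refine Finset.sum_congr rfl fun l _ => ?_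
      have := hcz j0 k l
      linear_combination (u k * v l) * this
    rw [hu, hv] at h1
    have h2 : ξ (Pi.single j0 1) * GOOD_B c u v = 0 := by
      rw [h1]; ring
    rcases mul_eq_zero.mp h2 with h | h
    · exact absurd h hj0
    · exact h
  have hc0 : ∀ k l, c k l = 0 := by
    intro k l
    rw [← GOOD_B_single c k l, hΩ]
    simp
  rw [Fintype.linearIndependent_iff] at hli
  funext a
  refine hli z ?_ a
  funext k l
  have := hc0 k l
  simp only [hc] at this
  simpa [Finset.sum_apply, Pi.smul_apply, smul_eq_mul] using this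

/-- the map `z ↦ ξ ∧ ∑ z_a Om_a` -/
def GOOD_M {n r : ℕ} (Om : Fin r → Fin n → Fin n → ℝ) (ξ : Fin n → ℝ) :
    (Fin r → ℝ) →ₗ[ℝ] (Fin n → Fin n → Fin n → ℝ) where
  toFun z := fun j k l => ∑ a, z a * (Om a k l * ξ j + Om a l j * ξ k + Om a j k * ξ l)
  map_add' := by
    intro z w
    funext j k l
    simp only [Pi.add_apply]
    rw [← Finset.sum_add_distrib]
    refine Finset.sum_congr rfl fun a _ => ?_
    ring
  map_smul' := by
    intro t z
    funext j k l
    simp only [Pi.smul_apply, smul_eq_mul, RingHom.id_apply]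
    rw [Finset.mul_sum]
    refine Finset.sum_congr rfl fun a _ => ?_
    ring

theorem GOOD_M_apply {n r : ℕ} (Om : Fin r → Fin n → Fin n → ℝ) (ξ : Fin n → ℝ) (z : Fin r → ℝ)
    (j k l : Fin n) : GOOD_M Om ξ z j k l
      = ∑ a, z a * (Om a k l * ξ j + Om a l j * ξ k + Om a j k * ξ l) := rfl

theorem GOOD_M_add {n r : ℕ} (Om : Fin r → Fin n → Fin n → ℝ) (ξ η : Fin n → ℝ) (t : ℝ)
    (z : Fin r → ℝ) : GOOD_M Om (ξ + t • η) z = GOOD_M Om ξ z + t • GOOD_M Om η z := by
  funext j k l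
  simp only [Pi.add_apply, Pi.smul_apply, smul_eq_mul, GOOD_M_apply]
  rw [Finset.mul_sum, ← Finset.sum_add_distrib]
  refine Finset.sum_congr rfl fun a _ => ?_
  ring

theorem t_GOOD' (h_EXG : S_EXG') : S_GOOD := by
  intro n r hr Om hOm hli U hU hUne
  obtain ⟨ξ0, hξ0⟩ := GOOD_exists h_EXG n r hr Om hOm hli
  obtain ⟨ξ1, hξ1⟩ := hUne
  have hinj : LinearMap.ker (GOOD_M Om ξ0) = ⊥ := by
    rw [LinearMap.ker_eq_bot']
    intro z hz
    apply hξ0 z
    intro j k l
    rw [← GOOD_M_apply, hz]; rfl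
  obtain ⟨N, hN⟩ := LinearMap.exists_leftInverse_of_injective _ hinj
  set A : Module.End ℝ (Fin r → ℝ) := N ∘ₗ GOOD_M Om ξ1 with hA
  have hfin : Set.Finite {t : ℝ | A.HasEigenvalue t} := Module.End.finite_hasEigenvalue A
  have hfin2 : Set.Finite {t : ℝ | A.HasEigenvalue (-t)} := by
    have := hfin.preimage (f := fun t : ℝ => -t) (by intro a _ b _ h; simpa using h)
    simpa using this
  have hcont : Continuous (fun t : ℝ => ξ1 + t • ξ0) := by fun_prop
  have hopen : IsOpen {t : ℝ | ξ1 + t • ξ0 ∈ U} := hU.preimage hcont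
  have hmem0 : (0 : ℝ) ∈ {t : ℝ | ξ1 + t • ξ0 ∈ U} := by simpa using hξ1
  have hinf : Set.Infinite {t : ℝ | ξ1 + t • ξ0 ∈ U} :=
    infinite_of_mem_nhds 0 (hopen.mem_nhds hmem0)
  obtain ⟨t, htU, ht⟩ := (hinf.sdiff hfin2).nonempty
  refine ⟨ξ1 + t • ξ0, htU, ?_⟩
  intro z hz
  by_contra hz0
  apply ht
  have h1 : GOOD_M Om (ξ1 + t • ξ0) z = 0 := by
    funext j k l
    exact hz j k l
  rw [GOOD_M_add] at h1
  have h2 : A z + t • z = 0 := by
    have h3 : N (GOOD_M Om ξ1 z + t • GOOD_M Om ξ0 z) = 0 := by rw [h1, map_zero]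
    rw [map_add, map_smul] at h3
    have h4 : N (GOOD_M Om ξ0 z) = z := by
      have := LinearMap.congr_fun hN z
      simpa using this
    rw [h4] at h3
    exact h3
  have h5 : A z = (-t) • z := by
    rw [neg_smul]; exact eq_neg_of_add_eq_zero_left h2
  exact Module.End.hasEigenvalue_of_hasEigenvector ⟨Module.End.mem_eigenspace_iff.mpr h5, hz0⟩

end Pool.Agent.H792.KG
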