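import Pool.Agent.H792.KG.Defs

/-!
INT. `pks L (mol ρ f)` is integrable for `L.length ≥ n + 2`: `f` is cut into a continuous function
with compact support and a smooth function; for the second one the derivatives fall on the
function, and are bounded by `C (1 + ‖y‖) ^ (1 - L.length)`. (`S_MOL` is not used.)
-/

set_option autoImplicit false

open scoped BigOperators ContDiff Topology Matrix
open MeasureTheory

noncomputable section

namespace Pool.Agent.H792.KG

/-- the partial derivative of a smooth function is smooth -/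
theorem INT_pk_smooth {n : ℕ} (k : Fin n) {g : (Fin n → ℝ) → ℝ} (hg : ContDiff ℝ ∞ g) :
    ContDiff ℝ ∞ (pk k g) := by
  have h1 : ContDiff ℝ ∞ (fderiv ℝ g) := hg.fderiv_right (m := ∞) (by norm_num)
  exact h1.clm_apply contDiff_const

theorem INT_pks_smooth {n : ℕ} (L : List (Fin n)) {g : (Fin n → ℝ) → ℝ} (hg : ContDiff ℝ ∞ g) :
    ContDiff ℝ ∞ (pks L g) := by
  induction L with
  | nil => exact hg
  | cons k L ih => exact INT_pk_smooth k ih

theorem INT_pk_add {n : ℕ} (k : Fin n) {g h : (Fin n → ℝ) → ℝ} (hg : ContDiff ℝ ∞ g)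
    (hh : ContDiff ℝ ∞ h) : pk k (g + h) = pk k g + pk k h := by
  funext y
  simp only [pk, Pi.add_apply]
  rw [fderiv_add (hg.differentiable (by norm_num) y) (hh.differentiable (by norm_num) y)]
  rfl

theorem INT_pks_add {n : ℕ} (L : List (Fin n)) {g h : (Fin n → ℝ) → ℝ} (hg : ContDiff ℝ ∞ g)
    (hh : ContDiff ℝ ∞ h) : pks L (g + h) = pks L g + pks L h := by
  induction L with
  | nil => rfl
  | cons k L ih =>
    simp only [pks]
    rw [ih, INT_pk_add k (INT_pks_smooth L hg) (INT_pks_smooth L hh)]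

theorem INT_pk_supp {n : ℕ} (k : Fin n) {g : (Fin n → ℝ) → ℝ} (hg : HasCompactSupport g) :
    HasCompactSupport (pk k g) := by
  have := hg.fderiv (𝕜 := ℝ)
  exact this.comp_left (g := fun A : (Fin n → ℝ) →L[ℝ] ℝ => A (Pi.single k (1 : ℝ))) (by simp)

theorem INT_pks_supp {n : ℕ} (L : List (Fin n)) {g : (Fin n → ℝ) → ℝ} (hg : HasCompactSupport g) :
    HasCompactSupport (pks L g) := by
  induction L with
  | nil => exact hg
  | cons k L ih => exact INT_pk_supp k ih

/-- locality -/
theorem INT_pks_congr {n : ℕ} (L : List (Fin n)) {g h : (Fin n → ℝ) → ℝ} {U : Set (Fin n → ℝ)}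
    (hU : IsOpen U) (hgh : ∀ y ∈ U, g y = h y) : ∀ y ∈ U, pks L g y = pks L h y := by
  induction L with
  | nil => exact hgh
  | cons k L ih =>
    intro y hy
    simp only [pks, pk]
    have : (pks L g) =ᶠ[𝓝 y] (pks L h) := by
      filter_upwards [hU.mem_nhds hy] with z hz using ih z hz
    rw [this.fderiv_eq]

/-- derivative of a homogeneous function, smooth off the origin -/
theorem INT_smo_pk {n : ℕ} (k : Fin n) {g : (Fin n → ℝ) → ℝ} (hg : Smo g) : Smo (pk k g) := by
  intro y hy
  have h1 : ContDiffAt ℝ ∞ (fderiv ℝ g) y := (hg y hy).fderiv_right (m := ∞) (by norm_num)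
  exact h1.clm_apply contDiffAt_const

theorem INT_hom_pk {n : ℕ} (k : Fin n) {m : ℤ} {g : (Fin n → ℝ) → ℝ} (hg : Smo g)
    (hm : HomD m g) : HomD (m - 1) (pk k g) := by
  intro y hy t ht
  have hty : t • y ≠ 0 := smul_ne_zero ht.ne' hy
  have hd1 : HasFDerivAt g (fderiv ℝ g (t • y)) (t • y) :=
    ((hg _ hty).differentiableAt (by norm_num)).hasFDerivAt
  have hd2 : HasFDerivAt g (fderiv ℝ g y) y :=
    ((hg _ hy).differentiableAt (by norm_num)).hasFDerivAt
  have hc : HasFDerivAt (fun z : Fin n → ℝ => g (t • z))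
      ((fderiv ℝ g (t • y)).comp (t • ContinuousLinearMap.id ℝ (Fin n → ℝ))) y := by
    have hs : HasFDerivAt (fun z : Fin n → ℝ => t • z)
        (t • ContinuousLinearMap.id ℝ (Fin n → ℝ)) y := (hasFDerivAt_id y).const_smul t
    exact HasFDerivAt.comp y (g := g) (f := fun z : Fin n → ℝ => t • z) hd1 hs
  have he : (fun z : Fin n → ℝ => g (t • z)) =ᶠ[𝓝 y] fun z => t ^ m * g z := by
    filter_upwards [isOpen_ne.mem_nhds hy] with z hz using hm z hz t ht
  have hc2 : HasFDerivAt (fun z : Fin n → ℝ => t ^ m * g z) (t ^ m • fderiv ℝ g y) y :=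
    hd2.const_mul (t ^ m)
  have hc3 := hc2.congr_of_eventuallyEq he
  have := hc.unique hc3
  have h2 := congrArg (fun A : (Fin n → ℝ) →L[ℝ] ℝ => A (Pi.single k (1 : ℝ))) this
  simp only [ContinuousLinearMap.comp_apply, smul_apply,
    ContinuousLinearMap.id_apply, map_smul, smul_eq_mul] at h2
  simp only [pk]
  rw [zpow_sub_one₀ ht.ne']
  field_simp
  linarith

theorem INT_smo_pks {n : ℕ} (L : List (Fin n)) {g : (Fin n → ℝ) → ℝ} (hg : Smo g) :
    Smo (pks L g) := by
  induction L with
  | nil => exact hg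
  | cons k L ih => exact INT_smo_pk k ih

theorem INT_hom_pks {n : ℕ} (L : List (Fin n)) {m : ℤ} {g : (Fin n → ℝ) → ℝ} (hg : Smo g)
    (hm : HomD m g) : HomD (m - L.length) (pks L g) := by
  induction L with
  | nil =>
    have e : m - (([] : List (Fin n)).length : ℤ) = m := by simp
    rw [e]
    exact hm
  | cons k L ih =>
    have := INT_hom_pk k (INT_smo_pks L hg) ih
    have e : m - ((k :: L).length : ℤ) = m - (L.length : ℤ) - 1 := by
      simp; ring
    rw [e]
    exact this

/-- derivatives fall on the smooth factor -/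
theorem INT_pk_mol {n : ℕ} (k : Fin n) {ρ g : (Fin n → ℝ) → ℝ} (hρ : Test ρ)
    (hg : ContDiff ℝ ∞ g) : pk k (mol ρ g) = mol ρ (pk k g) := by
  funext y
  have e1 : ∀ h : (Fin n → ℝ) → ℝ, mol ρ h = fun x => ∫ w, ρ w * h (x - w) := by
    intro h
    funext x
    have := integral_sub_left_eq_self (fun z => ρ (x - z) * h z) volume x
    simp only [sub_sub_cancel] at this
    exact this.symm
  obtain ⟨R, hR⟩ : ∃ R : ℝ, tsupport ρ ⊆ Metric.closedBall 0 R := hρ.2.isBounded.subset_closedBall 0
  -- bound for the derivative of g on a ball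
  have hgd : Continuous (fderiv ℝ g) := (hg.continuous_fderiv (by norm_num))
  obtain ⟨M, hM⟩ : ∃ M : ℝ, ∀ z ∈ Metric.closedBall y (R + 1), ‖fderiv ℝ g z‖ ≤ M := by
    have hc : IsCompact (Metric.closedBall y (R + 1)) := isCompact_closedBall _ _
    obtain ⟨M, hM⟩ := (hc.image hgd.norm).bddAbove
    exact ⟨M, fun z hz => hM ⟨z, hz, rfl⟩⟩
  have hρi : Integrable ρ := hρ.1.continuous.integrable_of_hasCompactSupport hρ.2
  have hcont : ∀ x, Continuous (fun w => ρ w * g (x - w)) := fun x =>
    hρ.1.continuous.mul (hg.continuous.comp (continuous_const.sub continuous_id))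
  have key : HasFDerivAt (fun x => ∫ w, ρ w * g (x - w)) (∫ w, ρ w • fderiv ℝ g (y - w)) y := by
    refine hasFDerivAt_integral_of_dominated_of_fderiv_le (s := Metric.ball y 1)
      (bound := fun w => |ρ w| * M) (F' := fun x w => ρ w • fderiv ℝ g (x - w))
      (Metric.ball_mem_nhds y one_pos) ?_ ?_ ?_ ?_ ?_ ?_
    · exact Filter.Eventually.of_forall fun x => (hcont x).aestronglyMeasurable
    · exact (hcont y).integrable_of_hasCompactSupport (hρ.2.mul_right)
    · exact (hρ.1.continuous.smul (hgd.comp (continuous_const.sub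
        continuous_id))).aestronglyMeasurable
    · refine Filter.Eventually.of_forall fun w x hx => ?_
      by_cases hw : w ∈ tsupport ρ
      · rw [norm_smul, Real.norm_eq_abs]
        refine mul_le_mul_of_nonneg_left (hM _ ?_) (abs_nonneg _)
        have h1 := hR hw
        rw [Metric.mem_closedBall, dist_zero_right] at h1
        rw [Metric.mem_ball] at hx
        rw [Metric.mem_closedBall]
        calc dist (x - w) y ≤ dist (x - w) x + dist x y := dist_triangle _ _ _
          _ = ‖w‖ + dist x y := by rw [dist_eq_norm]; congr 1; rw [sub_sub_cancel_left, norm_neg]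
          _ ≤ R + 1 := by linarith
      · have h0 : ρ w = 0 := image_eq_zero_of_notMem_tsupport hw
        simp [h0]
    · exact hρi.abs.mul_const M
    · refine Filter.Eventually.of_forall fun w x hx => ?_
      have h1 : HasFDerivAt g (fderiv ℝ g (x - w)) (x - w) :=
        (hg.differentiable (by norm_num) _).hasFDerivAt
      have h2 : HasFDerivAt (fun x => g (x - w)) (fderiv ℝ g (x - w)) x := by
        have := HasFDerivAt.comp x (g := g) (f := fun x : Fin n → ℝ => x - w) h1
          ((hasFDerivAt_id x).sub_const w)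
        rw [ContinuousLinearMap.comp_id] at this
        exact this
      exact h2.const_mul (ρ w)
  have hint : Integrable (fun w => ρ w • fderiv ℝ g (y - w)) := by
    refine Continuous.integrable_of_hasCompactSupport
      (hρ.1.continuous.smul (hgd.comp (continuous_const.sub continuous_id))) ?_
    exact hρ.2.smul_right
  show fderiv ℝ (mol ρ g) y (Pi.single k (1 : ℝ)) = mol ρ (pk k g) y
  rw [e1 g, e1 (pk k g), key.fderiv]
  rw [ContinuousLinearMap.integral_apply hint]
  rfl

theorem INT_pks_mol {n : ℕ} (L : List (Fin n)) {ρ g : (Fin n → ℝ) → ℝ} (hρ : Test ρ)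
    (hg : ContDiff ℝ ∞ g) : pks L (mol ρ g) = mol ρ (pks L g) := by
  induction L with
  | nil => rfl
  | cons k L ih =>
    simp only [pks]
    rw [ih, INT_pk_mol k hρ (INT_pks_smooth L hg)]

/-- the convolution of a locally integrable function is smooth -/
theorem INT_mol_smooth {n : ℕ} {ρ g : (Fin n → ℝ) → ℝ} (hρ : Test ρ)
    (hg : Continuous g) : ContDiff ℝ ∞ (mol ρ g) := by
  have h := hρ.2.contDiff_convolution_right (ContinuousLinearMap.mul ℝ ℝ)
    (hg.locallyIntegrable (μ := volume)) hρ.1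
  have e : mol ρ g = MeasureTheory.convolution g ρ (ContinuousLinearMap.mul ℝ ℝ) volume := by
    funext y
    simp only [mol, MeasureTheory.convolution, ContinuousLinearMap.mul_apply']
    refine integral_congr_ae (Filter.Eventually.of_forall fun z => ?_)
    simp only []
    ring
  rw [e]
  exact h

theorem INT_mol_supp {n : ℕ} {ρ g : (Fin n → ℝ) → ℝ} (hρ : Test ρ)
    (hg : HasCompactSupport g) : HasCompactSupport (mol ρ g) := by
  have h := HasCompactSupport.convolution (μ := volume) (ContinuousLinearMap.mul ℝ ℝ) hg hρ.2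
  have e : mol ρ g = MeasureTheory.convolution g ρ (ContinuousLinearMap.mul ℝ ℝ) volume := by
    funext y
    simp only [mol, MeasureTheory.convolution, ContinuousLinearMap.mul_apply']
    refine integral_congr_ae (Filter.Eventually.of_forall fun z => ?_)
    simp only []
    ring
  rw [e]
  exact h

theorem INT_mol_int {n : ℕ} {ρ g : (Fin n → ℝ) → ℝ} (hρ : Test ρ)
    (hg : Integrable g) : Integrable (mol ρ g) := by
  have hρi : Integrable ρ := hρ.1.continuous.integrable_of_hasCompactSupport hρ.2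
  have h := hg.integrable_convolution (ContinuousLinearMap.mul ℝ ℝ) hρi
  have e : mol ρ g = MeasureTheory.convolution g ρ (ContinuousLinearMap.mul ℝ ℝ) volume := by
    funext y
    simp only [mol, MeasureTheory.convolution, ContinuousLinearMap.mul_apply']
    refine integral_congr_ae (Filter.Eventually.of_forall fun z => ?_)
    simp only []
    ring
  rw [e]
  exact h

/-- a continuous function which is homogeneous of degree `m < -n` outside a ball is integrable -/
theorem INT_decay {n : ℕ} (hn : 1 ≤ n) (k : ℕ) (hk : n + 2 ≤ k) {h p : (Fin n → ℝ) → ℝ}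
    (hh : Continuous h) (hp : Smo p) (hm : HomD (1 - (k : ℤ)) p) (R : ℝ)
    (hR : ∀ y, R < ‖y‖ → h y = p y) : Integrable h := by
  have : Nonempty (Fin n) := ⟨⟨0, hn⟩⟩
  have : Nontrivial (Fin n → ℝ) := inferInstance
  -- bound of p on the unit sphere
  obtain ⟨C, hC⟩ : ∃ C : ℝ, ∀ y ∈ Metric.sphere (0 : Fin n → ℝ) 1, |p y| ≤ C := by
    have hc : IsCompact (Metric.sphere (0 : Fin n → ℝ) 1) := isCompact_sphere _ _
    have hcont : ContinuousOn (fun y => |p y|) (Metric.sphere (0 : Fin n → ℝ) 1) := by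
      intro y hy
      have hy0 : y ≠ 0 := by
        rintro rfl
        simp at hy
      exact ((hp y hy0).continuousAt.abs).continuousWithinAt
    obtain ⟨C, hC⟩ := (hc.image_of_continuousOn hcont).bddAbove
    exact ⟨C, fun z hz => hC ⟨z, hz, rfl⟩⟩
  set r : ℝ := (k : ℝ) - 1 with hr
  have hrn : (Module.finrank ℝ (Fin n → ℝ) : ℝ) < r := by
    rw [Module.finrank_fin_fun, hr]
    have : ((n + 2 : ℕ) : ℝ) ≤ (k : ℝ) := by exact_mod_cast hk
    push_cast at this
    linarith
  have hint := integrable_one_add_norm (E := Fin n → ℝ) (μ := volume) hrn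
  set R₁ : ℝ := max R 1 with hR₁
  obtain ⟨M, hM⟩ : ∃ M : ℝ, ∀ z ∈ Metric.closedBall (0 : Fin n → ℝ) R₁, |h z| ≤ M := by
    have hc : IsCompact (Metric.closedBall (0 : Fin n → ℝ) R₁) := isCompact_closedBall _ _
    obtain ⟨M, hM⟩ := (hc.image hh.abs).bddAbove
    exact ⟨M, fun z hz => hM ⟨z, hz, rfl⟩⟩
  have hR1 : 1 ≤ R₁ := le_max_right _ _
  have hC0 : 0 ≤ C := by
    obtain ⟨y, hy⟩ : ∃ y : Fin n → ℝ, y ≠ 0 := exists_ne 0
    have := hC (‖y‖⁻¹ • y) (by
      rw [mem_sphere_zero_iff_norm, norm_smul, norm_inv, norm_norm,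
        inv_mul_cancel₀ (norm_ne_zero_iff.2 hy)])
    exact (abs_nonneg _).trans this
  have hM0 : 0 ≤ M := (abs_nonneg _).trans (hM 0 (Metric.mem_closedBall_self (by linarith)))
  have hr0 : 0 < r := lt_of_le_of_lt (by positivity) hrn
  refine Integrable.mono' (hint.const_mul (M * (1 + R₁) ^ r + C * 2 ^ r))
    hh.aestronglyMeasurable (Filter.Eventually.of_forall fun z => ?_)
  rw [Real.norm_eq_abs]
  have hz1 : 0 < 1 + ‖z‖ := by positivity
  have hneg : 0 < (1 + ‖z‖) ^ (-r) := Real.rpow_pos_of_pos hz1 _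
  by_cases hz : ‖z‖ ≤ R₁
  · have h1 : |h z| ≤ M := hM z (by simpa [mem_closedBall_zero_iff] using hz)
    have h2 : 1 ≤ (1 + R₁) ^ r * (1 + ‖z‖) ^ (-r) := by
      rw [Real.rpow_neg hz1.le, ← div_eq_mul_inv, one_le_div (Real.rpow_pos_of_pos hz1 _)]
      exact Real.rpow_le_rpow hz1.le (by linarith) hr0.le
    have h3 : 0 ≤ C * 2 ^ r * (1 + ‖z‖) ^ (-r) := by positivity
    calc |h z| ≤ M * 1 := by linarith
      _ ≤ M * ((1 + R₁) ^ r * (1 + ‖z‖) ^ (-r)) := mul_le_mul_of_nonneg_left h2 hM0
      _ ≤ (M * (1 + R₁) ^ r + C * 2 ^ r) * (1 + ‖z‖) ^ (-r) := by nlinarith [h3]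
  · push Not at hz
    have hzR : R < ‖z‖ := lt_of_le_of_lt (le_max_left _ _) hz
    have hz1' : 1 ≤ ‖z‖ := hR1.trans hz.le
    have hz0 : 0 < ‖z‖ := by linarith
    have hzne : z ≠ 0 := norm_pos_iff.1 hz0
    rw [hR z hzR]
    have e1 : p z = ‖z‖ ^ (1 - (k : ℤ)) * p (‖z‖⁻¹ • z) := by
      have := hm (‖z‖⁻¹ • z) (smul_ne_zero (inv_ne_zero hz0.ne') hzne) ‖z‖ hz0
      rw [smul_inv_smul₀ hz0.ne'] at this
      exact this
    have h1 : |p (‖z‖⁻¹ • z)| ≤ C := hC _ (by
      rw [mem_sphere_zero_iff_norm, norm_smul, norm_inv, norm_norm, inv_mul_cancel₀ hz0.ne'])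
    have e2 : ‖z‖ ^ (1 - (k : ℤ)) = ‖z‖ ^ (-r) := by
      rw [← Real.rpow_intCast, hr]
      push_cast
      congr 1
      ring
    have h2 : ‖z‖ ^ (-r) ≤ 2 ^ r * (1 + ‖z‖) ^ (-r) := by
      rw [Real.rpow_neg hz0.le, Real.rpow_neg hz1.le, ← div_eq_mul_inv,
        inv_eq_one_div, div_le_div_iff₀ (Real.rpow_pos_of_pos hz0 _) (Real.rpow_pos_of_pos hz1 _),
        one_mul, ← Real.mul_rpow (by norm_num) hz0.le]
      exact Real.rpow_le_rpow hz1.le (by linarith) hr0.le
    have h3 : 0 ≤ M * (1 + R₁) ^ r * (1 + ‖z‖) ^ (-r) := by positivity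
    calc |p z| = ‖z‖ ^ (-r) * |p (‖z‖⁻¹ • z)| := by
          rw [e1, abs_mul, e2, abs_of_pos (Real.rpow_pos_of_pos hz0 _)]
      _ ≤ (2 ^ r * (1 + ‖z‖) ^ (-r)) * C :=
          mul_le_mul h2 h1 (abs_nonneg _) (by positivity)
      _ ≤ (M * (1 + R₁) ^ r + C * 2 ^ r) * (1 + ‖z‖) ^ (-r) := by nlinarith [h3]

theorem t_INT (h_MOL : S_MOL) : S_INT := by
  intro n hn f hf hm ρ hρ L hL
  classical
  have : Nonempty (Fin n) := ⟨⟨0, hn⟩⟩
  have : Nontrivial (Fin n → ℝ) := inferInstance
  -- the value at the origin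
  set g : (Fin n → ℝ) → ℝ := fun y => if y = 0 then 0 else f y with hg
  have hgf : ∀ y, y ≠ 0 → g y = f y := fun y hy => by simp [hg, hy]
  have hmolg : mol ρ f = mol ρ g := by
    funext y
    refine integral_congr_ae ?_
    have hae : ∀ᵐ z : Fin n → ℝ, z ≠ 0 := by
      rw [ae_iff]; simp
    filter_upwards [hae] with z hz
    rw [hgf z hz]
  have hSg : Smo g := by
    intro y hy
    refine (hf y hy).congr_of_eventuallyEq ?_
    filter_upwards [isOpen_ne.mem_nhds hy] with z hz using hgf z hz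
  -- g is continuous
  obtain ⟨C, hC⟩ : ∃ C : ℝ, ∀ y ∈ Metric.sphere (0 : Fin n → ℝ) 1, |f y| ≤ C := by
    have hc : IsCompact (Metric.sphere (0 : Fin n → ℝ) 1) := isCompact_sphere _ _
    have hcont : ContinuousOn (fun y => |f y|) (Metric.sphere (0 : Fin n → ℝ) 1) := by
      intro y hy
      have hy0 : y ≠ 0 := by
        rintro rfl
        simp at hy
      exact ((hf y hy0).continuousAt.abs).continuousWithinAt
    obtain ⟨C, hC⟩ := (hc.image_of_continuousOn hcont).bddAbove
    exact ⟨C, fun z hz => hC ⟨z, hz, rfl⟩⟩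
  have hgb : ∀ y, |g y| ≤ C * ‖y‖ := by
    intro y
    by_cases hy : y = 0
    · simp [hg, hy]
    · have hy0 : 0 < ‖y‖ := norm_pos_iff.2 hy
      rw [hgf y hy]
      have e1 : f y = ‖y‖ ^ (1 : ℤ) * f (‖y‖⁻¹ • y) := by
        have := hm (‖y‖⁻¹ • y) (smul_ne_zero (inv_ne_zero hy0.ne') hy) ‖y‖ hy0
        rw [smul_inv_smul₀ hy0.ne'] at this
        exact this
      have h1 : |f (‖y‖⁻¹ • y)| ≤ C := hC _ (by
        rw [mem_sphere_zero_iff_norm, norm_smul, norm_inv, norm_norm, inv_mul_cancel₀ hy0.ne'])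
      rw [e1, abs_mul, zpow_one, abs_of_pos hy0]
      nlinarith
  have hgc : Continuous g := by
    rw [continuous_iff_continuousAt]
    intro y
    by_cases hy : y = 0
    · subst hy
      have h0 : g 0 = 0 := by simp [hg]
      rw [ContinuousAt, h0]
      refine squeeze_zero_norm (a := fun y => C * ‖y‖) (fun y => by
        rw [Real.norm_eq_abs]; exact hgb y) ?_
      have : Continuous (fun y : Fin n → ℝ => C * ‖y‖) := continuous_const.mul continuous_norm
      have h2 := this.tendsto 0
      simpa using h2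
    · exact (hSg y hy).continuousAt
  -- cut off
  let χ : ContDiffBump (0 : Fin n → ℝ) := ⟨1, 2, one_pos, by norm_num⟩
  have hχs : ContDiff ℝ ∞ (fun y => χ y) := χ.contDiff
  set g₁ : (Fin n → ℝ) → ℝ := fun y => χ y * g y with hg₁
  set g₂ : (Fin n → ℝ) → ℝ := fun y => (1 - χ y) * g y with hg₂
  have hg₁c : Continuous g₁ := hχs.continuous.mul hgc
  have hg₁s : HasCompactSupport g₁ := χ.hasCompactSupport.mul_right
  have hg₂s : ContDiff ℝ ∞ g₂ := by
    rw [contDiff_iff_contDiffAt]
    intro y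
    by_cases hy : y = 0
    · subst hy
      have : g₂ =ᶠ[𝓝 0] fun _ => 0 := by
        filter_upwards [Metric.ball_mem_nhds (0 : Fin n → ℝ) one_pos] with z hz
        have : χ z = 1 := χ.one_of_mem_closedBall (Metric.ball_subset_closedBall hz)
        simp [hg₂, this]
      exact contDiffAt_const.congr_of_eventuallyEq this
    · exact ((contDiff_const.sub hχs).contDiffAt).mul (hSg y hy)
  have hsum : mol ρ g = mol ρ g₁ + mol ρ g₂ := by
    funext y
    simp only [mol, Pi.add_apply]
    have hcs : HasCompactSupport (fun z => ρ (y - z)) :=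
      hρ.2.comp_homeomorph (Homeomorph.subLeft y)
    have hρc : Continuous (fun z => ρ (y - z)) :=
      hρ.1.continuous.comp (continuous_const.sub continuous_id)
    rw [← integral_add]
    · refine integral_congr_ae (Filter.Eventually.of_forall fun z => ?_)
      simp only [hg₁, hg₂]
      ring
    · exact (hρc.mul hg₁c).integrable_of_hasCompactSupport hcs.mul_right
    · exact (hρc.mul hg₂s.continuous).integrable_of_hasCompactSupport hcs.mul_right
  rw [hmolg, hsum, INT_pks_add L (INT_mol_smooth hρ hg₁c) (INT_mol_smooth hρ hg₂s.continuous)]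
  refine Integrable.add ?_ ?_
  · exact (INT_pks_smooth L (INT_mol_smooth hρ hg₁c)).continuous.integrable_of_hasCompactSupport
      (INT_pks_supp L (INT_mol_supp hρ hg₁s))
  · rw [INT_pks_mol L hρ hg₂s]
    refine INT_mol_int hρ ?_
    refine INT_decay hn L.length hL (INT_pks_smooth L hg₂s).continuous (INT_smo_pks L hf)
      (INT_hom_pks L hf hm) 2 ?_
    intro y hy
    have hU : IsOpen {z : Fin n → ℝ | 2 < ‖z‖} := isOpen_lt continuous_const continuous_norm
    refine INT_pks_congr L hU ?_ y hy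
    intro z hz
    have hz' : 2 < ‖z‖ := hz
    have hχ0 : χ z = 0 := χ.zero_of_le_dist (by rw [dist_zero_right]; exact hz'.le)
    have hz0 : z ≠ 0 := norm_pos_iff.1 (by linarith)
    simp [hg₂, hχ0, hgf z hz0]

end Pool.Agent.H792.KG
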