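import Pool.Agent.H792.KG.Defs

/-!
LIM. Let y₀ ≠ 0 and ρ a test function supported in the ball of radius ε < ‖y₀‖ with ρ ≥ 0, ∫ρ = 1 (ContDiffBump, normed). For y in a neighbourhood of y₀ ( ‖y‖ > ε ), pks L (mol ρ f) y = mol ρ (pks L f) y = ∫ ρ(z) (pks L f)(y - z) dz
(differentiate under the integral where everything is smooth; f may be replaced by a smooth function which equals f outside a small ball around 0: f̃ = χ f with χ smooth, χ = 0 near 0, χ = 1 away; then mol ρ f = mol ρ f̃ near y₀ and pks L (ρ ⋆ f̃) = ρ ⋆ pks L f̃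
by the convolution lemmas of Mathlib). So this integral is 0 for every such ρ; let ε → 0: pks L f y₀ = 0 by continuity (ContDiffBump.convolution_tendsto_right or: if pks L f y₀ > 0 then it is > 0 near y₀, contradiction for small ε).
-/

set_option autoImplicit false

open scoped BigOperators ContDiff Topology Matrix
open MeasureTheory

noncomputable section

namespace Pool.Agent.H792.KG

open Filter

/-- iterated partial derivatives are local -/
lemma LIM_pks_congr {n : ℕ} (L : List (Fin n)) {f g : (Fin n → ℝ) → ℝ} {y : Fin n → ℝ}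
    (h : f =ᶠ[𝓝 y] g) : pks L f =ᶠ[𝓝 y] pks L g := by
  induction L with
  | nil => exact h
  | cons k L ih =>
    have h1 := ih.fderiv (𝕜 := ℝ)
    filter_upwards [h1] with x hx
    show fderiv ℝ (pks L f) x _ = fderiv ℝ (pks L g) x _
    rw [hx]

lemma LIM_pk_smooth {n : ℕ} (k : Fin n) {g : (Fin n → ℝ) → ℝ} (hg : ContDiff ℝ ∞ g) :
    ContDiff ℝ ∞ (pk k g) := by
  have h1 : ContDiff ℝ ∞ (fderiv ℝ g) := hg.fderiv_right (by simp)
  exact h1.clm_apply contDiff_const

lemma LIM_pk_supp {n : ℕ} (k : Fin n) {g : (Fin n → ℝ) → ℝ} (hg : HasCompactSupport g) :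
    HasCompactSupport (pk k g) := by
  have h1 : HasCompactSupport (fderiv ℝ g) := hg.fderiv (𝕜 := ℝ)
  exact h1.comp_left (g := fun (A : (Fin n → ℝ) →L[ℝ] ℝ) => A (Pi.single k (1 : ℝ))) (by simp)

lemma LIM_pks_smooth {n : ℕ} (L : List (Fin n)) {g : (Fin n → ℝ) → ℝ} (hg : ContDiff ℝ ∞ g) :
    ContDiff ℝ ∞ (pks L g) := by
  induction L with
  | nil => exact hg
  | cons k L ih => exact LIM_pk_smooth k ih

lemma LIM_pks_supp {n : ℕ} (L : List (Fin n)) {g : (Fin n → ℝ) → ℝ} (hg : HasCompactSupport g) :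
    HasCompactSupport (pks L g) := by
  induction L with
  | nil => exact hg
  | cons k L ih => exact LIM_pk_supp k ih

/-- `mol` is a convolution -/
lemma LIM_mol_eq {n : ℕ} (ρ g : (Fin n → ℝ) → ℝ) :
    mol ρ g = (convolution ρ g (ContinuousLinearMap.lsmul ℝ ℝ) volume) := by
  funext y
  rw [convolution_eq_swap]
  rfl

/-- the derivative of a convolution falls on the second factor -/
lemma LIM_pk_mol {n : ℕ} (k : Fin n) {ρ g : (Fin n → ℝ) → ℝ} (hρ : Continuous ρ)
    (hg : ContDiff ℝ ∞ g) (hc : HasCompactSupport g) : pk k (mol ρ g) = mol ρ (pk k g) := by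
  have hl : LocallyIntegrable ρ (volume : Measure (Fin n → ℝ)) := hρ.locallyIntegrable
  funext y
  rw [LIM_mol_eq, LIM_mol_eq]
  have h1 := hc.hasFDerivAt_convolution_right (L := ContinuousLinearMap.lsmul ℝ ℝ) (μ := volume)
    hl (hg.of_le (by simp)) y
  show fderiv ℝ _ y _ = _
  rw [h1.fderiv]
  exact convolution_precompR_apply (L := ContinuousLinearMap.lsmul ℝ ℝ) hl (hc.fderiv (𝕜 := ℝ))
    (hg.continuous_fderiv (by simp)) y (Pi.single k (1 : ℝ))

lemma LIM_pks_mol {n : ℕ} (L : List (Fin n)) {ρ g : (Fin n → ℝ) → ℝ} (hρ : Continuous ρ)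
    (hg : ContDiff ℝ ∞ g) (hc : HasCompactSupport g) : pks L (mol ρ g) = mol ρ (pks L g) := by
  induction L with
  | nil => rfl
  | cons k L ih =>
    show pk k (pks L (mol ρ g)) = mol ρ (pk k (pks L g))
    rw [ih]
    exact LIM_pk_mol k hρ (LIM_pks_smooth L hg) (LIM_pks_supp L hc)

theorem t_LIM (h_MOL : S_MOL) : S_LIM := by
  intro n hn f hf hhom L hL y₀ hy₀
  -- the cut-off function
  have hy : 0 < ‖y₀‖ := norm_pos_iff.2 hy₀
  set r : ℝ := ‖y₀‖ / 4 with hr
  have hr0 : 0 < r := by positivity
  let b : ContDiffBump y₀ := ⟨r, 2 * r, hr0, by linarith⟩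
  let g : (Fin n → ℝ) → ℝ := fun z => b z * f z
  have hgs : ContDiff ℝ ∞ g := by
    rw [contDiff_iff_contDiffAt]
    intro x
    by_cases hx : x = 0
    · subst hx
      have h1 : g =ᶠ[𝓝 0] fun _ => (0 : ℝ) := by
        have h2 : ∀ᶠ z in 𝓝 (0 : Fin n → ℝ), dist z 0 < r := Metric.ball_mem_nhds _ hr0
        filter_upwards [h2] with z hz
        have h3 : b z = 0 := by
          apply b.zero_of_le_dist
          show 2 * r ≤ dist z y₀
          have h4 : dist 0 y₀ ≤ dist (0 : Fin n → ℝ) z + dist z y₀ := dist_triangle _ _ _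
          have h5 : dist (0 : Fin n → ℝ) y₀ = ‖y₀‖ := by rw [dist_zero_left]
          rw [dist_comm] at hz
          linarith
        show b z * f z = 0
        rw [h3, zero_mul]
      exact (contDiffAt_const (c := (0 : ℝ))).congr_of_eventuallyEq h1
    · exact (b.contDiff.contDiffAt).mul (hf x hx)
  have hgc : HasCompactSupport g := b.hasCompactSupport.mul_right
  have hgf : ∀ z, dist z y₀ < r → g z = f z := by
    intro z hz
    have : b z = 1 := b.one_of_mem_closedBall (by
      show dist z y₀ ≤ r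
      exact hz.le)
    show b z * f z = f z
    rw [this, one_mul]
  have hgf' : g =ᶠ[𝓝 y₀] f := by
    filter_upwards [Metric.ball_mem_nhds y₀ hr0] with z hz
    exact hgf z hz
  -- it suffices to consider `g`
  have hfg : pks L f y₀ = pks L g y₀ := ((LIM_pks_congr L hgf').eq_of_nhds).symm
  rw [hfg]
  -- convolutions with small bumps
  have hG : ContDiff ℝ ∞ (pks L g) := LIM_pks_smooth L hgs
  have hzero : ∀ φ : ContDiffBump (0 : Fin n → ℝ), φ.rOut < r / 2 →
      (convolution (φ.normed volume) (pks L g) (ContinuousLinearMap.lsmul ℝ ℝ) volume) y₀ = 0 := by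
    intro φ hφ
    have hT : Test (φ.normed volume) := ⟨φ.contDiff_normed, φ.hasCompactSupport_normed⟩
    have h1 := hL (φ.normed volume) hT y₀
    have h2 : mol (φ.normed volume) f =ᶠ[𝓝 y₀] mol (φ.normed volume) g := by
      filter_upwards [Metric.ball_mem_nhds y₀ (half_pos hr0)] with y hyy
      unfold mol
      congr 1
      funext z
      by_cases hz : φ.normed volume (y - z) = 0
      · rw [hz]; simp
      · have h3 : y - z ∈ Metric.ball (0 : Fin n → ℝ) φ.rOut := by
          rw [← φ.support_normed_eq (μ := volume)]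
          exact hz
        have h4 : dist z y₀ < r := by
          have h5 : dist z y = ‖y - z‖ := by rw [dist_comm, dist_eq_norm]
          rw [mem_ball_zero_iff] at h3
          have h6 : dist z y₀ ≤ dist z y + dist y y₀ := dist_triangle _ _ _
          have h7 : dist y y₀ < r / 2 := hyy
          linarith
        rw [hgf z h4]
    have h3 := (LIM_pks_congr L h2).eq_of_nhds
    rw [h1, LIM_pks_mol L hT.1.continuous hgs hgc, LIM_mol_eq] at h3
    exact h3.symm
  -- conclusion
  by_contra hne
  have hpos : 0 < |pks L g y₀| := abs_pos.2 hne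
  obtain ⟨δ, hδ, hδ'⟩ := Metric.continuousAt_iff.1 (hG.continuous.continuousAt (x := y₀))
    (|pks L g y₀| / 2) (half_pos hpos)
  set s := min δ (r / 2) / 2 with hs
  have hs0 : 0 < s := by
    have : 0 < min δ (r / 2) := lt_min hδ (half_pos hr0)
    linarith
  let φ : ContDiffBump (0 : Fin n → ℝ) := ⟨s / 2, s, by linarith, by linarith⟩
  have hsδ : s < δ := by
    have := min_le_left δ (r / 2)
    linarith
  have hsr : s < r / 2 := by
    have := min_le_right δ (r / 2)
    linarith
  have h1 := hzero φ hsr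
  have h2 : dist ((convolution (φ.normed volume) (pks L g) (ContinuousLinearMap.lsmul ℝ ℝ) volume) y₀)
      (pks L g y₀) ≤ |pks L g y₀| / 2 := by
    apply φ.dist_normed_convolution_le hG.continuous.aestronglyMeasurable
    intro x hx
    have hx' : dist x y₀ < s := hx
    exact (hδ' (by linarith)).le
  rw [h1, dist_zero_left, Real.norm_eq_abs] at h2
  linarith

end Pool.Agent.H792.KG
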