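import Pool.Agent.H792.KG.Defs

/-!
LIN. Fix a test function ρ and a list L with L.length ≥ n + 2. The function
h_a = pks L (mol ρ (f a)) = mol (pks L ρ) (f a) is smooth (MOL a), integrable (INT), and so are its
first partial derivatives (list j :: L). With ρ' = pks L ρ, MOL (c) for ρ' gives
Σ_a (Om a k l pk j h_a y + ...) = ∫ ρ'(y - z) c j k l dz = 0, because ρ' is a derivative of a test
function. FOUR: h_a = 0. LIM: pks L (f a) = 0 off 0 for all L with L.length = n + 2; DESC gives the
claim.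
-/

set_option autoImplicit false

open scoped BigOperators ContDiff Topology Matrix
open MeasureTheory

noncomputable section

namespace Pool.Agent.H792.KG

theorem LIN_pk_test {n : ℕ} {ρ : (Fin n → ℝ) → ℝ} (h : Test ρ) (k : Fin n) : Test (pk k ρ) := by
  refine ⟨?_, ?_⟩
  · exact (h.1.fderiv_right (m := ∞) (by simp)).clm_apply contDiff_const
  · exact h.2.fderiv_apply (𝕜 := ℝ) _

theorem LIN_pks_test {n : ℕ} {ρ : (Fin n → ℝ) → ℝ} (h : Test ρ) (L : List (Fin n)) :
    Test (pks L ρ) := by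
  induction L with
  | nil => exact h
  | cons k L ih => exact LIN_pk_test ih k

theorem LIN_int_pk {n : ℕ} {ρ : (Fin n → ℝ) → ℝ} (h : Test ρ) (k : Fin n) :
    ∫ z, pk k ρ z = 0 := by
  have h1 : Integrable ρ := h.1.continuous.integrable_of_hasCompactSupport h.2
  have h2 : Integrable (pk k ρ) :=
    (LIN_pk_test h k).1.continuous.integrable_of_hasCompactSupport (LIN_pk_test h k).2
  have h3 := integral_mul_fderiv_eq_neg_fderiv_mul_of_integrable (𝕜 := ℝ)
    (μ := (volume : Measure (Fin n → ℝ)))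
    (f := fun _ : Fin n → ℝ => (1 : ℝ)) (g := ρ) (v := Pi.single k (1 : ℝ))
    (by simp) (by
      show Integrable (fun x => (1 : ℝ) * pk k ρ x)
      simpa using h2) (by simpa using h1)
    (fun z _ => differentiableAt_const _)
    (fun z _ => (h.1.differentiable (by simp)) z)
  show ∫ z, fderiv ℝ ρ z (Pi.single k (1 : ℝ)) = 0
  simpa using h3

theorem LIN_hom {n : ℕ} {f : (Fin n → ℝ) → ℝ} (hs : Smo f) (hh : HomD 1 f) (j : Fin n) :
    HomD 0 (pk j f) := by
  intro y hy t ht
  rw [zpow_zero, one_mul]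
  have hty : t • y ≠ 0 := smul_ne_zero ht.ne' hy
  have h1 : HasFDerivAt f (fderiv ℝ f (t • y)) (t • y) :=
    ((hs _ hty).differentiableAt (by simp)).hasFDerivAt
  have h2 : HasFDerivAt f (fderiv ℝ f y) y := ((hs _ hy).differentiableAt (by simp)).hasFDerivAt
  have h3 : HasFDerivAt (fun x : Fin n → ℝ => t • x) (t • ContinuousLinearMap.id ℝ (Fin n → ℝ)) y :=
    (hasFDerivAt_id y).const_smul t
  have h4 := h1.comp y h3
  have h5 : (f ∘ fun x : Fin n → ℝ => t • x) =ᶠ[𝓝 y] fun x => t • f x := by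
    have h6 : ∀ᶠ x in 𝓝 y, x ≠ 0 := isOpen_ne.mem_nhds hy
    filter_upwards [h6] with x hx
    have h7 := hh x hx t ht
    rw [zpow_one] at h7
    exact h7
  have h6 := (h2.const_smul t).congr_of_eventuallyEq h5
  have h7 := h4.unique h6
  have h8 := congrArg (fun T : (Fin n → ℝ) →L[ℝ] ℝ => T (Pi.single j (1 : ℝ))) h7
  have h9 : fderiv ℝ f (t • y) (t • (Pi.single j (1 : ℝ))) =
      t * fderiv ℝ f y (Pi.single j (1 : ℝ)) := h8
  rw [map_smul, smul_eq_mul] at h9
  exact mul_left_cancel₀ ht.ne' h9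

theorem LIN_cont {n : ℕ} {f : (Fin n → ℝ) → ℝ} (hs : Smo f) (j : Fin n) :
    ContinuousOn (pk j f) {0}ᶜ := by
  intro y hy
  have h1 : ContDiffAt ℝ ∞ (fderiv ℝ f) y := (hs y hy).fderiv_right (by simp)
  exact (h1.continuousAt.clm_apply continuousAt_const).continuousWithinAt

theorem LIN_bdd {n : ℕ} {g : (Fin n → ℝ) → ℝ} (hc : ContinuousOn g {0}ᶜ) (hh : HomD 0 g) :
    ∃ C : ℝ, ∀ y, y ≠ 0 → |g y| ≤ C := by
  have h1 : Metric.sphere (0 : Fin n → ℝ) 1 ⊆ {0}ᶜ := by
    intro x hx hx0
    rw [mem_sphere_zero_iff_norm] at hx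
    have hx1 : x = 0 := hx0
    rw [hx1, norm_zero] at hx
    exact zero_ne_one hx
  obtain ⟨C, hC⟩ := (isCompact_sphere (0 : Fin n → ℝ) 1).exists_bound_of_continuousOn (hc.mono h1)
  refine ⟨C, fun y hy => ?_⟩
  have hn : 0 < ‖y‖ := norm_pos_iff.2 hy
  have h2 : ‖y‖⁻¹ • y ∈ Metric.sphere (0 : Fin n → ℝ) 1 := by
    rw [mem_sphere_zero_iff_norm, norm_smul, norm_inv, norm_norm, inv_mul_cancel₀ hn.ne']
  have h3 := hh y hy ‖y‖⁻¹ (by positivity)
  rw [zpow_zero, one_mul] at h3
  rw [← h3]
  exact hC _ h2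

theorem LIN_intble {n : ℕ} (hn : 2 ≤ n) {f : (Fin n → ℝ) → ℝ} (hs : Smo f) (hh : HomD 1 f)
    {ρ : (Fin n → ℝ) → ℝ} (hρ : Test ρ) (j : Fin n) (y : Fin n → ℝ) :
    Integrable (fun z => ρ (y - z) * pk j f z) := by
  have : Nonempty (Fin n) := ⟨⟨0, by omega⟩⟩
  obtain ⟨C, hC⟩ := LIN_bdd (LIN_cont hs j) (LIN_hom hs hh j)
  have h1 : Integrable (fun z => ρ (y - z)) := by
    have h2 : Integrable ρ := hρ.1.continuous.integrable_of_hasCompactSupport hρ.2
    exact h2.comp_sub_left y
  have h0 : ∀ᵐ z : Fin n → ℝ, z ≠ 0 := by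
    rw [ae_iff]
    simp
  have h2 : AEStronglyMeasurable (pk j f) (volume : Measure (Fin n → ℝ)) := by
    have h3 : AEStronglyMeasurable (pk j f) ((volume : Measure (Fin n → ℝ)).restrict {0}ᶜ) :=
      (LIN_cont hs j).aestronglyMeasurable (measurableSet_singleton 0).compl
    have h4 : (volume : Measure (Fin n → ℝ)).restrict {0}ᶜ = volume := by
      rw [Measure.restrict_eq_self_of_ae_mem]
      exact h0
    rw [h4] at h3
    exact h3
  refine h1.mul_bdd (c := C) h2 ?_
  filter_upwards [h0] with z hz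
  exact hC z hz

theorem t_LIN (h_FOUR : S_FOUR) (h_MOL : S_MOL) (h_INT : S_INT) (h_LIM : S_LIM) (h_DESC : S_DESC) : S_LIN := by
  intro n r hn Om hgood f hs hh c hc a b d
  have : Nonempty (Fin n) := ⟨⟨0, by omega⟩⟩
  have h0 : ∀ᵐ z : Fin n → ℝ, z ≠ 0 := by
    rw [ae_iff]
    simp
  have key : ∀ L : List (Fin n), L.length = n + 2 → ∀ ρ : (Fin n → ℝ) → ℝ, Test ρ →
      ∀ a y, pks L (mol ρ (f a)) y = 0 := by
    intro L hL ρ hρ
    have hρ' : Test (pks L ρ) := LIN_pks_test hρ L
    have hint0 : ∫ z, pks L ρ z = 0 := by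
      cases L with
      | nil => simp at hL
      | cons k L => exact LIN_int_pk (LIN_pks_test hρ L) k
    have e1 : ∀ a, pks L (mol ρ (f a)) = mol (pks L ρ) (f a) := fun a =>
      (h_MOL n (by omega) (f a) (hs a) (hh a) ρ hρ).2.1 L
    have e2 : ∀ a j y, pk j (pks L (mol ρ (f a))) y = mol (pks L ρ) (pk j (f a)) y := by
      intro a j y
      rw [e1 a]
      exact (h_MOL n (by omega) (f a) (hs a) (hh a) (pks L ρ) hρ').2.2 hn j y
    refine h_FOUR n r Om hgood (fun a => pks L (mol ρ (f a))) ?_ ?_ ?_ ?_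
    · intro a
      rw [e1 a]
      exact (h_MOL n (by omega) (f a) (hs a) (hh a) (pks L ρ) hρ').1.of_le (by simp)
    · intro a
      exact h_INT n (by omega) (f a) (hs a) (hh a) ρ hρ L (by omega)
    · intro a j
      exact h_INT n (by omega) (f a) (hs a) (hh a) ρ hρ (j :: L) (by rw [List.length_cons]; omega)
    · intro y j k l
      simp only [e2]
      have hI : ∀ (a : Fin r) (j : Fin n), Integrable (fun z => pks L ρ (y - z) * pk j (f a) z) :=
        fun a j => LIN_intble hn (hs a) (hh a) hρ' j y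
      have h1 : ∀ (a : Fin r) (o : ℝ) (j : Fin n), o * mol (pks L ρ) (pk j (f a)) y =
          ∫ z, o * (pks L ρ (y - z) * pk j (f a) z) := by
        intro a o j
        rw [integral_const_mul]
        rfl
      simp only [h1]
      have h2 : ∀ a : Fin r, ((∫ z, Om a k l * (pks L ρ (y - z) * pk j (f a) z)) +
          (∫ z, Om a l j * (pks L ρ (y - z) * pk k (f a) z)) +
          ∫ z, Om a j k * (pks L ρ (y - z) * pk l (f a) z)) =
          ∫ z, (Om a k l * (pks L ρ (y - z) * pk j (f a) z) +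
            Om a l j * (pks L ρ (y - z) * pk k (f a) z) +
            Om a j k * (pks L ρ (y - z) * pk l (f a) z)) := by
        intro a
        have i1 : Integrable (fun z => Om a k l * (pks L ρ (y - z) * pk j (f a) z)) :=
          (hI a j).const_mul _
        have i2 : Integrable (fun z => Om a l j * (pks L ρ (y - z) * pk k (f a) z)) :=
          (hI a k).const_mul _
        have i3 : Integrable (fun z => Om a j k * (pks L ρ (y - z) * pk l (f a) z)) :=
          (hI a l).const_mul _
        have i12 : Integrable (fun z => Om a k l * (pks L ρ (y - z) * pk j (f a) z) +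
          Om a l j * (pks L ρ (y - z) * pk k (f a) z)) := i1.add i2
        rw [integral_add i12 i3, integral_add i1 i2]
      simp only [h2]
      rw [← integral_finsetSum]
      · have h3 : ∫ z, ∑ a, (Om a k l * (pks L ρ (y - z) * pk j (f a) z) +
            Om a l j * (pks L ρ (y - z) * pk k (f a) z) +
            Om a j k * (pks L ρ (y - z) * pk l (f a) z)) = ∫ z, pks L ρ (y - z) * c j k l := by
          refine integral_congr_ae ?_
          filter_upwards [h0] with z hz
          rw [← hc z hz j k l, Finset.mul_sum]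
          refine Finset.sum_congr rfl fun a _ => ?_
          ring
        rw [h3, integral_mul_const, integral_sub_left_eq_self (fun z => pks L ρ z) volume y, hint0,
          zero_mul]
      · intro a _
        exact (((hI a j).const_mul _).add ((hI a k).const_mul _)).add ((hI a l).const_mul _)
  exact h_DESC n hn (f a) (hs a) (hh a) (n + 2) (by omega) (fun L hL y hy =>
    h_LIM n (by omega) (f a) (hs a) (hh a) L (fun ρ hρ y => key L hL ρ hρ a y) y hy) b d

end Pool.Agent.H792.KG
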