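import Pool.Agent.H792.KG.Defs

/-!
MOL. f is bounded by C‖y‖ for y ≠ 0 (C = max over the unit sphere), measurable (continuous off a null set), so locally integrable. (a),(b): mol ρ f = convolution of ρ and f
(Mathlib: HasCompactSupport.contDiff_convolution_left / hasFDerivAt_convolution_left, or differentiate under the integral); pk k (mol ρ f) = mol (pk k ρ) f and pk k ρ is again a test function; induct on L.
(c): mol ρ f (y + t e_j) = ∫ ρ(y - w) f(w + t e_j) dw (substitution). For w not on the line spanned by e_j the function t ↦ f(w + t e_j) is C^1 with bounded derivative.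
-/

set_option autoImplicit false

open scoped BigOperators ContDiff Topology Matrix
open MeasureTheory

noncomputable section

namespace Pool.Agent.H792.KG

theorem MOL_bound {n : ℕ} (m : ℤ) (g : (Fin n → ℝ) → ℝ) (hc : ContinuousOn g {0}ᶜ)
    (hh : HomD m g) : ∃ C : ℝ, 0 ≤ C ∧ ∀ y, y ≠ 0 → |g y| ≤ C * ‖y‖ ^ m := by
  have hK : IsCompact (Metric.sphere (0 : Fin n → ℝ) 1) := isCompact_sphere 0 1
  have hcs : ContinuousOn g (Metric.sphere 0 1) := hc.mono (by
    intro x hx h
    have hx1 : ‖x‖ = 1 := mem_sphere_zero_iff_norm.mp hx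
    rw [Set.mem_singleton_iff.mp h, norm_zero] at hx1
    exact zero_ne_one hx1)
  obtain ⟨C, hC⟩ := hK.exists_bound_of_continuousOn hcs
  refine ⟨max C 0, le_max_right _ _, fun y hy => ?_⟩
  have hn : 0 < ‖y‖ := norm_pos_iff.mpr hy
  have hu : ‖(‖y‖⁻¹ • y)‖ = 1 := by rw [norm_smul, norm_inv, norm_norm, inv_mul_cancel₀ hn.ne']
  have hu0 : ‖y‖⁻¹ • y ≠ 0 := by
    intro h
    rw [h, norm_zero] at hu
    exact zero_ne_one hu
  have h := hh _ hu0 ‖y‖ hn
  rw [smul_smul, mul_inv_cancel₀ hn.ne', one_smul] at h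
  have hb : |g (‖y‖⁻¹ • y)| ≤ max C 0 :=
    (hC _ (mem_sphere_zero_iff_norm.mpr hu)).trans (le_max_left _ _)
  rw [h, abs_mul, abs_of_pos (zpow_pos hn m), mul_comm]
  exact mul_le_mul_of_nonneg_right hb (zpow_pos hn m).le

theorem MOL_smo_pk {n : ℕ} (f : (Fin n → ℝ) → ℝ) (hf : Smo f) (j : Fin n) : Smo (pk j f) := by
  intro y hy
  have h1 : ContDiffAt ℝ ∞ (fderiv ℝ f) y := (hf y hy).fderiv_right (by simp)
  exact h1.clm_apply contDiffAt_const

theorem MOL_cont {n : ℕ} (f : (Fin n → ℝ) → ℝ) (hf : Smo f) : ContinuousOn f {0}ᶜ := by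
  intro y hy
  exact (hf y hy).continuousAt.continuousWithinAt

theorem MOL_hom_pk {n : ℕ} (f : (Fin n → ℝ) → ℝ) (hf : Smo f) (hh : HomD 1 f) (j : Fin n) :
    HomD 0 (pk j f) := by
  intro y hy t ht
  have hty : t • y ≠ 0 := smul_ne_zero ht.ne' hy
  have d1 : HasFDerivAt f (fderiv ℝ f (t • y)) (t • y) :=
    ((hf _ hty).differentiableAt (by simp)).hasFDerivAt
  have d2 : HasFDerivAt f (fderiv ℝ f y) y :=
    ((hf _ hy).differentiableAt (by simp)).hasFDerivAt
  have d3 : HasFDerivAt (fun x => f (t • x))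
      ((fderiv ℝ f (t • y)).comp (t • ContinuousLinearMap.id ℝ (Fin n → ℝ))) y := by
    have hs : HasFDerivAt (fun x : Fin n → ℝ => t • x)
        (t • ContinuousLinearMap.id ℝ (Fin n → ℝ)) y := (hasFDerivAt_id y).const_smul t
    exact HasFDerivAt.comp y d1 hs
  have d4 : HasFDerivAt (fun x => t * f x) (t • fderiv ℝ f y) y := d2.const_mul t
  have hev : (fun x => f (t • x)) =ᶠ[𝓝 y] fun x => t * f x := by
    filter_upwards [isOpen_compl_singleton.mem_nhds (show y ∈ ({0} : Set (Fin n → ℝ))ᶜ from hy)]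
      with x hx
    have := hh x hx t ht
    rw [zpow_one] at this
    exact this
  have d5 := (d4.congr_of_eventuallyEq hev).unique d3
  have d6 := congrArg (fun A : (Fin n → ℝ) →L[ℝ] ℝ => A (Pi.single j (1 : ℝ))) d5
  simp only [_root_.smul_apply, ContinuousLinearMap.comp_apply,
    ContinuousLinearMap.id_apply, map_smul, smul_eq_mul] at d6
  rw [zpow_zero, one_mul]
  unfold pk
  exact (mul_left_cancel₀ ht.ne' d6).symm

theorem MOL_meas {n : ℕ} (hn : 1 ≤ n) (g : (Fin n → ℝ) → ℝ) (hc : ContinuousOn g {0}ᶜ) :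
    AEStronglyMeasurable g (volume : Measure (Fin n → ℝ)) := by
  have : Nonempty (Fin n) := ⟨⟨0, hn⟩⟩
  have h := hc.aestronglyMeasurable (μ := (volume : Measure (Fin n → ℝ)))
    (measurableSet_singleton (0 : Fin n → ℝ)).compl
  rwa [MeasureTheory.restrict_compl_singleton] at h

theorem MOL_ae_ne {n : ℕ} (hn : 1 ≤ n) : ∀ᵐ y ∂(volume : Measure (Fin n → ℝ)), y ≠ 0 := by
  have : Nonempty (Fin n) := ⟨⟨0, hn⟩⟩
  exact Measure.ae_ne volume 0

theorem MOL_loc {n : ℕ} (hn : 1 ≤ n) (f : (Fin n → ℝ) → ℝ) (hf : Smo f) (hh : HomD 1 f) :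
    LocallyIntegrable f (volume : Measure (Fin n → ℝ)) := by
  obtain ⟨C, hC0, hC⟩ := MOL_bound 1 f (MOL_cont f hf) hh
  have hcont : Continuous (fun y : Fin n → ℝ => C * ‖y‖) := by fun_prop
  refine (hcont.locallyIntegrable).mono (MOL_meas hn f (MOL_cont f hf)) ?_
  filter_upwards [MOL_ae_ne hn] with y hy
  have := hC y hy
  rw [zpow_one] at this
  rw [Real.norm_eq_abs, Real.norm_eq_abs]
  exact this.trans (le_abs_self _)

theorem MOL_eq {n : ℕ} (ρ f : (Fin n → ℝ) → ℝ) :
    mol ρ f = convolution f ρ (ContinuousLinearMap.mul ℝ ℝ) volume := by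
  funext y
  unfold mol convolution
  apply integral_congr_ae
  filter_upwards with z
  rw [ContinuousLinearMap.mul_apply', mul_comm]

theorem MOL_test {n : ℕ} (ρ : (Fin n → ℝ) → ℝ) (h : Test ρ) (k : Fin n) : Test (pk k ρ) := by
  refine ⟨?_, h.2.fderiv_apply ℝ _⟩
  have h1 : ContDiff ℝ ∞ (fderiv ℝ ρ) := h.1.fderiv_right (by simp)
  exact h1.clm_apply contDiff_const

theorem MOL_tests {n : ℕ} (ρ : (Fin n → ℝ) → ℝ) (h : Test ρ) (L : List (Fin n)) :
    Test (pks L ρ) := by
  induction L with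
  | nil => exact h
  | cons k L ih => exact MOL_test _ ih k

theorem MOL_fderiv {n : ℕ} (f : (Fin n → ℝ) → ℝ)
    (hl : LocallyIntegrable f (volume : Measure (Fin n → ℝ))) (ρ : (Fin n → ℝ) → ℝ) (h : Test ρ)
    (k : Fin n) : pk k (mol ρ f) = mol (pk k ρ) f := by
  funext y
  have h1 : ContDiff ℝ 1 ρ := h.1.of_le (by simp)
  have hd := HasCompactSupport.hasFDerivAt_convolution_right (ContinuousLinearMap.mul ℝ ℝ)
    (μ := (volume : Measure (Fin n → ℝ))) h.2 hl h1 y
  rw [← MOL_eq] at hd
  unfold pk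
  rw [hd.fderiv]
  unfold convolution
  have hex := (HasCompactSupport.convolutionExists_right
    (ContinuousLinearMap.precompR (Fin n → ℝ) (ContinuousLinearMap.mul ℝ ℝ))
    (μ := (volume : Measure (Fin n → ℝ))) (h.2.fderiv (𝕜 := ℝ)) hl
    (h1.continuous_fderiv (by simp))) y
  rw [ContinuousLinearMap.integral_apply hex]
  unfold mol
  apply integral_congr_ae
  filter_upwards with z
  rw [ContinuousLinearMap.precompR_apply]
  simp only [ContinuousLinearMap.compL_apply, ContinuousLinearMap.comp_apply,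
    ContinuousLinearMap.mul_apply']
  rw [mul_comm]


/-- for almost every `w` the line through `w` in direction `e_j` avoids the origin -/
theorem MOL_line {n : ℕ} (hn : 2 ≤ n) (j : Fin n) :
    ∀ᵐ w ∂(volume : Measure (Fin n → ℝ)), ∀ t : ℝ, w + t • (Pi.single j (1 : ℝ)) ≠ 0 := by
  set S : Submodule ℝ (Fin n → ℝ) := Submodule.span ℝ {Pi.single j (1 : ℝ)} with hS
  have hne : S ≠ ⊤ := by
    intro h
    have hv0 : (Pi.single j (1 : ℝ) : Fin n → ℝ) ≠ 0 := by
      intro h0
      have := congrFun h0 j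
      simp at this
    have h1 : Module.finrank ℝ S ≤ 1 := (finrank_span_singleton (K := ℝ) hv0).le
    rw [h, finrank_top, Module.finrank_fin_fun] at h1
    omega
  have h0 := Measure.addHaar_submodule (volume : Measure (Fin n → ℝ)) S hne
  have h1 : ∀ᵐ w ∂(volume : Measure (Fin n → ℝ)), w ∉ (S : Set (Fin n → ℝ)) :=
    measure_eq_zero_iff_ae_notMem.mp h0
  filter_upwards [h1] with w hw t h
  apply hw
  have h2 : w = (-t) • Pi.single j (1 : ℝ) := by
    rw [neg_smul]
    exact eq_neg_of_add_eq_zero_left h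
  rw [h2]
  exact S.smul_mem _ (Submodule.mem_span_singleton_self _)

theorem MOL_c {n : ℕ} (hn : 2 ≤ n) (f : (Fin n → ℝ) → ℝ) (hf : Smo f) (hh : HomD 1 f)
    (ρ : (Fin n → ℝ) → ℝ) (h : Test ρ) (j : Fin n) (y : Fin n → ℝ) :
    pk j (mol ρ f) y = mol ρ (pk j f) y := by
  have hn1 : 1 ≤ n := by omega
  have hl := MOL_loc hn1 f hf hh
  have hfc := MOL_cont f hf
  have hgc := MOL_cont (pk j f) (MOL_smo_pk f hf j)
  obtain ⟨C, hC0, hC⟩ := MOL_bound 0 (pk j f) hgc (MOL_hom_pk f hf hh j)
  have hmf := MOL_meas hn1 f hfc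
  have hmg := MOL_meas hn1 (pk j f) hgc
  set v : Fin n → ℝ := Pi.single j (1 : ℝ) with hv
  have h1 : ContDiff ℝ 1 ρ := h.1.of_le (by simp)
  have hρc : Continuous ρ := h1.continuous
  have hρy : Continuous (fun w : Fin n → ℝ => ρ (y - w)) := by fun_prop
  -- the function along the line
  have hF : ∀ t : ℝ, mol ρ f (y + t • v) = ∫ w, ρ (y - w) * f (w + t • v) := by
    intro t
    unfold mol
    rw [← integral_add_right_eq_self (fun z => ρ (y + t • v - z) * f z) (t • v)]
    apply integral_congr_ae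
    filter_upwards with w
    have : y + t • v - (w + t • v) = y - w := by abel
    rw [this]
  have hint : Integrable (fun w => ρ (y - w) * f w) := by
    have hex := (HasCompactSupport.convolutionExists_right (ContinuousLinearMap.mul ℝ ℝ)
      (μ := (volume : Measure (Fin n → ℝ))) h.2 hl hρc) y
    refine hex.congr ?_
    filter_upwards with z
    rw [ContinuousLinearMap.mul_apply', mul_comm]
  have hcs : HasCompactSupport (fun w : Fin n → ℝ => ρ (y - w)) :=
    h.2.comp_homeomorph (Homeomorph.subLeft y)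
  have hbint : Integrable (fun w : Fin n → ℝ => |ρ (y - w)| * C) := by
    have : Integrable (fun w : Fin n → ℝ => ρ (y - w)) := hρy.integrable_of_hasCompactSupport hcs
    exact this.abs.mul_const C
  have hline := MOL_line hn j
  have hder : ∀ w : Fin n → ℝ, (∀ t : ℝ, w + t • v ≠ 0) → ∀ t : ℝ,
      HasDerivAt (fun t : ℝ => ρ (y - w) * f (w + t • v)) (ρ (y - w) * pk j f (w + t • v)) t := by
    intro w hw t
    have d1 : HasFDerivAt f (fderiv ℝ f (w + t • v)) (w + t • v) :=
      ((hf _ (hw t)).differentiableAt (by simp)).hasFDerivAt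
    have d2 : HasDerivAt (fun t : ℝ => w + t • v) v t := by
      have := ((hasDerivAt_id t).smul_const v).const_add w
      simpa using this
    exact (d1.comp_hasDerivAt t d2).const_mul _
  have main := hasDerivAt_integral_of_dominated_loc_of_lip (μ := (volume : Measure (Fin n → ℝ)))
    (F := fun (t : ℝ) (w : Fin n → ℝ) => ρ (y - w) * f (w + t • v))
    (F' := fun w => ρ (y - w) * pk j f w) (x₀ := (0 : ℝ)) (s := Set.univ)
    (bound := fun w => |ρ (y - w)| * C) Filter.univ_mem ?_ ?_ ?_ ?_ hbint ?_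
  · have d3 := main.2
    have d4 : HasDerivAt (fun t : ℝ => mol ρ f (y + t • v)) (mol ρ (pk j f) y) 0 := by
      have : (fun t : ℝ => mol ρ f (y + t • v)) =
          fun t => ∫ w, ρ (y - w) * f (w + t • v) := funext hF
      rw [this]
      exact d3
    have hcd : ContDiff ℝ 1 (mol ρ f) := by
      rw [MOL_eq]
      exact HasCompactSupport.contDiff_convolution_right _ (n := 1) h.2 hl h1
    have d5 : HasFDerivAt (mol ρ f) (fderiv ℝ (mol ρ f) (y + (0 : ℝ) • v)) (y + (0 : ℝ) • v) :=
      ((hcd.differentiable (by simp)) _).hasFDerivAt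
    have d6 : HasDerivAt (fun t : ℝ => y + t • v) v 0 := by
      have := ((hasDerivAt_id (0 : ℝ)).smul_const v).const_add y
      simpa using this
    have d7 := d5.comp_hasDerivAt (0 : ℝ) d6
    have d8 := d7.unique d4
    rw [zero_smul, add_zero] at d8
    exact d8
  · filter_upwards with t
    have hq : Measure.QuasiMeasurePreserving (fun w : Fin n → ℝ => w + t • v)
        (volume : Measure (Fin n → ℝ)) volume :=
      (measurePreserving_add_right volume (t • v)).quasiMeasurePreserving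
    exact hρy.aestronglyMeasurable.mul (hmf.comp_quasiMeasurePreserving hq)
  · simpa using hint
  · exact hρy.aestronglyMeasurable.mul hmg
  · filter_upwards [hline] with w hw
    apply LipschitzWith.lipschitzOnWith
    apply lipschitzWith_of_nnnorm_deriv_le
    · intro t
      exact (hder w hw t).differentiableAt
    · intro t
      rw [(hder w hw t).deriv]
      have hb := hC _ (hw t)
      rw [zpow_zero, mul_one] at hb
      rw [← NNReal.coe_le_coe, coe_nnnorm, Real.norm_eq_abs, abs_mul, Real.coe_nnabs,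
        abs_of_nonneg (mul_nonneg (abs_nonneg (ρ (y - w))) hC0)]
      exact mul_le_mul_of_nonneg_left hb (abs_nonneg _)
  · filter_upwards [hline] with w hw
    have := hder w hw 0
    simpa using this

theorem t_MOL  : S_MOL := by
  intro n hn f hf hh ρ hρ
  have hl := MOL_loc hn f hf hh
  refine ⟨?_, ?_, ?_⟩
  · rw [MOL_eq]
    exact HasCompactSupport.contDiff_convolution_right _ (n := ⊤) hρ.2 hl hρ.1
  · intro L
    induction L with
    | nil => rfl
    | cons k L ih =>
      show pk k (pks L (mol ρ f)) = mol (pk k (pks L ρ)) f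
      rw [ih]
      exact MOL_fderiv f hl (pks L ρ) (MOL_tests ρ hρ L) k
  · intro hn2 j y
    exact MOL_c hn2 f hf hh ρ hρ j y

end Pool.Agent.H792.KG
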