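import Pool.Agent.H792.KG.Defs

/-!
STR. Let X = ({y // y ≠ 0} → Fin n → ℝ), Lin = the submodule of the maps y ↦ A *ᵥ y, Φ : (Fin n → Fin n → ℝ) →ₗ X ⧸ Lin, s ↦ class of (y ↦ i ↦ Σ_k Σ_l s k l R k l i y). The hypothesis says: no n - 1 elements of range Φ are linearly independent, so
r = finrank (range Φ) ≤ n - 2 (n ≥ 2). Take a basis v_a = Φ(s_a) (a : Fin r) of range Φ and coefficients Om a k l with Φ(E_kl) = Σ_a Om a k l • v_a (E_kl the elementary matrix, i.e. Pi.single k (Pi.single l 1)). Om is antisymmetric in k,l because Φ(E_kl) = -Φ(E_lk). Linear independence of Om: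
v_b = Φ(s_b) = Σ_kl s_b k l Σ_a Om a k l v_a so Σ_kl s_b k l Om a k l = δ_ab (duality). The difference R k l - Σ_a Om a k l Σ_pq s_a p q R p q is in Lin: B k l.
-/

set_option autoImplicit false

open scoped BigOperators ContDiff Topology Matrix
open MeasureTheory

noncomputable section

namespace Pool.Agent.H792.KG

/-- the space of the fields -/
abbrev STR_W (n : ℕ) : Type := {y : Fin n → ℝ // y ≠ 0} → Fin n → ℝ

/-- linear fields -/
def STR_lin (n : ℕ) : Matrix (Fin n) (Fin n) ℝ →ₗ[ℝ] STR_W n where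
  toFun A := fun y => A *ᵥ y.1
  map_add' A B := by
    funext y
    exact Matrix.add_mulVec A B y.1
  map_smul' c A := by
    funext y
    exact Matrix.smul_mulVec c A y.1

/-- the combinations of the fields -/
def STR_phi {n : ℕ} (R : Fin n → Fin n → Fin n → (Fin n → ℝ) → ℝ) :
    (Fin n → Fin n → ℝ) →ₗ[ℝ] STR_W n where
  toFun s := fun y i => ∑ k, ∑ l, s k l * R k l i y.1
  map_add' s t := by
    funext y i
    simp only [Pi.add_apply, add_mul, Finset.sum_add_distrib]
  map_smul' c s := by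
    funext y i
    simp only [Pi.smul_apply, smul_eq_mul, RingHom.id_apply, Finset.mul_sum, mul_assoc]

/-- the elementary matrices -/
def STR_E {n : ℕ} (k l : Fin n) : Fin n → Fin n → ℝ := Pi.single k (Pi.single l 1)

theorem STR_phi_E {n : ℕ} (R : Fin n → Fin n → Fin n → (Fin n → ℝ) → ℝ) (k l : Fin n)
    (y : {y : Fin n → ℝ // y ≠ 0}) (i : Fin n) : STR_phi R (STR_E k l) y i = R k l i y.1 := by
  show ∑ k', ∑ l', STR_E k l k' l' * R k' l' i y.1 = R k l i y.1
  rw [Finset.sum_eq_single k]
  · rw [Finset.sum_eq_single l]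
    · simp [STR_E]
    · intro l' _ hl
      simp [STR_E, hl]
    · intro h
      exact absurd (Finset.mem_univ l) h
  · intro k' _ hk
    simp [STR_E, hk]
  · intro h
    exact absurd (Finset.mem_univ k) h

theorem STR_expand {n : ℕ} (s : Fin n → Fin n → ℝ) : s = ∑ k, ∑ l, s k l • STR_E k l := by
  funext p q
  rw [Finset.sum_apply, Finset.sum_apply, Finset.sum_eq_single p]
  · rw [Finset.sum_apply, Finset.sum_apply, Finset.sum_eq_single q]
    · simp [STR_E]
    · intro l' _ hl
      simp [STR_E, hl.symm]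
    · intro h
      exact absurd (Finset.mem_univ q) h
  · intro k' _ hk
    rw [Finset.sum_apply, Finset.sum_apply]
    refine Finset.sum_eq_zero fun l' _ => ?_
    simp [STR_E, hk.symm]
  · intro h
    exact absurd (Finset.mem_univ p) h

theorem t_STR  : S_STR := by
  intro n hn R hR hyp
  let Lin : Submodule ℝ (STR_W n) := LinearMap.range (STR_lin n)
  let Φ : (Fin n → Fin n → ℝ) →ₗ[ℝ] (STR_W n ⧸ Lin) := Lin.mkQ.comp (STR_phi R)
  let Ψ : (Fin n → Fin n → ℝ) →ₗ[ℝ] LinearMap.range Φ := Φ.rangeRestrict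
  let b := Module.finBasis ℝ (LinearMap.range Φ)
  have hΨs : Function.Surjective Ψ := LinearMap.surjective_rangeRestrict Φ
  choose s hs using fun a => hΨs (b a)
  have hΨ0 : ∀ t : Fin n → Fin n → ℝ, Ψ t = 0 → ∃ A : Matrix (Fin n) (Fin n) ℝ,
      ∀ (y : {y : Fin n → ℝ // y ≠ 0}) (i : Fin n), STR_phi R t y i = (A *ᵥ y.1) i := by
    intro t ht
    have h1 : Φ t = 0 := congrArg Subtype.val ht
    have h2 : STR_phi R t ∈ Lin := (Submodule.Quotient.mk_eq_zero Lin).1 h1
    obtain ⟨A, hA⟩ := h2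
    refine ⟨A, fun y i => ?_⟩
    rw [← hA]
    rfl
  have hΨ0' : ∀ t : Fin n → Fin n → ℝ, (∃ A : Matrix (Fin n) (Fin n) ℝ,
      ∀ (y : {y : Fin n → ℝ // y ≠ 0}) (i : Fin n), STR_phi R t y i = (A *ᵥ y.1) i) → Ψ t = 0 := by
    rintro t ⟨A, hA⟩
    apply Subtype.ext
    show Lin.mkQ (STR_phi R t) = 0
    refine (Submodule.Quotient.mk_eq_zero Lin).2 ⟨A, ?_⟩
    funext y i
    exact (hA y i).symm
  -- the dimension
  have hdim : Module.finrank ℝ (LinearMap.range Φ) + 2 ≤ n := by
    by_contra hcon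
    have hle : n - 1 ≤ Module.finrank ℝ (LinearMap.range Φ) := by omega
    obtain ⟨c, hc0, A, hA⟩ := hyp fun a => s (Fin.castLE hle a)
    apply hc0
    have h1 : Ψ (∑ a, c a • s (Fin.castLE hle a)) = 0 := by
      apply hΨ0'
      refine ⟨A, fun y i => ?_⟩
      rw [← hA y.1 y.2 i, map_sum, Finset.sum_apply, Finset.sum_apply]
      refine Finset.sum_congr rfl fun a _ => ?_
      rw [map_smul]
      rfl
    rw [map_sum] at h1
    have h2 : ∑ a, c a • b (Fin.castLE hle a) = 0 := by
      rw [← h1]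
      refine Finset.sum_congr rfl fun a _ => ?_
      rw [map_smul, hs]
    have h3 : LinearIndependent ℝ fun a => b (Fin.castLE hle a) :=
      b.linearIndependent.comp _ (Fin.castLE_injective hle)
    funext a
    exact Fintype.linearIndependent_iff.1 h3 c h2 a
  let Om : Fin (Module.finrank ℝ (LinearMap.range Φ)) → Fin n → Fin n → ℝ :=
    fun a k l => b.repr (Ψ (STR_E k l)) a
  have hrepr : ∀ (t : Fin n → Fin n → ℝ) a, b.repr (Ψ t) a = ∑ k, ∑ l, t k l * Om a k l := by
    intro t a
    conv_lhs => rw [STR_expand t]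
    rw [map_sum, map_sum, Finsupp.coe_finsetSum, Finset.sum_apply]
    refine Finset.sum_congr rfl fun k _ => ?_
    rw [map_sum, map_sum, Finsupp.coe_finsetSum, Finset.sum_apply]
    refine Finset.sum_congr rfl fun l _ => ?_
    rw [map_smul, map_smul]
    rfl
  have hdiff : ∀ k l : Fin n, Ψ (STR_E k l - ∑ a, Om a k l • s a) = 0 := by
    intro k l
    rw [map_sub, map_sum, sub_eq_zero]
    conv_lhs => rw [← b.sum_repr (Ψ (STR_E k l))]
    refine Finset.sum_congr rfl fun a _ => ?_
    rw [map_smul, hs]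
  choose B hB using fun k l => hΨ0 _ (hdiff k l)
  refine ⟨Module.finrank ℝ (LinearMap.range Φ), hdim, Om, s, B, ?_, ?_, ?_⟩
  · intro a k l
    have h1 : Ψ (STR_E k l + STR_E l k) = 0 := by
      apply hΨ0'
      refine ⟨0, fun y i => ?_⟩
      rw [map_add, Matrix.zero_mulVec]
      show STR_phi R (STR_E k l) y i + STR_phi R (STR_E l k) y i = 0
      rw [STR_phi_E, STR_phi_E, hR k l i y.1]
      ring
    rw [map_add] at h1
    have h2 : Ψ (STR_E k l) = - Ψ (STR_E l k) := eq_neg_of_add_eq_zero_left h1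
    show b.repr (Ψ (STR_E k l)) a = - b.repr (Ψ (STR_E l k)) a
    rw [h2, map_neg]
    rfl
  · rw [Fintype.linearIndependent_iff]
    intro g hg a'
    have h1 : ∀ a, ∑ k, ∑ l, s a' k l * Om a k l = if a = a' then 1 else 0 := by
      intro a
      rw [← hrepr, hs, Module.Basis.repr_self, Finsupp.single_apply]
      simp only [eq_comm]
    have h2 : ∑ a, g a * ∑ k, ∑ l, s a' k l * Om a k l = g a' := by
      simp only [h1]
      simp
    rw [← h2]
    have h3 : ∀ k l, ∑ a, g a * Om a k l = 0 := by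
      intro k l
      have := congrFun (congrFun hg k) l
      rw [Finset.sum_apply, Finset.sum_apply] at this
      exact this
    calc ∑ a, g a * ∑ k, ∑ l, s a' k l * Om a k l
        = ∑ a, ∑ k, ∑ l, s a' k l * (g a * Om a k l) := by
          refine Finset.sum_congr rfl fun a _ => ?_
          rw [Finset.mul_sum]
          refine Finset.sum_congr rfl fun k _ => ?_
          rw [Finset.mul_sum]
          refine Finset.sum_congr rfl fun l _ => ?_
          ring
      _ = ∑ k, ∑ l, ∑ a, s a' k l * (g a * Om a k l) := by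
          rw [Finset.sum_comm]
          refine Finset.sum_congr rfl fun k _ => ?_
          rw [Finset.sum_comm]
      _ = 0 := by
          refine Finset.sum_eq_zero fun k _ => Finset.sum_eq_zero fun l _ => ?_
          rw [← Finset.mul_sum, h3, mul_zero]
  · intro k l i y hy
    have h1 := hB k l ⟨y, hy⟩ i
    rw [map_sub, map_sum] at h1
    have h2 : STR_phi R (STR_E k l) ⟨y, hy⟩ i -
        (∑ a, STR_phi R (Om a k l • s a)) ⟨y, hy⟩ i = (B k l *ᵥ y) i := h1
    rw [STR_phi_E, Finset.sum_apply, Finset.sum_apply] at h2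
    have h3 : ∑ a, STR_phi R (Om a k l • s a) ⟨y, hy⟩ i =
        ∑ a, Om a k l * (∑ p, ∑ q, s a p q * R p q i y) := by
      refine Finset.sum_congr rfl fun a _ => ?_
      rw [map_smul]
      rfl
    rw [h3] at h2
    linarith

end Pool.Agent.H792.KG
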