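import Pool.Agent.H792.KG.T_EXG
import Pool.Agent.H792.KG.T_GOOD
import Pool.Agent.H792.KG.T_FOUR
import Pool.Agent.H792.KG.T_MOL
import Pool.Agent.H792.KG.T_INT
import Pool.Agent.H792.KG.T_LIM
import Pool.Agent.H792.KG.T_DESC
import Pool.Agent.H792.KG.T_STR
import Pool.Agent.H792.KG.T_LIN

/-!
# Assembly of the analytic part
-/

set_option autoImplicit false

open scoped BigOperators ContDiff Topology Matrix
open MeasureTheory

noncomputable section

namespace Pool.Agent.H792.KG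

theorem t_EXG' : S_EXG' := by
  intro V _ _ _ O halt hdim
  by_cases hO : O = ⊥
  · have hpos : 0 < Module.finrank ℝ V := by omega
    have : Nontrivial V := Module.nontrivial_of_finrank_pos hpos
    obtain ⟨v, hv⟩ := exists_ne (0 : V)
    have h1 : ∃ ξ : V →ₗ[ℝ] ℝ, ξ v ≠ 0 := by
      by_contra hcon
      push Not at hcon
      exact hv ((Module.forall_dual_apply_eq_zero_iff ℝ v).1 hcon)
    obtain ⟨ξ, hξ⟩ := h1
    refine ⟨ξ, fun h => hξ (by rw [h]; rfl), fun Ω hΩ _ => ?_⟩
    rw [hO] at hΩ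
    exact (Submodule.mem_bot ℝ).1 hΩ
  have hfr : Module.finrank ℝ (O.map (EXG_to (V := V)).toLinearMap) = Module.finrank ℝ O :=
    LinearEquiv.finrank_map_eq _ _
  obtain ⟨ξ, -, h⟩ := EXG_main (V := V) (E := EXG_F V) (EXG_to (V := V)).symm.toLinearMap
    (Module.finrank ℝ O) (O.map (EXG_to (V := V)).toLinearMap) ⊥ hfr
    (fun x _ hx => hx)
    (by
      rintro _ ⟨Ω, hΩ, rfl⟩ v
      exact halt Ω hΩ v)
    (by
      intro x _ w hw
      rw [(Submodule.mem_bot ℝ).1 hw, map_zero]) (by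
    rw [finrank_bot]
    omega)
  have hξ0 : ξ ≠ 0 := by
    rintro rfl
    obtain ⟨Ω, hΩ, hne⟩ := (Submodule.ne_bot_iff O).1 hO
    refine hne (h Ω ⟨Ω, hΩ, rfl⟩ fun u v w => ?_)
    unfold EXG_f
    simp
  refine ⟨ξ, hξ0, fun Ω hΩ hv => ?_⟩
  obtain ⟨e, he⟩ : ∃ e, ξ e ≠ 0 := by
    by_contra hcon
    push Not at hcon
    exact hξ0 (LinearMap.ext hcon)
  refine h Ω ⟨Ω, hΩ, rfl⟩ ?_
  have hskew : ∀ u v, Ω u v = -Ω v u := by
    intro u v
    have h1 := halt Ω hΩ (u + v)
    simp only [map_add, LinearMap.add_apply, halt Ω hΩ u, halt Ω hΩ v] at h1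
    linarith
  have hform : ∀ u v, ξ e * Ω u v = ξ u * Ω e v - ξ v * Ω e u := by
    intro u v
    have h1 := hv (ξ e • u - ξ u • e) (ξ e • v - ξ v • e) (by
      rw [map_sub, map_smul, map_smul, smul_eq_mul, smul_eq_mul]; ring) (by
      rw [map_sub, map_smul, map_smul, smul_eq_mul, smul_eq_mul]; ring)
    simp only [map_sub, map_smul, LinearMap.sub_apply, LinearMap.smul_apply, smul_eq_mul,
      halt Ω hΩ e] at h1
    rw [hskew u e] at h1
    have h2 : ξ e * (ξ e * Ω u v - (ξ u * Ω e v - ξ v * Ω e u)) = 0 := by linarith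
    have h3 := (mul_eq_zero.1 h2).resolve_left he
    linarith
  intro u v w
  change EXG_f ξ Ω u v w = 0
  unfold EXG_f
  have h4 : ξ e * (ξ u * Ω v w + ξ v * Ω w u + ξ w * Ω u v) = 0 := by
    have e1 := hform v w
    have e2 := hform w u
    have e3 := hform u v
    linear_combination ξ u * e1 + ξ v * e2 + ξ w * e3
  exact (mul_eq_zero.1 h4).resolve_left he

theorem good : S_GOOD := t_GOOD' t_EXG'

theorem lin : S_LIN := t_LIN t_FOUR t_MOL (t_INT t_MOL) (t_LIM t_MOL) t_DESC

/-- **a closed family of vector fields of degree one of small rank modulo linear fields is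
linear** -/
theorem lin_of_small {n : ℕ} (hn : 2 ≤ n) (R : Fin n → Fin n → Fin n → (Fin n → ℝ) → ℝ)
    (hR : ∀ k l i y, R k l i y = - R l k i y) (hs : ∀ k l i, Smo (R k l i))
    (hh : ∀ k l i, HomD 1 (R k l i))
    (hB : ∀ y, y ≠ 0 → ∀ j k l i, pk j (R k l i) y + pk k (R l j i) y + pk l (R j k i) y = 0)
    (hsm : ∀ s : Fin (n - 1) → Fin n → Fin n → ℝ, ∃ c : Fin (n - 1) → ℝ, c ≠ 0 ∧
      ∃ A : Matrix (Fin n) (Fin n) ℝ, ∀ y, y ≠ 0 → ∀ i,
        ∑ a, c a * ∑ k, ∑ l, s a k l * R k l i y = (A *ᵥ y) i)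
    (k l i a b : Fin n) {y : Fin n → ℝ} (hy : y ≠ 0) : pk a (pk b (R k l i)) y = 0 := by
  obtain ⟨r, hr, Om, s, B, hOm, hli, hRe⟩ := t_STR n hn R hR hsm
  have hg := good n r hr Om hOm hli
  -- the fields
  set f : Fin r → Fin n → (Fin n → ℝ) → ℝ := fun a i y => ∑ p, ∑ q, s a p q * R p q i y with hf
  have hdiff : ∀ {g : (Fin n → ℝ) → ℝ}, Smo g → ∀ {y : Fin n → ℝ}, y ≠ 0 →
      DifferentiableAt ℝ g y := fun hg y hy => (hg y hy).differentiableAt (by simp)
  have hfs : ∀ a i, Smo (f a i) := fun a i y hy =>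
    ContDiffAt.sum fun p _ => ContDiffAt.sum fun q _ => contDiffAt_const.mul (hs p q i y hy)
  have hfh : ∀ a i, HomD 1 (f a i) := by
    intro a i y hy t ht
    simp only [hf, Finset.mul_sum]
    refine Finset.sum_congr rfl fun p _ => Finset.sum_congr rfl fun q _ => ?_
    rw [hh p q i y hy t ht]
    ring
  have hne : ∀ y : Fin n → ℝ, y ≠ 0 → ∀ᶠ z in 𝓝 y, z ≠ 0 := fun y hy =>
    isOpen_ne.mem_nhds hy
  have hpk : ∀ j k l i, ∀ y, y ≠ 0 → pk j (R k l i) y =
      ∑ a, Om a k l * pk j (f a i) y + B k l i j := by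
    intro j k l i y hy
    have e1 : R k l i =ᶠ[𝓝 y] fun y => ∑ a, Om a k l * f a i y + (B k l *ᵥ y) i := by
      filter_upwards [hne y hy] with z hz using hRe k l i z hz
    have d1 : ∀ a, HasFDerivAt (fun y => Om a k l * f a i y)
        (Om a k l • fderiv ℝ (f a i) y) y := fun a =>
      (hdiff (hfs a i) hy).hasFDerivAt.const_mul _
    have d2 : HasFDerivAt (fun y : Fin n → ℝ => (B k l *ᵥ y) i)
        ((ContinuousLinearMap.proj i).comp (Matrix.toLin' (B k l)).toContinuousLinearMap) y := by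
      have := ((ContinuousLinearMap.proj (R := ℝ) (φ := fun _ : Fin n => ℝ) i).comp
        (Matrix.toLin' (B k l)).toContinuousLinearMap).hasFDerivAt (x := y)
      exact this
    have d3 : HasFDerivAt (fun y => ∑ a, Om a k l * f a i y)
        (∑ a, Om a k l • fderiv ℝ (f a i) y) y := by
      exact HasFDerivAt.fun_sum (u := Finset.univ) fun a _ => d1 a
    have d4 := d3.fun_add d2
    unfold pk
    rw [e1.fderiv_eq, d4.fderiv]
    simp only [_root_.add_apply, ContinuousLinearMap.sum_apply, _root_.smul_apply, smul_eq_mul,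
      ContinuousLinearMap.comp_apply, ContinuousLinearMap.proj_apply,
      LinearMap.coe_toContinuousLinearMap', Matrix.toLin'_apply, Matrix.mulVec_single,
      MulOpposite.op_one, one_smul, Matrix.col_apply]
  have hfl : ∀ a i b d y, y ≠ 0 → pk b (pk d (f a i)) y = 0 := by
    intro a i
    refine lin n r hn Om hg (fun a => f a i) (fun a => hfs a i) (fun a => hfh a i)
      (fun j k l => -(B k l i j + B l j i k + B j k i l)) (fun y hy j k l => ?_) a
    have h1 := hB y hy j k l i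
    rw [hpk j k l i y hy, hpk k l j i y hy, hpk l j k i y hy] at h1
    rw [Finset.sum_add_distrib, Finset.sum_add_distrib]
    linarith
  have e2 : pk b (R k l i) =ᶠ[𝓝 y] fun y => ∑ c, Om c k l * pk b (f c i) y + B k l i b := by
    filter_upwards [hne y hy] with z hz using hpk b k l i z hz
  have hsd : ∀ c, DifferentiableAt ℝ (pk b (f c i)) y := by
    intro c
    have h1 : ContDiffAt ℝ ∞ (fderiv ℝ (f c i)) y := (hfs c i y hy).fderiv_right (by simp)
    exact (h1.clm_apply contDiffAt_const).differentiableAt (by simp)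
  have d5 : HasFDerivAt (fun y => ∑ c, Om c k l * pk b (f c i) y + B k l i b)
      (∑ c, Om c k l • fderiv ℝ (pk b (f c i)) y) y := by
    exact (HasFDerivAt.fun_sum (u := Finset.univ) fun c _ =>
      (hsd c).hasFDerivAt.const_mul (Om c k l)).add_const (B k l i b)
  change fderiv ℝ (pk b (R k l i)) y (Pi.single a 1) = 0
  rw [e2.fderiv_eq, d5.fderiv]
  simp only [ContinuousLinearMap.sum_apply, _root_.smul_apply, smul_eq_mul]
  refine Finset.sum_eq_zero fun c _ => ?_
  have := hfl c i a b y hy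
  rw [show fderiv ℝ (pk b (f c i)) y (Pi.single a 1) = pk a (pk b (f c i)) y from rfl, this,
    mul_zero]

end Pool.Agent.H792.KG
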