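import Mathlib

/-!
# Constant coefficient systems `∑_a Om_a ∧ d f_a = c` for functions of degree one: definitions and
statements of the pieces
-/

set_option autoImplicit false

open scoped BigOperators ContDiff Topology Matrix
open MeasureTheory

noncomputable section

namespace Pool.Agent.H792.KG

/-- the partial derivative -/
def pk {n : ℕ} (k : Fin n) (f : (Fin n → ℝ) → ℝ) : (Fin n → ℝ) → ℝ :=
  fun y => fderiv ℝ f y (Pi.single k (1 : ℝ))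

/-- iterated partial derivatives -/
def pks {n : ℕ} : List (Fin n) → ((Fin n → ℝ) → ℝ) → ((Fin n → ℝ) → ℝ)
  | [], f => f
  | k :: L, f => pk k (pks L f)

/-- smooth off the origin -/
def Smo {n : ℕ} (f : (Fin n → ℝ) → ℝ) : Prop := ∀ y, y ≠ 0 → ContDiffAt ℝ ∞ f y

/-- positively homogeneous of degree `m` off the origin -/
def HomD {n : ℕ} (m : ℤ) (f : (Fin n → ℝ) → ℝ) : Prop :=
  ∀ y, y ≠ 0 → ∀ t : ℝ, 0 < t → f (t • y) = t ^ m * f y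

/-- the convolution of `f` with `ρ` -/
def mol {n : ℕ} (ρ f : (Fin n → ℝ) → ℝ) (y : Fin n → ℝ) : ℝ := ∫ z, ρ (y - z) * f z

/-- a test function -/
def Test {n : ℕ} (ρ : (Fin n → ℝ) → ℝ) : Prop := ContDiff ℝ ∞ ρ ∧ HasCompactSupport ρ

/-- the covector `ξ` is not characteristic: `ξ ∧ ∑_a z_a Om_a = 0` only for `z = 0` -/
def Good {n r : ℕ} (Om : Fin r → Fin n → Fin n → ℝ) (ξ : Fin n → ℝ) : Prop :=
  ∀ z : Fin r → ℝ, (∀ j k l, ∑ a, z a * (Om a k l * ξ j + Om a l j * ξ k + Om a j k * ξ l) = 0) →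
    z = 0

/-- GOOD: good covectors are dense if `r ≤ n - 2` -/
def S_GOOD : Prop := ∀ (n r : ℕ), r + 2 ≤ n → ∀ Om : Fin r → Fin n → Fin n → ℝ,
  (∀ a k l, Om a k l = - Om a l k) → LinearIndependent ℝ Om →
  ∀ U : Set (Fin n → ℝ), IsOpen U → U.Nonempty → ∃ ξ ∈ U, Good Om ξ

/-- EXG: good covectors exist if `r ≤ n - 2` (coordinate free) -/
def S_EXG : Prop := ∀ (V : Type) [AddCommGroup V] [Module ℝ V] [FiniteDimensional ℝ V]
  (O : Submodule ℝ (V →ₗ[ℝ] V →ₗ[ℝ] ℝ)), (∀ Ω ∈ O, ∀ v, Ω v v = 0) →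
  Module.finrank ℝ O + 2 ≤ Module.finrank ℝ V →
  ∃ ξ : V →ₗ[ℝ] ℝ, ∀ Ω ∈ O, (∀ u v, ξ u = 0 → ξ v = 0 → Ω u v = 0) → Ω = 0

/-- FOUR: integrable solutions of the system vanish -/
def S_FOUR : Prop := ∀ (n r : ℕ) (Om : Fin r → Fin n → Fin n → ℝ),
  (∀ U : Set (Fin n → ℝ), IsOpen U → U.Nonempty → ∃ ξ ∈ U, Good Om ξ) →
  ∀ h : Fin r → (Fin n → ℝ) → ℝ, (∀ a, ContDiff ℝ 1 (h a)) → (∀ a, Integrable (h a)) →
  (∀ a j, Integrable (pk j (h a))) →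
  (∀ y j k l, ∑ a, (Om a k l * pk j (h a) y + Om a l j * pk k (h a) y + Om a j k * pk l (h a) y) = 0)
  → ∀ a y, h a y = 0

/-- MOL: derivatives of the convolution -/
def S_MOL : Prop := ∀ (n : ℕ), 1 ≤ n → ∀ f : (Fin n → ℝ) → ℝ, Smo f → HomD 1 f →
  ∀ ρ : (Fin n → ℝ) → ℝ, Test ρ →
  ContDiff ℝ ∞ (mol ρ f) ∧ (∀ L : List (Fin n), pks L (mol ρ f) = mol (pks L ρ) f) ∧
  (2 ≤ n → ∀ j y, pk j (mol ρ f) y = mol ρ (pk j f) y)

/-- INT: higher derivatives of the convolution are integrable -/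
def S_INT : Prop := ∀ (n : ℕ), 1 ≤ n → ∀ f : (Fin n → ℝ) → ℝ, Smo f → HomD 1 f →
  ∀ ρ : (Fin n → ℝ) → ℝ, Test ρ → ∀ L : List (Fin n), n + 2 ≤ L.length →
  Integrable (pks L (mol ρ f))

/-- LIM: if the derivatives of all convolutions vanish, so do those of the function -/
def S_LIM : Prop := ∀ (n : ℕ), 1 ≤ n → ∀ f : (Fin n → ℝ) → ℝ, Smo f → HomD 1 f →
  ∀ L : List (Fin n), (∀ ρ : (Fin n → ℝ) → ℝ, Test ρ → ∀ y, pks L (mol ρ f) y = 0) →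
  ∀ y, y ≠ 0 → pks L f y = 0

/-- DESC: from higher derivatives to second derivatives -/
def S_DESC : Prop := ∀ (n : ℕ), 2 ≤ n → ∀ f : (Fin n → ℝ) → ℝ, Smo f → HomD 1 f → ∀ k : ℕ, 2 ≤ k →
  (∀ L : List (Fin n), L.length = k → ∀ y, y ≠ 0 → pks L f y = 0) →
  ∀ a b y, y ≠ 0 → pk a (pk b f) y = 0

/-- STR: the structure of a family of fields of small rank modulo linear fields -/
def S_STR : Prop := ∀ (n : ℕ), 2 ≤ n → ∀ R : Fin n → Fin n → Fin n → (Fin n → ℝ) → ℝ,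
  (∀ k l i y, R k l i y = - R l k i y) →
  (∀ s : Fin (n - 1) → Fin n → Fin n → ℝ, ∃ c : Fin (n - 1) → ℝ, c ≠ 0 ∧
    ∃ A : Matrix (Fin n) (Fin n) ℝ, ∀ y, y ≠ 0 → ∀ i,
      ∑ a, c a * ∑ k, ∑ l, s a k l * R k l i y = (A *ᵥ y) i) →
  ∃ (r : ℕ) (_ : r + 2 ≤ n) (Om s : Fin r → Fin n → Fin n → ℝ)
    (B : Fin n → Fin n → Matrix (Fin n) (Fin n) ℝ), (∀ a k l, Om a k l = - Om a l k) ∧
    LinearIndependent ℝ Om ∧ ∀ k l i y, y ≠ 0 →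
      R k l i y = ∑ a, Om a k l * (∑ p, ∑ q, s a p q * R p q i y) + (B k l *ᵥ y) i

/-- LIN: solutions of degree one of the system are linear -/
def S_LIN : Prop := ∀ (n r : ℕ), 2 ≤ n → ∀ Om : Fin r → Fin n → Fin n → ℝ,
  (∀ U : Set (Fin n → ℝ), IsOpen U → U.Nonempty → ∃ ξ ∈ U, Good Om ξ) →
  ∀ f : Fin r → (Fin n → ℝ) → ℝ, (∀ a, Smo (f a)) → (∀ a, HomD 1 (f a)) →
  ∀ c : Fin n → Fin n → Fin n → ℝ,
  (∀ y, y ≠ 0 → ∀ j k l, ∑ a, (Om a k l * pk j (f a) y + Om a l j * pk k (f a) y +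
    Om a j k * pk l (f a) y) = c j k l) →
  ∀ a b d y, y ≠ 0 → pk b (pk d (f a)) y = 0

end Pool.Agent.H792.KG
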