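import Pool.Agent.H792.KG.ManiDefs
import Pool.Agent.H792.KF.Mani

/-!
# Landsberg manifolds with cocompact local isometries
-/

set_option autoImplicit false

open scoped BigOperators ContDiff Topology Matrix Manifold
open Filter Set

namespace Pool.Agent.H792.KG

open Pool.Agent.R774.BW Pool.Agent.H792.Gen Pool.Agent.H792.LF Pool.Agent.H792.KF

variable {n : ℕ}

section transition

variable {M : Type*} [TopologicalSpace M] [ChartedSpace (Fin n → ℝ) M]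
  [IsManifold 𝓘(ℝ, Fin n → ℝ) ∞ M] {F : TangentBundle 𝓘(ℝ, Fin n → ℝ) M → ℝ}

/-- the domain of a local isometry in charts -/
def dom' (e e' : OpenPartialHomeomorph M (Fin n → ℝ)) (φ : M → M) (O : Set M) :
    Set (Fin n → ℝ) :=
  e.target ∩ e.symm ⁻¹' (O ∩ φ ⁻¹' e'.source)

theorem iso_data {e e' : OpenPartialHomeomorph M (Fin n → ℝ)}
    (he : e ∈ atlas (Fin n → ℝ) M) (he' : e' ∈ atlas (Fin n → ℝ) M)
    (hF : ∀ e ∈ atlas (Fin n → ℝ) M, IsFinsler e.target (loc F e)) {φ : M → M} {O : Set M}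
    (hO : IsOpen O) (hφ : ContMDiffOn 𝓘(ℝ, Fin n → ℝ) 𝓘(ℝ, Fin n → ℝ) ∞ φ O)
    (hiso : ∀ q ∈ O, ∀ v : TangentSpace 𝓘(ℝ, Fin n → ℝ) q,
      F (tangentMap 𝓘(ℝ, Fin n → ℝ) 𝓘(ℝ, Fin n → ℝ) φ ⟨q, v⟩) = F ⟨q, v⟩) :
    Trans e.target e'.target (dom' e e' φ O) (e' ∘ φ ∘ e.symm) (loc F e) (loc F e') := by
  have : IsManifold 𝓘(ℝ, Fin n → ℝ) 1 M := IsManifold.of_le (n := ∞) (by simp)
  have hopen : IsOpen (dom' e e' φ O) := by
    have h1 : IsOpen (O ∩ φ ⁻¹' e'.source) := hφ.continuousOn.isOpen_inter_preimage hO e'.open_source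
    exact e.isOpen_inter_preimage_symm h1
  have hsm : ContMDiffOn 𝓘(ℝ, Fin n → ℝ) 𝓘(ℝ, Fin n → ℝ) ∞ (e' ∘ φ ∘ e.symm)
      (dom' e e' φ O) := by
    have h1 := contMDiffOn_of_mem_maximalAtlas (I := 𝓘(ℝ, Fin n → ℝ)) (n := ∞)
      (IsManifold.subset_maximalAtlas he')
    have h2 := contMDiffOn_symm_of_mem_maximalAtlas (I := 𝓘(ℝ, Fin n → ℝ)) (n := ∞)
      (IsManifold.subset_maximalAtlas he)
    have h3 : ContMDiffOn 𝓘(ℝ, Fin n → ℝ) 𝓘(ℝ, Fin n → ℝ) ∞ (φ ∘ e.symm) (dom' e e' φ O) :=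
      hφ.comp (h2.mono inter_subset_left) fun x hx => hx.2.1
    exact h1.comp h3 fun x hx => hx.2.2
  have hsm' : ContDiffOn ℝ ∞ (e' ∘ φ ∘ e.symm) (dom' e e' φ O) := contMDiffOn_iff_contDiffOn.1 hsm
  -- the key formula
  have key : ∀ x ∈ dom' e e' φ O, ∀ y : Fin n → ℝ,
      loc F e x y = loc F e' ((e' ∘ φ ∘ e.symm) x) (fderiv ℝ (e' ∘ φ ∘ e.symm) x y) := by
    intro x hx y
    set p : M := e.symm x with hp
    have hpO : p ∈ O := hx.2.1
    have hpt : e'.symm ((e' ∘ φ ∘ e.symm) x) = φ p := e'.left_inv hx.2.2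
    have hd : DifferentiableAt ℝ (e' ∘ φ ∘ e.symm) x :=
      (hsm'.contDiffAt (hopen.mem_nhds hx)).differentiableAt (by simp)
    have hmd : MDifferentiableAt 𝓘(ℝ, Fin n → ℝ) 𝓘(ℝ, Fin n → ℝ) (e' ∘ φ ∘ e.symm) x :=
      hd.mdifferentiableAt
    have hmd2 : MDifferentiableAt 𝓘(ℝ, Fin n → ℝ) 𝓘(ℝ, Fin n → ℝ) e'.symm
        ((e' ∘ φ ∘ e.symm) x) := mdifferentiableAt_atlas_symm he' (e'.map_source hx.2.2)
    have h1 := mfderiv_comp_apply (I := 𝓘(ℝ, Fin n → ℝ)) (I' := 𝓘(ℝ, Fin n → ℝ))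
      (I'' := 𝓘(ℝ, Fin n → ℝ)) x hmd2 hmd y
    have hmd3 : MDifferentiableAt 𝓘(ℝ, Fin n → ℝ) 𝓘(ℝ, Fin n → ℝ) e.symm x :=
      mdifferentiableAt_atlas_symm he hx.1
    have hmd4 : MDifferentiableAt 𝓘(ℝ, Fin n → ℝ) 𝓘(ℝ, Fin n → ℝ) φ p :=
      ((hφ p hpO).contMDiffAt (hO.mem_nhds hpO)).mdifferentiableAt (by simp)
    have h1' := mfderiv_comp_apply (I := 𝓘(ℝ, Fin n → ℝ)) (I' := 𝓘(ℝ, Fin n → ℝ))
      (I'' := 𝓘(ℝ, Fin n → ℝ)) x hmd4 hmd3 y
    have h2 : φ ∘ e.symm =ᶠ[𝓝 x] e'.symm ∘ (e' ∘ φ ∘ e.symm) := by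
      filter_upwards [hopen.mem_nhds hx] with z hz
      simp only [Function.comp]
      rw [e'.left_inv hz.2.2]
    have h3 := h2.mfderiv_eq (I := 𝓘(ℝ, Fin n → ℝ)) (I' := 𝓘(ℝ, Fin n → ℝ))
    have hFF : ∀ (p p' : M) (_ : p = p') (v : Fin n → ℝ), F ⟨p, v⟩ = F ⟨p', v⟩ := by
      rintro p p' rfl v
      rfl
    have h5 : (mfderiv 𝓘(ℝ, Fin n → ℝ) 𝓘(ℝ, Fin n → ℝ) (e' ∘ φ ∘ e.symm) x :
        (Fin n → ℝ) →L[ℝ] (Fin n → ℝ)) = fderiv ℝ (e' ∘ φ ∘ e.symm) x := mfderiv_eq_fderiv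
    have h6 : (mfderiv 𝓘(ℝ, Fin n → ℝ) 𝓘(ℝ, Fin n → ℝ) (φ ∘ e.symm) x :
        (Fin n → ℝ) →L[ℝ] (Fin n → ℝ)) y = (mfderiv 𝓘(ℝ, Fin n → ℝ) 𝓘(ℝ, Fin n → ℝ) e'.symm
        ((e' ∘ φ ∘ e.symm) x) : (Fin n → ℝ) →L[ℝ] (Fin n → ℝ))
        (fderiv ℝ (e' ∘ φ ∘ e.symm) x y) := by
      rw [← h5]
      exact (congrArg (fun T : (Fin n → ℝ) →L[ℝ] (Fin n → ℝ) => T y) h3).trans h1
    have h7 := hiso p hpO (mfderiv 𝓘(ℝ, Fin n → ℝ) 𝓘(ℝ, Fin n → ℝ) e.symm x y)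
    have h8 : F ⟨φ p, (mfderiv 𝓘(ℝ, Fin n → ℝ) 𝓘(ℝ, Fin n → ℝ) (φ ∘ e.symm) x :
        (Fin n → ℝ) →L[ℝ] (Fin n → ℝ)) y⟩ = loc F e x y := by
      refine Eq.trans ?_ h7
      exact congrArg (fun v : Fin n → ℝ => F ⟨φ p, v⟩) h1'
    rw [← h8]
    exact (hFF _ _ hpt.symm _).trans (congrArg (fun v : Fin n → ℝ =>
      F ⟨e'.symm ((e' ∘ φ ∘ e.symm) x), v⟩) h6)
  refine ⟨hopen, inter_subset_left, hsm', fun x hx => e'.map_source hx.2.2, ?_,
    fun x hx y _ => key x hx y⟩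
  intro x hx v hv
  by_contra hne
  have h1 := key x hx v
  have h2 := key x hx ((2:ℝ) • v)
  rw [hv] at h1
  rw [map_smul, hv, smul_zero, ← h1, (hF e he).hom x hx.1 v 2 (by norm_num)] at h2
  have h3 := (hF e he).pos x hx.1 v hne
  linarith

end transition

section closed

variable {M : Type*} [TopologicalSpace M] [ChartedSpace (Fin n → ℝ) M]
  [IsManifold 𝓘(ℝ, Fin n → ℝ) ∞ M]
  {F : TangentBundle 𝓘(ℝ, Fin n → ℝ) M → ℝ}
  {G : OpenPartialHomeomorph M (Fin n → ℝ) → (Fin n → ℝ) → (Fin n → ℝ) → (Fin n → ℝ)}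
  (hK : Cocompact F)
  (hF : ∀ e ∈ atlas (Fin n → ℝ) M, IsFinsler e.target (loc F e))
  (hG : ∀ e ∈ atlas (Fin n → ℝ) M, IsSpray e.target (loc F e) (G e))
  (hL : ∀ e ∈ atlas (Fin n → ℝ) M, IsLandsberg e.target (loc F e) (G e))
  (hP : ∀ e ∈ atlas (Fin n → ℝ) M, ∀ x ∈ e.target, Para (G e) x)

include hK hF hG

/-- the function attains its maximum -/
theorem exists_max (s : ℝ) (p₀ : M) {y₀ : Fin n → ℝ} (hy₀ : y₀ ≠ 0) :
    ∃ e ∈ atlas (Fin n → ℝ) M, ∃ x ∈ e.target, ∃ y w : Fin n → ℝ, y ≠ 0 ∧ w ≠ 0 ∧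
      ∀ e' ∈ atlas (Fin n → ℝ) M, ∀ x' ∈ e'.target, ∀ y' w' : Fin n → ℝ, y' ≠ 0 → w' ≠ 0 →
        s * Phi (loc F e') (G e') x' y' w' ≤ s * Phi (loc F e) (G e) x y w := by
  obtain ⟨KK, hKK, hmove⟩ := hK
  -- balls in charts
  have hball : ∀ p : M, ∃ r > 0, Metric.closedBall (chartAt (Fin n → ℝ) p p) r ⊆
      (chartAt (Fin n → ℝ) p).target := fun p =>
    Metric.nhds_basis_closedBall.mem_iff.1
      ((chartAt (Fin n → ℝ) p).open_target.mem_nhds (mem_chart_target _ p))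
  choose r hr hrb using hball
  obtain ⟨T, -, hT⟩ := hKK.elim_nhds_subcover
    (fun p : M => (chartAt (Fin n → ℝ) p).source ∩ chartAt (Fin n → ℝ) p ⁻¹'
      Metric.ball (chartAt (Fin n → ℝ) p p) (r p)) (fun p _ => by
        refine ((chartAt (Fin n → ℝ) p).isOpen_inter_preimage Metric.isOpen_ball).mem_nhds
          ⟨mem_chart_source _ p, ?_⟩
        exact Metric.mem_ball_self (hr p))
  -- compact sets
  set K : M → Set ((Fin n → ℝ) × (Fin n → ℝ) × (Fin n → ℝ)) := fun p =>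
    Metric.closedBall (chartAt (Fin n → ℝ) p p) (r p) ×ˢ
      (Metric.sphere (0 : Fin n → ℝ) 1 ×ˢ Metric.sphere (0 : Fin n → ℝ) 1) with hK
  have hKc : ∀ p, IsCompact (K p) := fun p =>
    (isCompact_closedBall _ _).prod ((isCompact_sphere _ _).prod (isCompact_sphere _ _))
  have hy1 : (‖y₀‖⁻¹ • y₀) ∈ Metric.sphere (0 : Fin n → ℝ) 1 := by
    rw [mem_sphere_zero_iff_norm, norm_smul, norm_inv, norm_norm,
      inv_mul_cancel₀ (norm_ne_zero_iff.2 hy₀)]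
  have hKn : ∀ p, (K p).Nonempty := fun p =>
    ⟨(chartAt (Fin n → ℝ) p p, ‖y₀‖⁻¹ • y₀, ‖y₀‖⁻¹ • y₀),
      Metric.mem_closedBall_self (hr p).le, hy1, hy1⟩
  have hne : ∀ z ∈ Metric.sphere (0 : Fin n → ℝ) 1, z ≠ 0 := by
    intro z hz h0
    rw [mem_sphere_zero_iff_norm, h0, norm_zero] at hz
    exact zero_ne_one hz
  have hcont : ∀ p, ContinuousOn (fun u : (Fin n → ℝ) × (Fin n → ℝ) × (Fin n → ℝ) =>
      s * Phi (loc F (chartAt (Fin n → ℝ) p)) (G (chartAt (Fin n → ℝ) p)) u.1 u.2.1 u.2.2)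
      (K p) := by
    intro p u hu
    have hc := Phi_cont (hF _ (chart_mem_atlas _ p)) (hG _ (chart_mem_atlas _ p))
      (hrb p hu.1) (hne _ hu.2.1) (hne _ hu.2.2)
    exact (continuousAt_const.mul hc).continuousWithinAt
  have hmax : ∀ p, ∃ u ∈ K p, ∀ v ∈ K p,
      s * Phi (loc F (chartAt (Fin n → ℝ) p)) (G (chartAt (Fin n → ℝ) p)) v.1 v.2.1 v.2.2 ≤
      s * Phi (loc F (chartAt (Fin n → ℝ) p)) (G (chartAt (Fin n → ℝ) p)) u.1 u.2.1 u.2.2 := by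
    intro p
    obtain ⟨u, hu, hmx⟩ := (hKc p).exists_isMaxOn (hKn p) (hcont p)
    exact ⟨u, hu, fun v hv => hmx hv⟩
  choose u huK hu using hmax
  have hTn : T.Nonempty := by
    by_contra h
    rw [Finset.not_nonempty_iff_eq_empty] at h
    rw [h] at hT
    simp only [Finset.notMem_empty, iUnion_of_empty, iUnion_empty] at hT
    obtain ⟨φ, -, hφ⟩ := hmove p₀
    exact hT hφ
  obtain ⟨p, hp, hpm⟩ := T.exists_max_image (fun p =>
    s * Phi (loc F (chartAt (Fin n → ℝ) p)) (G (chartAt (Fin n → ℝ) p)) (u p).1 (u p).2.1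
      (u p).2.2) hTn
  refine ⟨chartAt (Fin n → ℝ) p, chart_mem_atlas _ p, (u p).1, hrb p (huK p).1, (u p).2.1,
    (u p).2.2, hne _ (huK p).2.1, hne _ (huK p).2.2, fun e' he' x' hx' y' w' hy' hw' => ?_⟩
  -- move the point into the compact set
  obtain ⟨φ, ⟨O, hO, hpO, hφs, hφi⟩, hφK⟩ := hmove (e'.symm x')
  have hmem := hT hφK
  simp only [mem_iUnion] at hmem
  obtain ⟨m, hm, hmem⟩ := hmem
  have htr := iso_data (F := F) he' (chart_mem_atlas (Fin n → ℝ) m) hF hO hφs hφi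
  have hxd : x' ∈ dom' e' (chartAt (Fin n → ℝ) m) φ O := ⟨hx', hpO, hmem.1⟩
  rw [htr.Phi_eq (hF e' he') (hF _ (chart_mem_atlas _ m)) (hG e' he')
    (hG _ (chart_mem_atlas _ m)) hxd hy' w']
  set L := fderiv ℝ (chartAt (Fin n → ℝ) m ∘ φ ∘ e'.symm) x' with hLdef
  have hLy : L y' ≠ 0 := fun h => hy' (htr.inj x' hxd y' h)
  have hLw : L w' ≠ 0 := fun h => hw' (htr.inj x' hxd w' h)
  have hsc := Phi_scale (hF _ (chart_mem_atlas _ m)) (hG _ (chart_mem_atlas _ m))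
    (w := L w') (htr.maps x' hxd) hLy (inv_pos.2 (norm_pos_iff.2 hLy))
    (inv_pos.2 (norm_pos_iff.2 hLw))
  rw [← hsc]
  refine le_trans (hu m ((chartAt (Fin n → ℝ) m ∘ φ ∘ e'.symm) x', ‖L y'‖⁻¹ • L y',
    ‖L w'‖⁻¹ • L w') ⟨Metric.ball_subset_closedBall hmem.2, ?_, ?_⟩) (hpm m hm)
  · rw [mem_sphere_zero_iff_norm, norm_smul, norm_inv, norm_norm,
      inv_mul_cancel₀ (norm_ne_zero_iff.2 hLy)]
  · rw [mem_sphere_zero_iff_norm, norm_smul, norm_inv, norm_norm,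
      inv_mul_cancel₀ (norm_ne_zero_iff.2 hLw)]

include hL hP

/-- one-sided bound -/
theorem Phi_le (s : ℝ) {e₀ : OpenPartialHomeomorph M (Fin n → ℝ)}
    (he₀ : e₀ ∈ atlas (Fin n → ℝ) M) {x₀ y₀ w₀ : Fin n → ℝ} (hx₀ : x₀ ∈ e₀.target) (hy₀ : y₀ ≠ 0)
    (hw₀ : w₀ ≠ 0) (hs : s ≠ 0) : s * Phi (loc F e₀) (G e₀) x₀ y₀ w₀ ≤ 0 := by
  obtain ⟨e, he, x, hx, y, w, hy, hw, hmax⟩ := exists_max hK hF hG s (e₀.symm x₀) hy₀
  have hder := (path_Phi (hF e he) (hG e he) (hL e he) (hP e he x hx) hx hy hw).const_mul s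
  have hloc : IsLocalMax (fun t : ℝ => s * Phi (loc F e) (G e) (x + t • y)
      (y + t • (-(2:ℝ) • G e x y)) (w + t • (-Nw (G e) w x y))) 0 := by
    have c1 : ∀ (p v : Fin n → ℝ) (O : Set (Fin n → ℝ)), IsOpen O → p ∈ O →
        ∀ᶠ t : ℝ in 𝓝 0, p + t • v ∈ O := by
      intro p v O hO hp
      have hc : ContinuousAt (fun t : ℝ => p + t • v) 0 := by fun_prop
      refine hc.eventually (hO.mem_nhds ?_)
      simpa using hp
    filter_upwards [c1 x y e.target e.open_target hx,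
      c1 y (-(2:ℝ) • G e x y) _ isOpen_ne0 hy, c1 w (-Nw (G e) w x y) _ isOpen_ne0 hw]
      with t h1 h2 h3
    have := hmax e he _ h1 _ _ h2 h3
    simpa using this
  have hzero := hloc.hasDerivAt_eq_zero hder
  have hFp := (hF e he).pos x hx y hy
  have hap := al_pos (hF e he) hx hy hw
  have hb : bl (loc F e) (G e) w x y = 0 := by
    have h1 := (mul_eq_zero.1 hzero).resolve_left hs
    rcases div_eq_zero_iff.1 h1 with h2 | h2
    · rcases mul_eq_zero.1 h2 with h3 | h3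
      · exfalso
        have : 0 < loc F e x y ^ 3 := pow_pos hFp 3
        linarith
      · exact pow_eq_zero_iff (two_ne_zero) |>.1 h3
    · exfalso
      exact (pow_ne_zero 4 hap.ne') h2
  have h0 : Phi (loc F e) (G e) x y w = 0 := by
    unfold Phi
    rw [hb]
    simp
  have := hmax e₀ he₀ x₀ hx₀ y₀ w₀ hy₀ hw₀
  rw [h0, mul_zero] at this
  exact this

/-- if the Berwald curvature is parallel along the geodesic flow then it vanishes -/
theorem closed_core {e : OpenPartialHomeomorph M (Fin n → ℝ)} (he : e ∈ atlas (Fin n → ℝ) M)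
    {x y : Fin n → ℝ} (hx : x ∈ e.target) (hy : y ≠ 0) (i j k l : Fin n) :
    berwald (G e) x y i j k l = 0 := by
  have hzero : ∀ x ∈ e.target, ∀ y, y ≠ 0 → ∀ w, w ≠ 0 → Phi (loc F e) (G e) x y w = 0 := by
    intro x hx y hy w hw
    have h1 := Phi_le hK hF hG hL hP 1 he hx hy hw one_ne_zero
    have h2 := Phi_le hK hF hG hL hP (-1) he hx hy hw (by norm_num)
    linarith
  refine berwald_of_bl (hF e he) (hG e he) (hL e he) hx hy (fun w hw => ?_) i j k l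
  have hder := path_Phi (hF e he) (hG e he) (hL e he) (hP e he x hx) hx hy hw
  have hev : (fun t : ℝ => Phi (loc F e) (G e) (x + t • y)
      (y + t • (-(2:ℝ) • G e x y)) (w + t • (-Nw (G e) w x y))) =ᶠ[𝓝 0] fun _ => 0 := by
    have c1 : ∀ (p v : Fin n → ℝ) (O : Set (Fin n → ℝ)), IsOpen O → p ∈ O →
        ∀ᶠ t : ℝ in 𝓝 0, p + t • v ∈ O := by
      intro p v O hO hp
      have hc : ContinuousAt (fun t : ℝ => p + t • v) 0 := by fun_prop
      refine hc.eventually (hO.mem_nhds ?_)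
      simpa using hp
    filter_upwards [c1 x y e.target e.open_target hx,
      c1 y (-(2:ℝ) • G e x y) _ isOpen_ne0 hy, c1 w (-Nw (G e) w x y) _ isOpen_ne0 hw]
      with t h1 h2 h3
    exact hzero _ h1 _ h2 _ h3
  have h1 := (hder.congr_of_eventuallyEq hev.symm).unique (hasDerivAt_const (0:ℝ) (0:ℝ))
  have hFp := (hF e he).pos x hx y hy
  have hap := al_pos (hF e he) hx hy hw
  rcases div_eq_zero_iff.1 h1 with h2 | h2
  · rcases mul_eq_zero.1 h2 with h3 | h3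
    · exfalso
      have : 0 < loc F e x y ^ 3 := pow_pos hFp 3
      linarith
    · exact pow_eq_zero_iff (two_ne_zero) |>.1 h3
  · exfalso
    exact (pow_ne_zero 4 hap.ne') h2

end closed

section final

variable {M : Type*} [TopologicalSpace M] [ChartedSpace (Fin n → ℝ) M]
  [IsManifold 𝓘(ℝ, Fin n → ℝ) ∞ M]

/-- **Landsberg manifolds with cocompact local isometries and linear curvature are Berwald
manifolds** -/
theorem cocompact_main {F : TangentBundle 𝓘(ℝ, Fin n → ℝ) M → ℝ} (hK : Cocompact F)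
    (hF : IsFinslerMetric F) (hL : IsLandsbergMetric F)
    (h : ∀ e ∈ atlas (Fin n → ℝ) M, ∀ G, IsSpray e.target (loc F e) G → ∀ x ∈ e.target,
      RLin G x ∨ ∀ y, y ≠ 0 → ∀ i j k l, berwald G x y i j k l = 0) : IsBerwaldMetric F := by
  classical
  intro e₀ he₀ G₀ hG₀ x hx y hy i j k l
  have hex : ∀ e : OpenPartialHomeomorph M (Fin n → ℝ), ∃ G, e ∈ atlas (Fin n → ℝ) M →
      IsSpray e.target (loc F e) G := by
    intro e
    by_cases he : e ∈ atlas (Fin n → ℝ) M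
    · obtain ⟨G, hG⟩ := exists_spray (hF e he)
      exact ⟨G, fun _ => hG⟩
    · exact ⟨fun _ _ => 0, fun h => absurd h he⟩
  choose G' hG' using hex
  set G : OpenPartialHomeomorph M (Fin n → ℝ) → (Fin n → ℝ) → (Fin n → ℝ) → (Fin n → ℝ) :=
    Function.update G' e₀ G₀ with hGdef
  have hG : ∀ e ∈ atlas (Fin n → ℝ) M, IsSpray e.target (loc F e) (G e) := by
    intro e he
    by_cases h0 : e = e₀
    · subst h0
      rw [hGdef, Function.update_self]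
      exact hG₀
    · rw [hGdef, Function.update_of_ne h0]
      exact hG' e he
  have h1 := closed_core hK hF hG (fun e he => hL e he (G e) (hG e he))
    (fun e he x hx => para_all (hF e he) (hG e he) (fun x hx => h e he (G e) (hG e he) x hx) hx)
    he₀ hx hy i j k l
  rw [hGdef, Function.update_self] at h1
  exact h1

end final

end Pool.Agent.H792.KG
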