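import Pool.Agent.H792.KF.Mix
import Pool.Agent.H792.KF.Uc

/-!
# A common zero of the curvature fields makes them linear
-/

set_option autoImplicit false

open scoped BigOperators ContDiff Topology Matrix
open Filter Set

namespace Pool.Agent.H792.KG

open Pool.Agent.R774.BW Pool.Agent.H792.Gen Pool.Agent.H792.LF Pool.Agent.H792.KF

variable {n : ℕ}

/-- pair symmetry -/
theorem pair_symm (T : Fin n → Fin n → Fin n → Fin n → ℝ) (h1 : ∀ i j k l, T i j k l = - T j i k l)
    (h2 : ∀ i j k l, T i j k l = - T i j l k)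
    (h3 : ∀ i j k l, T i j k l + T k j l i + T l j i k = 0) (i j k l : Fin n) :
    T i j k l = T k l i j := by
  have a1 := h3 i j k l
  have a2 := h3 j k l i
  have a3 := h3 k l i j
  have a4 := h3 l i j k
  have b1 := h1 i j k l
  have b2 := h1 k j l i
  have b3 := h1 l j i k
  have b4 := h1 j k l i
  have b5 := h1 l k i j
  have b6 := h1 i k j l
  have b7 := h1 k l i j
  have b8 := h1 i l j k
  have b9 := h1 j l k i
  have b10 := h1 l i j k
  have b11 := h1 j i k l
  have b12 := h1 k i l j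
  have c1 := h2 i j k l
  have c2 := h2 k j l i
  have c3 := h2 l j i k
  have c4 := h2 j k l i
  have c5 := h2 l k i j
  have c6 := h2 i k j l
  have c7 := h2 k l i j
  have c8 := h2 i l j k
  have c9 := h2 j l k i
  have c10 := h2 l i j k
  have c11 := h2 j i k l
  have c12 := h2 k i l j
  linarith

variable {U : Set (Fin n → ℝ)} {F : (Fin n → ℝ) → (Fin n → ℝ) → ℝ}
  {G : (Fin n → ℝ) → (Fin n → ℝ) → (Fin n → ℝ)}

theorem Rc_anti (v w : Fin n → ℝ) (i : Fin n) (x y : Fin n → ℝ) :
    Rc G v w i x y = - Rc G w v i x y := by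
  unfold Rc
  ring

variable (hF : IsFinsler U F) (hG : IsSpray U F G) (hL : IsLandsberg U F G)

include hF hG hL

/-- **a common zero of the curvature fields makes them linear** -/
theorem lin_of_zero (hn : 2 ≤ n) {x : Fin n → ℝ} (hx : x ∈ U) {y₀ : Fin n → ℝ} (hy₀ : y₀ ≠ 0)
    (h0 : ∀ k l i, Rc G (Pi.single k 1) (Pi.single l 1) i x y₀ = 0)
    (k l i : Fin n) {y : Fin n → ℝ} (hy : y ≠ 0) (a b : Fin n) :
    pd a (pd b (Rc G (Pi.single k 1) (Pi.single l 1) i x)) y = 0 := by
  have hQ := q_mn hF hx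
  have hK : ∀ v w, Kil (q F x) (fun i => Rc G v w i x) := fun v w => Rc_kil hF hG hL v w hx
  have hs : ∀ v w i, Sm (Rc G v w i x) := fun v w i => (Rc_JS hF hG v w i).sm hx
  set S : Fin n → Fin n → Fin n → Fin n → ℝ := fun i j k l =>
    ∑ a, pd a (pd j (q F x)) y₀ * pd i (Rc G (Pi.single k 1) (Pi.single l 1) a x) y₀ with hS
  have s1 : ∀ i j k l, S i j k l = - S j i k l := by
    intro i j k l
    have h := (hK (Pi.single k 1) (Pi.single l 1)).eq y₀ hy₀ i j
    simp only [h0, zero_mul, zero_add, Finset.sum_add_distrib] at h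
    simp only [hS]
    linarith
  have s2 : ∀ i j k l, S i j k l = - S i j l k := by
    intro i j k l
    simp only [hS, ← Finset.sum_neg_distrib]
    refine Finset.sum_congr rfl fun a _ => ?_
    have e : pd i (Rc G (Pi.single k 1) (Pi.single l 1) a x) y₀ =
        - pd i (Rc G (Pi.single l 1) (Pi.single k 1) a x) y₀ := by
      rw [pd_congr (g := fun y => (-1) * Rc G (Pi.single l 1) (Pi.single k 1) a x y)
        (fun y _ => by rw [Rc_anti]; ring) i hy₀, pd_const_mul (hs _ _ _) _ i hy₀]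
      ring
    rw [e]
    ring
  have s3 : ∀ i j k l, S i j k l + S k j l i + S l j i k = 0 := by
    intro i j k l
    simp only [hS, ← Finset.sum_add_distrib]
    refine Finset.sum_eq_zero fun a _ => ?_
    have h := bianchi hF hG hx hy₀ i k l a
    rw [← mul_add, ← mul_add, h, mul_zero]
  have s4 := pair_symm S s1 s2 s3
  -- contraction with `y₀`
  have s5 : ∀ j k l, ∑ i, y₀ i * S i j k l = 0 := by
    intro j k l
    simp only [hS, Finset.mul_sum]
    rw [Finset.sum_comm]
    refine Finset.sum_eq_zero fun a _ => ?_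
    have h := ((hK (Pi.single k 1) (Pi.single l 1)).hom a).euler (hs _ _ _) hy₀
    simp only [h0, mul_zero] at h
    calc ∑ i, y₀ i * (pd a (pd j (q F x)) y₀ * pd i (Rc G (Pi.single k 1) (Pi.single l 1) a x) y₀)
        = pd a (pd j (q F x)) y₀ *
          ∑ i, y₀ i * pd i (Rc G (Pi.single k 1) (Pi.single l 1) a x) y₀ := by
          rw [Finset.mul_sum]; exact Finset.sum_congr rfl fun i _ => by ring
      _ = 0 := by rw [h, mul_zero]
  -- the derivatives of `Z_j = R (y₀, e_j)` vanish at `y₀`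
  have hZ : ∀ v j a, ∀ y, y ≠ 0 → Rc G v (Pi.single j 1) a x y =
      ∑ i, v i * Rc G (Pi.single i 1) (Pi.single j 1) a x y := by
    intro v j a y hy
    rw [Rc_lin hF hG v (Pi.single j 1) a hx hy]
    refine Finset.sum_congr rfl fun i _ => ?_
    rw [Finset.sum_eq_single j]
    · simp
    · intro b _ hb
      simp [Pi.single_eq_of_ne hb]
    · simp
  have hZd : ∀ v j a c, ∀ y, y ≠ 0 → pd c (Rc G v (Pi.single j 1) a x) y =
      ∑ i, v i * pd c (Rc G (Pi.single i 1) (Pi.single j 1) a x) y := by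
    intro v j a c y hy
    rw [pd_congr (fun y hy => hZ v j a y hy) c hy,
      pd_sum (fun i _ => (sm_const (v i)).mul (hs _ _ _)) c hy]
    exact Finset.sum_congr rfl fun i _ => pd_const_mul (hs _ _ _) _ c hy
  have hZ1 : ∀ j a c, pd c (Rc G y₀ (Pi.single j 1) a x) y₀ = 0 := by
    intro j a c
    have h1 : ∀ l, ∑ a, pd a (pd l (q F x)) y₀ * pd c (Rc G y₀ (Pi.single j 1) a x) y₀ = 0 := by
      intro l
      have h2 : ∑ i, y₀ i * S c l i j = 0 := by
        rw [← s5 j c l]
        exact Finset.sum_congr rfl fun i _ => by rw [s4 c l i j]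
      rw [← h2]
      simp only [hS, hZd y₀ j _ c y₀ hy₀, Finset.mul_sum]
      rw [Finset.sum_comm]
      exact Finset.sum_congr rfl fun i _ => Finset.sum_congr rfl fun a _ => by ring
    have h2 : (fun a => pd c (Rc G y₀ (Pi.single j 1) a x) y₀) ᵥ* A (q F x) y₀ = 0 := by
      ext l
      simp only [Matrix.vecMul, dotProduct, Pi.zero_apply, A, Matrix.of_apply]
      rw [← h1 l]
      exact Finset.sum_congr rfl fun a _ => mul_comm _ _
    have h3 := congrArg (fun v => v ᵥ* (A (q F x) y₀)⁻¹) h2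
    simp only [Matrix.vecMul_vecMul, APy hQ hy₀, Matrix.vecMul_one, Matrix.zero_vecMul] at h3
    exact congrFun h3 a
  have hZ0 : ∀ j a, ∀ y, y ≠ 0 → Rc G y₀ (Pi.single j 1) a x y = 0 := by
    intro j a y hy
    refine uc hQ (hK y₀ (Pi.single j 1)) hn hy₀ (fun a => ?_) (fun c a => hZ1 j a c) hy a
    rw [hZ y₀ j a y₀ hy₀]
    simp [h0]
  -- constancy in the direction `y₀`
  refine lin_of_dir hn (hs _ _ _) ((hK (Pi.single k 1) (Pi.single l 1)).hom i) hy₀
    (fun y hy => ?_) hy a b
  rw [dd_eq]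
  have h1 : ∑ c, y₀ c * (pd c (Rc G (Pi.single k 1) (Pi.single l 1) i x) y +
      pd k (Rc G (Pi.single l 1) (Pi.single c 1) i x) y +
      pd l (Rc G (Pi.single c 1) (Pi.single k 1) i x) y) = 0 :=
    Finset.sum_eq_zero fun c _ => by rw [bianchi hF hG hx hy c k l i, mul_zero]
  simp only [mul_add, Finset.sum_add_distrib] at h1
  have h2 : ∑ c, y₀ c * pd l (Rc G (Pi.single c 1) (Pi.single k 1) i x) y = 0 := by
    rw [← hZd y₀ k i l y hy, pd_congr (g := fun _ => (0:ℝ)) (fun y hy => hZ0 k i y hy) l hy,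
      pd_const]
  have h3 : ∑ c, y₀ c * pd k (Rc G (Pi.single l 1) (Pi.single c 1) i x) y = 0 := by
    have e : ∀ c, pd k (Rc G (Pi.single l 1) (Pi.single c 1) i x) y =
        - pd k (Rc G (Pi.single c 1) (Pi.single l 1) i x) y := by
      intro c
      rw [pd_congr (g := fun y => (-1) * Rc G (Pi.single c 1) (Pi.single l 1) i x y)
        (fun y _ => by rw [Rc_anti]; ring) k hy, pd_const_mul (hs _ _ _) _ k hy]
      ring
    simp only [e, mul_neg, Finset.sum_neg_distrib, neg_eq_zero]
    rw [← hZd y₀ l i k y hy, pd_congr (g := fun _ => (0:ℝ)) (fun y hy => hZ0 l i y hy) k hy,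
      pd_const]
  linarith

end Pool.Agent.H792.KG
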