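import Pool.Agent.H792.KG.StmDefs
import Pool.Agent.H792.KG.Asm
import Pool.Agent.H792.KG.Zero
import Pool.Agent.H792.KG.Mani
import Pool.Agent.H792.KF.Fin3

/-!
# The final theorems
-/

set_option autoImplicit false

open scoped BigOperators ContDiff Topology Matrix Manifold
open Filter Set

namespace Pool.Agent.H792.KG

open Pool.Agent.R774.BW Pool.Agent.H792.Gen Pool.Agent.H792.LF Pool.Agent.H792.KF

variable {n : ℕ}

section local_

variable {U : Set (Fin n → ℝ)} {F : (Fin n → ℝ) → (Fin n → ℝ) → ℝ}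
  {G : (Fin n → ℝ) → (Fin n → ℝ) → (Fin n → ℝ)}

theorem small_lin (hn : 2 ≤ n) (hF : IsFinsler U F) (hG : IsSpray U F G) {x : Fin n → ℝ}
    (hx : x ∈ U) (h : SmallSpan G x) (k l i : Fin n) {y : Fin n → ℝ} (hy : y ≠ 0)
    (a b : Fin n) : pd a (pd b (Rc G (Pi.single k 1) (Pi.single l 1) i x)) y = 0 := by
  refine lin_of_small hn (fun k l i y => Rc G (Pi.single k 1) (Pi.single l 1) i x y)
    (fun k l i y => Rc_anti _ _ i x y) (fun k l i => (Rc_JS hF hG _ _ i).sm hx)
    (fun k l i => Rc_hom hF hG _ _ hx i) (fun y hy j k l i => ?_) h k l i a b hy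
  exact bianchi hF hG hx hy j k l i

theorem rlin_of_lin (hF : IsFinsler U F) (hG : IsSpray U F G) {x : Fin n → ℝ} (hx : x ∈ U)
    (h : ∀ k l i y, y ≠ 0 → ∀ a b,
      pd a (pd b (Rc G (Pi.single k 1) (Pi.single l 1) i x)) y = 0) : RLin G x := by
  intro v w i y hy
  have hs : ∀ v w, Sm (Rc G v w i x) := fun v w => (Rc_JS hF hG v w i).sm hx
  rw [dd_dd_eq (hs v w) w w hy]
  simp only [dd_eq]
  refine Finset.sum_eq_zero fun b _ => ?_
  rw [Finset.sum_eq_zero, mul_zero]
  intro a _
  have e1 : ∀ z, z ≠ 0 → pd b (Rc G v w i x) z =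
      ∑ k, ∑ l, v k * w l * pd b (Rc G (Pi.single k 1) (Pi.single l 1) i x) z := by
    intro z hz
    rw [pd_congr (fun z hz => Rc_lin hF hG v w i hx hz) b hz,
      pd_sum (fun k _ => Sm.sum fun l _ => (sm_const _).mul (hs _ _)) b hz]
    refine Finset.sum_congr rfl fun k _ => ?_
    rw [pd_sum (fun l _ => (sm_const _).mul (hs _ _)) b hz]
    exact Finset.sum_congr rfl fun l _ => pd_const_mul (hs _ _) _ b hz
  rw [pd_congr e1 a hy, pd_sum (fun k _ => Sm.sum fun l _ => (sm_const _).mul ((hs _ _).pd b)) a hy,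
    Finset.sum_eq_zero, mul_zero]
  intro k _
  rw [pd_sum (fun l _ => (sm_const _).mul ((hs _ _).pd b)) a hy, Finset.sum_eq_zero]
  intro l _
  rw [pd_const_mul ((hs _ _).pd b) _ a hy, h k l i y hy a b, mul_zero]

/-- second derivatives zero: linear -/
theorem linear_of_lin (hn : 2 ≤ n) {f : (Fin n → ℝ) → ℝ} (hf : Sm f) (hh : Hom 1 f)
    (h : ∀ y, y ≠ 0 → ∀ a b, pd a (pd b f) y = 0) :
    ∃ r : Fin n → ℝ, ∀ y, y ≠ 0 → f y = ∑ j, r j * y j := by
  have h0 : ∃ y₀ : Fin n → ℝ, y₀ ≠ 0 := by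
    refine ⟨Pi.single ⟨0, by omega⟩ 1, fun h => ?_⟩
    have := congrFun h ⟨0, by omega⟩
    simp at this
  obtain ⟨y₀, hy₀⟩ := h0
  refine ⟨fun j => pd j f y₀, fun y hy => ?_⟩
  have e := hh.euler hf hy
  simp only [Int.cast_one, one_mul] at e
  rw [← e]
  refine Finset.sum_congr rfl fun j _ => ?_
  rw [const_of_pd hn (hf.pd j) (fun y hy k => h y hy k j) hy hy₀, mul_comm]

theorem linear_curvature (hn : 2 ≤ n) (hF : IsFinsler U F) (hG : IsSpray U F G)
    {x : Fin n → ℝ} (hx : x ∈ U)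
    (h : ∀ k l i y, y ≠ 0 → ∀ a b,
      pd a (pd b (Rc G (Pi.single k 1) (Pi.single l 1) i x)) y = 0) : LinearCurvature G x :=
  fun i k l => linear_of_lin hn ((Rc_JS hF hG _ _ i).sm hx) (Rc_hom hF hG _ _ hx i)
    (fun y hy a b => h k l i y hy a b)

variable (hF : IsFinsler U F) (hG : IsSpray U F G) (hL : IsLandsberg U F G)

include hF hG hL

theorem lin_cases (hn : 2 ≤ n) {x : Fin n → ℝ} (hx : x ∈ U)
    (h : SmallSpan G x ∨ FlatDirection G x) (k l i : Fin n) (y : Fin n → ℝ) (hy : y ≠ 0)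
    (a b : Fin n) : pd a (pd b (Rc G (Pi.single k 1) (Pi.single l 1) i x)) y = 0 := by
  rcases h with h | ⟨y₀, hy₀, h0⟩
  · exact small_lin hn hF hG hx h k l i hy a b
  · exact lin_of_zero hF hG hL hn hx hy₀ (fun k l i => h0 i k l) k l i hy a b

/-- linear combinations of curvature fields are infinitesimal isometries -/
theorem comb_kil (s : Fin n → Fin n → ℝ) {x : Fin n → ℝ} (hx : x ∈ U) :
    IsKilling F x (fun y i => ∑ k, ∑ l, s k l * curvature G x y i k l) := by
  have hK : ∀ k l, Kil (q F x) (fun i => Rc G (Pi.single k 1) (Pi.single l 1) i x) :=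
    fun k l => Rc_kil hF hG hL _ _ hx
  have hadd : ∀ {X Y : Fin n → (Fin n → ℝ) → ℝ}, Kil (q F x) X → Kil (q F x) Y →
      Kil (q F x) (fun i y => X i y + Y i y) := by
    intro X Y hX hY
    have := hX.lin hY 1 1
    simpa using this
  have hzero : Kil (q F x) (fun _ _ => 0) := by
    refine ⟨fun i => sm_const 0, fun i y hy t ht => by simp, fun y hy i j => ?_⟩
    simp [pd_const]
  have hsum : ∀ (t : Finset (Fin n × Fin n)), Kil (q F x)
      (fun i y => ∑ p ∈ t, s p.1 p.2 * Rc G (Pi.single p.1 1) (Pi.single p.2 1) i x y) := by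
    classical
    intro t
    induction t using Finset.induction_on with
    | empty => simpa using hzero
    | insert p t hp ih =>
      simp only [Finset.sum_insert hp]
      refine hadd ?_ ih
      have := (hK p.1 p.2).lin hzero (s p.1 p.2) 0
      simpa using this
  have h := isKilling_of_kil (hsum Finset.univ)
  have e : (fun (y : Fin n → ℝ) (i : Fin n) => ∑ k, ∑ l, s k l * curvature G x y i k l) =
      fun y i => ∑ p : Fin n × Fin n, s p.1 p.2 *
        Rc G (Pi.single p.1 1) (Pi.single p.2 1) i x y := by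
    funext y i
    rw [Fintype.sum_prod_type]
    rfl
  rw [e]
  exact h

theorem small_of_few {x : Fin n → ℝ} (hx : x ∈ U) (h : FewNonlinear F x) : SmallSpan G x := by
  intro s
  obtain ⟨c, hc, A, hA⟩ := h (fun a y i => ∑ k, ∑ l, s a k l * curvature G x y i k l)
    (fun a => comb_kil hF hG hL (s a) hx)
  refine ⟨c, hc, A, fun y hy i => ?_⟩
  have := congrFun (hA y hy) i
  simpa [Finset.sum_apply] using this

theorem flat_of_zero {x : Fin n → ℝ} (hx : x ∈ U) (h : CommonZero F x) : FlatDirection G x := by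
  obtain ⟨y, hy, h⟩ := h
  refine ⟨y, hy, fun i k l => ?_⟩
  exact congrFun (h _ (isKilling_of_kil (Rc_kil hF hG hL (Pi.single k 1) (Pi.single l 1) hx))) i

end local_

/-- tame norms have few nonlinear infinitesimal isometries -/
theorem few_of_tame (hn : 3 ≤ n) {F : (Fin n → ℝ) → (Fin n → ℝ) → ℝ} {x : Fin n → ℝ}
    (h : Tame F x) : FewNonlinear F x := by
  intro K hK
  rcases h with h | h
  · obtain ⟨A, hA⟩ := h _ (hK ⟨0, by omega⟩)
    refine ⟨Pi.single ⟨0, by omega⟩ 1, fun h0 => ?_, A, fun y hy => ?_⟩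
    · have := congrFun h0 ⟨0, by omega⟩
      simp at this
    · rw [Finset.sum_eq_single ⟨0, by omega⟩]
      · simp [hA y hy]
      · intro b _ hb
        simp [Pi.single_eq_of_ne hb]
      · simp
  · obtain ⟨a, b, hab, hz⟩ := h _ _ (hK ⟨0, by omega⟩) (hK ⟨1, by omega⟩)
    refine ⟨Pi.single ⟨0, by omega⟩ a + Pi.single ⟨1, by omega⟩ b, fun h0 => ?_, 0,
      fun y hy => ?_⟩
    · have e0 := congrFun h0 ⟨0, by omega⟩
      have e1 := congrFun h0 ⟨1, by omega⟩
      simp at e0 e1
      rcases hab with h | h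
      · exact h e0
      · exact h e1
    · ext i
      have := hz y hy i
      simp only [Pi.add_apply, add_smul, Finset.sum_add_distrib, Matrix.zero_mulVec,
        Pi.zero_apply]
      rw [Finset.sum_eq_single (⟨0, by omega⟩ : Fin (n - 1)),
        Finset.sum_eq_single (⟨1, by omega⟩ : Fin (n - 1))]
      · simpa using this
      · intro c _ hc
        simp [Pi.single_eq_of_ne hc]
      · simp
      · intro c _ hc
        simp [Pi.single_eq_of_ne hc]
      · simp

section mani

theorem cocompact_of (M : Type) [TopologicalSpace M] [ChartedSpace (Fin n → ℝ) M]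
    [IsManifold 𝓘(ℝ, Fin n → ℝ) ∞ M] (F : TangentBundle 𝓘(ℝ, Fin n → ℝ) M → ℝ)
    (h : CompactSpace M ∨ Cocompact F) : Cocompact F := by
  rcases h with h | h
  · refine ⟨univ, isCompact_univ, fun p => ⟨id, ⟨univ, isOpen_univ, mem_univ _,
      contMDiffOn_id, fun q _ v => ?_⟩, mem_univ _⟩⟩
    rw [tangentMap_id]
    rfl
  · exact h

theorem cocompact_small (hn : 3 ≤ n) : CocompactSmall n := by
  intro M _ _ _ F hF hL hK h
  refine cocompact_main (cocompact_of M F hK) hF hL fun e he G hG x hx => ?_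
  rcases h e he G hG x hx with h1 | h1 | h1
  · exact Or.inl (rlin_of_lin (hF e he) hG hx (lin_cases (hF e he) hG (hL e he G hG)
      (by omega) hx (Or.inl h1)))
  · exact Or.inl (rlin_of_lin (hF e he) hG hx (lin_cases (hF e he) hG (hL e he G hG)
      (by omega) hx (Or.inr h1)))
  · exact Or.inr h1

theorem cocompact_three : CocompactThree := by
  intro M _ _ _ F hF hL hK
  refine cocompact_main (cocompact_of M F hK) hF hL fun e he G hG x hx => ?_
  rcases ball_case (hF e he) hG (hL e he G hG) hx with h | ⟨O, -, -, hxO, hd⟩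
  · exact Or.inr h
  · exact Or.inl (tame_rlin (hF e he) hG (hL e he G hG) le_rfl hx (Or.inr (hd x hxO)))

end mani

end Pool.Agent.H792.KG
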