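import Pool.Agent.H792.KF.ManiDefs

/-!
# Local isometries of Finsler manifolds
-/

set_option autoImplicit false

open scoped Manifold ContDiff Topology

namespace Pool.Agent.H792.KG

open Pool.Agent.R774.BW Pool.Agent.H792.Gen

variable {n : ℕ} {M : Type*} [TopologicalSpace M] [ChartedSpace (Fin n → ℝ) M]

/-- `φ` is a local isometry of `F` near `p`: it is smooth near `p` and preserves `F` there -/
def LocalIsometryAt (F : TangentBundle 𝓘(ℝ, Fin n → ℝ) M → ℝ) (φ : M → M) (p : M) : Prop :=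
  ∃ O : Set M, IsOpen O ∧ p ∈ O ∧ ContMDiffOn 𝓘(ℝ, Fin n → ℝ) 𝓘(ℝ, Fin n → ℝ) ∞ φ O ∧
    ∀ q ∈ O, ∀ v : TangentSpace 𝓘(ℝ, Fin n → ℝ) q,
      F (tangentMap 𝓘(ℝ, Fin n → ℝ) 𝓘(ℝ, Fin n → ℝ) φ ⟨q, v⟩) = F ⟨q, v⟩

/-- the local isometries of `F` are cocompact: some compact set contains, for every point, its
image under some local isometry. This holds if `M` is compact, if a group of isometries acts
cocompactly, and if `F` is (locally) homogeneous. -/
def Cocompact (F : TangentBundle 𝓘(ℝ, Fin n → ℝ) M → ℝ) : Prop :=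
  ∃ K : Set M, IsCompact K ∧ ∀ p : M, ∃ φ : M → M, LocalIsometryAt F φ p ∧ φ p ∈ K

end Pool.Agent.H792.KG
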