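import Pool.Agent.H792.KG.ManiDefs
import Pool.Agent.H792.KF.StmDefs

/-!
# The statements
-/

set_option autoImplicit false

open scoped Manifold ContDiff Matrix

namespace Pool.Agent.H792.KG

open Pool.Agent.R774.BW Pool.Agent.H792.Gen Pool.Agent.H792.KF

variable {n : ℕ}

/-- the curvature fields `y ↦ R(u,v)(x,y)` on the fibre over `x` span, modulo linear vector fields,
at most `n - 2` dimensions: any `n - 1` of their linear combinations are linearly dependent modulo
linear vector fields -/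
def SmallSpan (G : (Fin n → ℝ) → (Fin n → ℝ) → (Fin n → ℝ)) (x : Fin n → ℝ) : Prop :=
  ∀ s : Fin (n - 1) → Fin n → Fin n → ℝ, ∃ c : Fin (n - 1) → ℝ, c ≠ 0 ∧
    ∃ A : Matrix (Fin n) (Fin n) ℝ, ∀ y, y ≠ 0 → ∀ i,
      ∑ a, c a * ∑ k, ∑ l, s a k l * curvature G x y i k l = (A *ᵥ y) i

/-- the curvature vanishes at `(x, y)` for some `y ≠ 0` -/
def FlatDirection (G : (Fin n → ℝ) → (Fin n → ℝ) → (Fin n → ℝ)) (x : Fin n → ℝ) : Prop :=
  ∃ y, y ≠ 0 ∧ ∀ i k l, curvature G x y i k l = 0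

/-- any `n - 1` infinitesimal isometries of the norm `F(x,·)` are linearly dependent modulo linear
vector fields -/
def FewNonlinear (F : (Fin n → ℝ) → (Fin n → ℝ) → ℝ) (x : Fin n → ℝ) : Prop :=
  ∀ K : Fin (n - 1) → (Fin n → ℝ) → Fin n → ℝ, (∀ a, IsKilling F x (K a)) →
    ∃ c : Fin (n - 1) → ℝ, c ≠ 0 ∧ ∃ A : Matrix (Fin n) (Fin n) ℝ,
      ∀ y, y ≠ 0 → ∑ a, c a • K a y = A *ᵥ y

/-- the infinitesimal isometries of the norm `F(x,·)` have a common zero `y ≠ 0` -/
def CommonZero (F : (Fin n → ℝ) → (Fin n → ℝ) → ℝ) (x : Fin n → ℝ) : Prop :=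
  ∃ y, y ≠ 0 ∧ ∀ X, IsKilling F x X → X y = 0

/-- on the fibre over `x` the curvature is linear in `y` -/
def LinearCurvature (G : (Fin n → ℝ) → (Fin n → ℝ) → (Fin n → ℝ)) (x : Fin n → ℝ) : Prop :=
  ∀ i k l, ∃ r : Fin n → ℝ, ∀ y, y ≠ 0 → curvature G x y i k l = ∑ j, r j * y j

/-- Landsberg manifolds of dimension three which are closed, or have cocompact local isometries,
are Berwald manifolds -/
def CocompactThree : Prop :=
  ∀ (M : Type) [TopologicalSpace M] [ChartedSpace (Fin 3 → ℝ) M]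
    [IsManifold 𝓘(ℝ, Fin 3 → ℝ) ∞ M] (F : TangentBundle 𝓘(ℝ, Fin 3 → ℝ) M → ℝ),
    IsFinslerMetric F → IsLandsbergMetric F → CompactSpace M ∨ Cocompact F → IsBerwaldMetric F

/-- Landsberg manifolds of dimension `n` which are closed, or have cocompact local isometries, are
Berwald manifolds if the curvature has small span, or has a zero, or the Berwald curvature
vanishes, on each fibre -/
def CocompactSmall (n : ℕ) : Prop :=
  ∀ (M : Type) [TopologicalSpace M] [ChartedSpace (Fin n → ℝ) M]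
    [IsManifold 𝓘(ℝ, Fin n → ℝ) ∞ M] (F : TangentBundle 𝓘(ℝ, Fin n → ℝ) M → ℝ),
    IsFinslerMetric F → IsLandsbergMetric F → CompactSpace M ∨ Cocompact F →
    (∀ e ∈ atlas (Fin n → ℝ) M, ∀ G, IsSpray e.target (loc F e) G → ∀ x ∈ e.target,
      SmallSpan G x ∨ FlatDirection G x ∨ BerwaldAt G x) → IsBerwaldMetric F

end Pool.Agent.H792.KG
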