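import Pool.Agent.H792.KG.Defs

/-!
EXG. Induction on the dimension of the space `O` of alternating forms, relative to a subspace `W` on which all forms
of `O` vanish. `EXG_f ξ Ω` is the trilinear form `ξ ∧ Ω`; injectivity of `Ω ↦ ξ ∧ Ω` on a finite dimensional space is
an open condition on `ξ` (linear independence is an open condition).
-/

set_option autoImplicit false

open scoped BigOperators ContDiff Topology Matrix
open MeasureTheory

noncomputable section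

namespace Pool.Agent.H792.KG

variable {V : Type} [AddCommGroup V] [Module ℝ V]

/-- the trilinear form `ξ ∧ Ω` -/
def EXG_f (ξ : V →ₗ[ℝ] ℝ) (Ω : V →ₗ[ℝ] V →ₗ[ℝ] ℝ) (u v w : V) : ℝ :=
  ξ u * Ω v w + ξ v * Ω w u + ξ w * Ω u v

theorem EXG_cyc (ξ : V →ₗ[ℝ] ℝ) (Ω : V →ₗ[ℝ] V →ₗ[ℝ] ℝ) (u v w : V) :
    EXG_f ξ Ω u v w = EXG_f ξ Ω v w u := by
  unfold EXG_f
  ring

theorem EXG_ext1 {ι : Type} (e : Module.Basis ι ℝ V) (ξ : V →ₗ[ℝ] ℝ) (Ω : V →ₗ[ℝ] V →ₗ[ℝ] ℝ)
    (v w : V) (h : ∀ p, EXG_f ξ Ω (e p) v w = 0) (u : V) : EXG_f ξ Ω u v w = 0 := by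
  have h1 : (Ω v w) • ξ + ξ v • (Ω w) + (ξ w) • (Ω.flip v) = 0 := by
    refine e.ext fun p => ?_
    have := h p
    unfold EXG_f at this
    simp only [LinearMap.add_apply, LinearMap.smul_apply, smul_eq_mul, LinearMap.flip_apply,
      LinearMap.zero_apply]
    linarith
  have h2 := LinearMap.congr_fun h1 u
  simp only [LinearMap.add_apply, LinearMap.smul_apply, smul_eq_mul, LinearMap.flip_apply,
    LinearMap.zero_apply] at h2
  unfold EXG_f
  linarith

theorem EXG_ext {ι : Type} (e : Module.Basis ι ℝ V) (ξ : V →ₗ[ℝ] ℝ) (Ω : V →ₗ[ℝ] V →ₗ[ℝ] ℝ)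
    (h : ∀ p q r, EXG_f ξ Ω (e p) (e q) (e r) = 0) (u v w : V) : EXG_f ξ Ω u v w = 0 := by
  have h1 : ∀ q r u, EXG_f ξ Ω u (e q) (e r) = 0 := fun q r u =>
    EXG_ext1 e ξ Ω (e q) (e r) (fun p => h p q r) u
  have h2 : ∀ r u v, EXG_f ξ Ω v (e r) u = 0 := fun r u v =>
    EXG_ext1 e ξ Ω (e r) u (fun q => by rw [← EXG_cyc]; exact h1 q r u) v
  have h3 : ∀ u v w, EXG_f ξ Ω w u v = 0 := fun u v w =>
    EXG_ext1 e ξ Ω u v (fun r => by rw [← EXG_cyc]; exact h2 r u v) w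
  exact h3 v w u

theorem EXG_lin (ξ η : V →ₗ[ℝ] ℝ) (t : ℝ) (Ω : V →ₗ[ℝ] V →ₗ[ℝ] ℝ) (u v w : V) :
    EXG_f (ξ + t • η) Ω u v w = EXG_f ξ Ω u v w + t * EXG_f η Ω u v w := by
  unfold EXG_f
  simp only [LinearMap.add_apply, LinearMap.smul_apply, smul_eq_mul]
  ring

theorem EXG_openA {E J : Type} [AddCommGroup E] [Module ℝ E] [FiniteDimensional ℝ E] [Fintype J]
    (O : Submodule ℝ E) (A B : E →ₗ[ℝ] (J → ℝ)) (h : ∀ x ∈ O, A x = 0 → x = 0) :
    ∃ ε : ℝ, 0 < ε ∧ ∀ t : ℝ, |t| < ε → ∀ x ∈ O, A x + t • B x = 0 → x = 0 := by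
  obtain ⟨d, hd⟩ : ∃ d, Module.finrank ℝ O = d := ⟨_, rfl⟩
  let b : Module.Basis (Fin d) ℝ O := Module.finBasisOfFinrankEq ℝ O hd
  let F : ℝ → (Fin d → (J → ℝ)) := fun t i => A (b i : E) + t • B (b i : E)
  have hFc : Continuous F := by
    refine continuous_pi fun i => continuous_pi fun p => ?_
    change Continuous (fun t : ℝ => A (b i : E) p + t * B (b i : E) p)
    fun_prop
  have hsum : ∀ (t : ℝ) (c : Fin d → ℝ), ∑ i, c i • F t i =
      A (∑ i, c i • (b i : E)) + t • B (∑ i, c i • (b i : E)) := by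
    intro t c
    rw [map_sum, map_sum, Finset.smul_sum, ← Finset.sum_add_distrib]
    refine Finset.sum_congr rfl fun i _ => ?_
    change c i • (A (b i : E) + t • B (b i : E)) = _
    rw [map_smul, map_smul, smul_add, smul_comm t (c i)]
  have hcoe : ∀ c : Fin d → ℝ, ((∑ i, c i • b i : O) : E) = ∑ i, c i • (b i : E) := by
    intro c
    rw [Submodule.coe_sum]
    rfl
  have h0 : LinearIndependent ℝ (F 0) := by
    rw [Fintype.linearIndependent_iff]
    intro c hc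
    rw [hsum 0 c, zero_smul, add_zero] at hc
    have h2 := h _ (by rw [← hcoe]; exact (∑ i, c i • b i : O).2) hc
    have h4 : ∑ i, c i • b i = 0 := by
      apply Subtype.ext
      rw [hcoe, h2]
      rfl
    exact Fintype.linearIndependent_iff.1 b.linearIndependent c h4
  have hopen := (isOpen_setOfPred_linearIndependent (𝕜 := ℝ) (ι := Fin d)
    (E := J → ℝ)).preimage hFc
  obtain ⟨ε, hε, hball⟩ := Metric.isOpen_iff.1 hopen 0 h0
  refine ⟨ε, hε, fun t ht x hx hf => ?_⟩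
  have hli : LinearIndependent ℝ (F t) := hball (by
    rw [Metric.mem_ball, dist_zero_right, Real.norm_eq_abs]
    exact ht)
  obtain ⟨c, hcd⟩ : ∃ c : Fin d → ℝ, c = fun i => b.repr ⟨x, hx⟩ i := ⟨_, rfl⟩
  have hΩs : ∑ i, c i • b i = ⟨x, hx⟩ := by
    rw [hcd]
    exact b.sum_repr ⟨x, hx⟩
  have hΩs' : ∑ i, c i • (b i : E) = x := by
    rw [← hcoe, hΩs]
  have hz : ∑ i, c i • F t i = 0 := by
    rw [hsum t c, hΩs']
    exact hf
  have hc0 := Fintype.linearIndependent_iff.1 hli c hz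
  rw [← hΩs']
  exact Finset.sum_eq_zero fun i _ => by rw [hc0 i, zero_smul]

/-- `x ↦ ξ ∧ Φ x` in coordinates -/
def EXG_A {E : Type} [AddCommGroup E] [Module ℝ E] (Φ : E →ₗ[ℝ] (V →ₗ[ℝ] V →ₗ[ℝ] ℝ)) {N : ℕ}
    (e : Module.Basis (Fin N) ℝ V) (ξ : V →ₗ[ℝ] ℝ) :
    E →ₗ[ℝ] (Fin N × Fin N × Fin N → ℝ) where
  toFun x p := EXG_f ξ (Φ x) (e p.1) (e p.2.1) (e p.2.2)
  map_add' x y := by
    funext p
    unfold EXG_f
    simp only [map_add, LinearMap.add_apply, Pi.add_apply]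
    ring
  map_smul' c x := by
    funext p
    unfold EXG_f
    simp only [map_smul, LinearMap.smul_apply, Pi.smul_apply, smul_eq_mul, RingHom.id_apply]
    ring

theorem EXG_open [FiniteDimensional ℝ V] {E : Type} [AddCommGroup E] [Module ℝ E]
    [FiniteDimensional ℝ E] (Φ : E →ₗ[ℝ] (V →ₗ[ℝ] V →ₗ[ℝ] ℝ)) (O : Submodule ℝ E)
    (ξ η : V →ₗ[ℝ] ℝ) (h : ∀ x ∈ O, (∀ u v w, EXG_f ξ (Φ x) u v w = 0) → x = 0) :
    ∃ ε : ℝ, 0 < ε ∧ ∀ t : ℝ, |t| < ε →
      ∀ x ∈ O, (∀ u v w, EXG_f (ξ + t • η) (Φ x) u v w = 0) → x = 0 := by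
  let e := Module.finBasis ℝ V
  obtain ⟨ε, hε, hh⟩ := EXG_openA O (EXG_A Φ e ξ) (EXG_A Φ e η) (by
    intro x hx hA
    refine h x hx (EXG_ext e ξ (Φ x) fun p q r => ?_)
    exact congrFun hA (p, q, r))
  refine ⟨ε, hε, fun t ht x hx hf => hh t ht x hx ?_⟩
  funext p
  have h1 := hf (e p.1) (e p.2.1) (e p.2.2)
  rw [EXG_lin] at h1
  exact h1

theorem EXG_main [FiniteDimensional ℝ V] {E : Type} [AddCommGroup E] [Module ℝ E]
    [FiniteDimensional ℝ E] (Φ : E →ₗ[ℝ] (V →ₗ[ℝ] V →ₗ[ℝ] ℝ)) (d : ℕ) :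
    ∀ (O : Submodule ℝ E) (W : Submodule ℝ V), Module.finrank ℝ O = d →
    (∀ x ∈ O, Φ x = 0 → x = 0) → (∀ x ∈ O, ∀ v, Φ x v v = 0) →
    (∀ x ∈ O, ∀ w ∈ W, Φ x w = 0) →
    d + 2 + Module.finrank ℝ W ≤ Module.finrank ℝ V →
    ∃ ξ : V →ₗ[ℝ] ℝ, (∀ w ∈ W, ξ w = 0) ∧
      ∀ x ∈ O, (∀ u v w, EXG_f ξ (Φ x) u v w = 0) → x = 0 := by
  induction d using Nat.strong_induction_on with
  | _ d ih =>
    intro O W hd hinj halt hW hdim
    by_cases hO : O = ⊥
    · refine ⟨0, fun _ _ => rfl, fun x hx _ => ?_⟩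
      rw [hO] at hx
      exact (Submodule.mem_bot ℝ).1 hx
    obtain ⟨x₁, hx₁, hne⟩ := (Submodule.ne_bot_iff O).1 hO
    obtain ⟨w, hw⟩ : ∃ w, Φ x₁ w ≠ 0 := by
      by_contra hcon
      push Not at hcon
      exact hne (hinj x₁ hx₁ (LinearMap.ext hcon))
    let ev : E →ₗ[ℝ] (V →ₗ[ℝ] ℝ) :=
      { toFun := fun x => Φ x w
        map_add' := fun x y => by rw [map_add, LinearMap.add_apply]
        map_smul' := fun c x => by rw [map_smul, LinearMap.smul_apply]; rfl }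
    have hev : ∀ x, ev x = Φ x w := fun _ => rfl
    obtain ⟨Ow, hOwd⟩ : ∃ Ow : Submodule ℝ E, Ow = O ⊓ LinearMap.ker ev := ⟨_, rfl⟩
    have hOw : ∀ x, x ∈ Ow ↔ x ∈ O ∧ Φ x w = 0 := fun x => by
      rw [hOwd, Submodule.mem_inf, LinearMap.mem_ker, hev]
    have hlt : Ow < O := by
      refine lt_of_le_of_ne (fun x hx => ((hOw x).1 hx).1) fun h => hw ?_
      rw [← h] at hx₁
      exact ((hOw x₁).1 hx₁).2
    have hfl : Module.finrank ℝ Ow < d := by
      rw [← hd]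
      exact Submodule.finrank_lt_finrank_of_lt hlt
    obtain ⟨W', hW'd⟩ : ∃ W' : Submodule ℝ V, W' = W ⊔ Submodule.span ℝ {w} := ⟨_, rfl⟩
    have hW'le : Module.finrank ℝ W' ≤ Module.finrank ℝ W + 1 := by
      rw [hW'd]
      refine (Submodule.finrank_add_le_finrank_add_finrank _ _).trans ?_
      have := finrank_span_le_card (R := ℝ) ({w} : Set V)
      simp only [Set.toFinset_singleton, Finset.card_singleton] at this
      omega
    have hwW' : w ∈ W' := by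
      rw [hW'd]
      exact Submodule.mem_sup_right (Submodule.mem_span_singleton_self w)
    have hWW' : ∀ x ∈ W, x ∈ W' := by
      rw [hW'd]
      exact fun x hx => Submodule.mem_sup_left hx
    obtain ⟨ξ₀, hξ₀, hgood⟩ := ih _ hfl Ow W' rfl
      (fun x hx => hinj x ((hOw x).1 hx).1) (fun x hx => halt x ((hOw x).1 hx).1) (by
      intro x hx y hy
      rw [hW'd] at hy
      obtain ⟨a, ha, c, hc, rfl⟩ := Submodule.mem_sup.1 hy
      obtain ⟨s, rfl⟩ := Submodule.mem_span_singleton.1 hc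
      rw [map_add, map_smul, hW x ((hOw x).1 hx).1 a ha, ((hOw x).1 hx).2, smul_zero, add_zero])
      (by omega)
    obtain ⟨In, hInd⟩ : ∃ In : Submodule ℝ (V →ₗ[ℝ] ℝ), In = O.map ev := ⟨_, rfl⟩
    have hIn : Module.finrank ℝ In ≤ d := by
      rw [← hd, hInd]
      exact Submodule.finrank_map_le ev O
    have hInmem : ∀ x ∈ O, Φ x w ∈ In := by
      intro x hx
      rw [hInd]
      exact ⟨x, hx, rfl⟩
    obtain ⟨η, hη1, hη2⟩ : ∃ η : V →ₗ[ℝ] ℝ, (∀ x ∈ W', η x = 0) ∧ η ∉ In := by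
      by_contra hcon
      push Not at hcon
      have hle : W'.dualAnnihilator ≤ In := by
        intro η hη
        exact hcon η ((Submodule.mem_dualAnnihilator η).1 hη)
      have h1 := (Submodule.finrank_mono hle).trans hIn
      have h2 := Subspace.finrank_add_finrank_dualAnnihilator_eq W'
      omega
    obtain ⟨ε, hε, hεg⟩ := EXG_open Φ Ow ξ₀ η hgood
    obtain ⟨t, ht, htI⟩ : ∃ t : ℝ, |t| < ε ∧ ξ₀ + t • η ∉ In := by
      by_contra hcon
      push Not at hcon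
      have h1 := hcon (ε / 2) (by rw [abs_of_pos (by linarith)]; linarith)
      have h2 := hcon (ε / 3) (by rw [abs_of_pos (by linarith)]; linarith)
      have h3 := In.sub_mem h1 h2
      have h4 : ξ₀ + (ε / 2) • η - (ξ₀ + (ε / 3) • η) = (ε / 6) • η := by
        refine LinearMap.ext fun v => ?_
        simp only [LinearMap.sub_apply, LinearMap.add_apply, LinearMap.smul_apply, smul_eq_mul]
        ring
      rw [h4] at h3
      exact hη2 ((Submodule.smul_mem_iff In (by positivity)).1 h3)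
    obtain ⟨ξ, hξ⟩ : ∃ ξ : V →ₗ[ℝ] ℝ, ξ = ξ₀ + t • η := ⟨_, rfl⟩
    have hg := hεg t ht
    rw [← hξ] at htI hg
    have hξW' : ∀ x ∈ W', ξ x = 0 := by
      intro x hx
      rw [hξ, LinearMap.add_apply, LinearMap.smul_apply, hξ₀ x hx, hη1 x hx, smul_zero, add_zero]
    refine ⟨ξ, fun x hx => hξW' x (hWW' x hx), fun x hx hf => ?_⟩
    have hξw := hξW' w hwW'
    have hskew : ∀ u v, Φ x u v = -Φ x v u := by
      intro u v
      have h1 := halt x hx (u + v)
      simp only [map_add, LinearMap.add_apply, halt x hx u, halt x hx v] at h1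
      linarith
    have hprop : ∀ u v, ξ u * Φ x w v = ξ v * Φ x w u := by
      intro u v
      have h1 := hf u v w
      unfold EXG_f at h1
      rw [hξw, hskew v w] at h1
      linarith
    have hξne : ∃ e, ξ e ≠ 0 := by
      by_contra hcon
      push Not at hcon
      apply htI
      have : ξ = 0 := LinearMap.ext hcon
      rw [this]
      exact In.zero_mem
    obtain ⟨e, he⟩ := hξne
    have hΩw : Φ x w = 0 := by
      by_contra hne0
      have h1 : Φ x w = (Φ x w e / ξ e) • ξ := by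
        refine LinearMap.ext fun v => ?_
        rw [LinearMap.smul_apply, smul_eq_mul]
        have := hprop e v
        field_simp
        linarith
      have h2 : Φ x w e / ξ e ≠ 0 := by
        intro h0
        rw [h0, zero_smul] at h1
        exact hne0 h1
      apply htI
      have h3 := hInmem x hx
      rw [h1] at h3
      exact (Submodule.smul_mem_iff In h2).1 h3
    exact hg x ((hOw x).2 ⟨hx, hΩw⟩) hf

/-- a copy of the space of bilinear forms -/
def EXG_F (V : Type) [AddCommGroup V] [Module ℝ V] : Type := V →ₗ[ℝ] V →ₗ[ℝ] ℝ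

instance EXG_i1 : AddCommGroup (EXG_F V) := inferInstanceAs (AddCommGroup (V →ₗ[ℝ] V →ₗ[ℝ] ℝ))

instance EXG_i2 : Module ℝ (EXG_F V) := inferInstanceAs (Module ℝ (V →ₗ[ℝ] V →ₗ[ℝ] ℝ))

instance EXG_i3 [FiniteDimensional ℝ V] : FiniteDimensional ℝ (EXG_F V) :=
  inferInstanceAs (FiniteDimensional ℝ (V →ₗ[ℝ] V →ₗ[ℝ] ℝ))

/-- the identity -/
def EXG_to : (V →ₗ[ℝ] V →ₗ[ℝ] ℝ) ≃ₗ[ℝ] EXG_F V where
  toFun x := x
  invFun x := x
  map_add' _ _ := rfl
  map_smul' _ _ := rfl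
  left_inv _ := rfl
  right_inv _ := rfl

theorem t_EXG  : S_EXG := by
  intro V _ _ _ O halt hdim
  have hfr : Module.finrank ℝ (O.map (EXG_to (V := V)).toLinearMap) = Module.finrank ℝ O :=
    LinearEquiv.finrank_map_eq _ _
  obtain ⟨ξ, -, h⟩ := EXG_main (V := V) (E := EXG_F V) (EXG_to (V := V)).symm.toLinearMap
    (Module.finrank ℝ O) (O.map (EXG_to (V := V)).toLinearMap) ⊥ hfr
    (fun x _ hx => hx)
    (by
      rintro _ ⟨Ω, hΩ, rfl⟩ v
      exact halt Ω hΩ v)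
    (by
      intro x _ w hw
      rw [(Submodule.mem_bot ℝ).1 hw, map_zero]) (by
    rw [finrank_bot]
    omega)
  refine ⟨ξ, fun Ω hΩ hv => ?_⟩
  by_cases hξ : ∃ e, ξ e ≠ 0
  · obtain ⟨e, he⟩ := hξ
    refine h Ω ⟨Ω, hΩ, rfl⟩ ?_
    have hskew : ∀ u v, Ω u v = -Ω v u := by
      intro u v
      have h1 := halt Ω hΩ (u + v)
      simp only [map_add, LinearMap.add_apply, halt Ω hΩ u, halt Ω hΩ v] at h1
      linarith
    -- `Ω` in terms of `ξ` and `Ω e`
    have hform : ∀ u v, ξ e * Ω u v = ξ u * Ω e v - ξ v * Ω e u := by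
      intro u v
      have h1 := hv (ξ e • u - ξ u • e) (ξ e • v - ξ v • e) (by
        rw [map_sub, map_smul, map_smul, smul_eq_mul, smul_eq_mul]; ring) (by
        rw [map_sub, map_smul, map_smul, smul_eq_mul, smul_eq_mul]; ring)
      simp only [map_sub, map_smul, LinearMap.sub_apply, LinearMap.smul_apply, smul_eq_mul,
        halt Ω hΩ e] at h1
      rw [hskew u e] at h1
      have h2 : ξ e * (ξ e * Ω u v - (ξ u * Ω e v - ξ v * Ω e u)) = 0 := by linarith
      have h3 := (mul_eq_zero.1 h2).resolve_left he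
      linarith
    intro u v w
    change EXG_f ξ Ω u v w = 0
    unfold EXG_f
    have h4 : ξ e * (ξ u * Ω v w + ξ v * Ω w u + ξ w * Ω u v) = 0 := by
      have e1 := hform v w
      have e2 := hform w u
      have e3 := hform u v
      linear_combination ξ u * e1 + ξ v * e2 + ξ w * e3
    exact (mul_eq_zero.1 h4).resolve_left he
  · push Not at hξ
    refine LinearMap.ext fun u => LinearMap.ext fun v => ?_
    rw [hv u v (hξ u) (hξ v)]
    rfl

end Pool.Agent.H792.KG
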